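import Pool.Agent.Full.Loc.Chart

/-!
# The dislocated box inside a region: boundary and regular corners

`ChartD.bd`: the only boundary half edge of the region near `z` is `z`.
`ChartD.reg`: the corners on the boundary of a rectangle around `z` are regular.
-/

set_option autoImplicit false

namespace Full.Loc
open Relation Finset Function

variable {τ : Type*}

/-- four tiles around a corner: `A`, `B` below, `D`, `C` above -/
structure Sq (g : Half τ → Half τ) (A B C D : τ) : Prop where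
  AD : g (A, .N) = (D, .S)
  DC : g (D, .E) = (C, .W)
  CB : g (C, .S) = (B, .N)
  BA : g (B, .W) = (A, .E)

/-- a regular corner next to `y` -/
def RegC (g : Half τ → Half τ) (y : Half τ) : Prop :=
  (rot g)^[4] y = y ∧ ∀ j < 4, g ((rot g)^[j] y) ≠ (rot g)^[j] y

namespace Sq
variable {g : Half τ → Half τ} {A B C D : τ} (h : Sq g A B C D)
include h

lemma rA : rot g (A, .N) = (D, .E) := by unfold rot; rw [h.AD]; rfl
lemma rD : rot g (D, .E) = (C, .S) := by unfold rot; rw [h.DC]; rfl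
lemma rC : rot g (C, .S) = (B, .W) := by unfold rot; rw [h.CB]; rfl
lemma rB : rot g (B, .W) = (A, .N) := by unfold rot; rw [h.BA]; rfl
lemma nA : g (A, .N) ≠ (A, .N) := by rw [h.AD]; exact fun h => Dir.noConfusion (congrArg Prod.snd h)
lemma nD : g (D, .E) ≠ (D, .E) := by rw [h.DC]; exact fun h => Dir.noConfusion (congrArg Prod.snd h)
lemma nC : g (C, .S) ≠ (C, .S) := by rw [h.CB]; exact fun h => Dir.noConfusion (congrArg Prod.snd h)
lemma nB : g (B, .W) ≠ (B, .W) := by rw [h.BA]; exact fun h => Dir.noConfusion (congrArg Prod.snd h)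

lemma regA : RegC g (A, .N) := by
  refine ⟨?_, fun j hj => ?_⟩
  · simp only [iterate_succ, iterate_zero, comp_apply, id, h.rA, h.rB, h.rC, h.rD]
  · interval_cases j <;> simp only [iterate_succ, iterate_zero, comp_apply, id, h.rA, h.rC, h.rD]
    exacts [h.nA, h.nD, h.nC, h.nB]

lemma regD : RegC g (D, .E) := by
  refine ⟨?_, fun j hj => ?_⟩
  · simp only [iterate_succ, iterate_zero, comp_apply, id, h.rA, h.rB, h.rC, h.rD]
  · interval_cases j <;> simp only [iterate_succ, iterate_zero, comp_apply, id, h.rB, h.rC, h.rD]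
    exacts [h.nD, h.nC, h.nB, h.nA]

lemma regC : RegC g (C, .S) := by
  refine ⟨?_, fun j hj => ?_⟩
  · simp only [iterate_succ, iterate_zero, comp_apply, id, h.rA, h.rB, h.rC, h.rD]
  · interval_cases j <;> simp only [iterate_succ, iterate_zero, comp_apply, id, h.rA, h.rB, h.rC]
    exacts [h.nC, h.nB, h.nA, h.nD]

lemma regB : RegC g (B, .W) := by
  refine ⟨?_, fun j hj => ?_⟩
  · simp only [iterate_succ, iterate_zero, comp_apply, id, h.rA, h.rB, h.rC, h.rD]
  · interval_cases j <;> simp only [iterate_succ, iterate_zero, comp_apply, id, h.rA, h.rB, h.rD]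
    exacts [h.nB, h.nA, h.nD, h.nC]

end Sq

/-- squares of the dislocated box, straight -/
lemma sq_gD {R i j : ℤ} (h : j ≠ -1 ∨ i + 1 < 0) (h1 : -R ≤ i) (h2 : i + 1 < R) (h3 : -R ≤ j)
    (h4 : j + 1 < R) : Sq (gD R) (i, j) (i + 1, j) (i + 1, j + 1) (i, j + 1) := by
  have m1 : (i, j) ∈ Bx R := by rw [mem_Bx]; simp only; omega
  have m2 : (i + 1, j) ∈ Bx R := by rw [mem_Bx]; simp only; omega
  have m3 : (i + 1, j + 1) ∈ Bx R := by rw [mem_Bx]; simp only; omega
  have m4 : (i, j + 1) ∈ Bx R := by rw [mem_Bx]; simp only; omega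
  have hinv := (glu_gD R).inv
  have e1 : gD R ((i, j), .N) = ((i, j + 1), .S) := by
    by_cases hj : j = -1
    · subst hj
      exact gD_left (by omega) m1
    · exact gD_N hj m1 m4
  have e2 : gD R ((i + 1, j), .N) = ((i + 1, j + 1), .S) := by
    by_cases hj : j = -1
    · subst hj
      exact gD_left (by omega) m2
    · exact gD_N hj m2 m3
  refine ⟨e1, gD_E m4 m3, ?_, ?_⟩
  · rw [← e2, hinv]
  · rw [← gD_E m1 m2, hinv]

/-- squares of the dislocated box, across the ray -/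
lemma sq_gD' {R i : ℤ} (h : 0 < i) (h2 : i + 1 < R) (h4 : 1 < R) :
    Sq (gD R) (i, -1) (i + 1, -1) (i, 0) (i - 1, 0) := by
  have m1 : (i, -1) ∈ Bx R := by rw [mem_Bx]; simp only; omega
  have m2 : (i + 1, -1) ∈ Bx R := by rw [mem_Bx]; simp only; omega
  have m3 : (i - 1, 0) ∈ Bx R := by rw [mem_Bx]; simp only; omega
  have m4 : (i - 1 + 1, 0) ∈ Bx R := by rw [mem_Bx]; simp only; omega
  have hinv := (glu_gD R).inv
  have e2 : gD R ((i + 1, -1), .N) = ((i, 0), .S) := by
    have := gD_right (R := R) (i := i + 1) (by omega) m2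
    rwa [add_sub_cancel_right] at this
  refine ⟨gD_right h m1, ?_, ?_, ?_⟩
  · have := gD_E m3 m4
    rwa [sub_add_cancel] at this
  · rw [← e2, hinv]
  · rw [← gD_E m1 m2, hinv]

namespace ChartD
variable {T : Finset τ} {g : Half τ → Half τ} {R : ℤ} {ψ : ℤ × ℤ → τ} {z : Half τ}
  (h : ChartD T g R ψ z)
include h

lemma glue_eq {t t' : ℤ × ℤ} {d d' : Dir} (ht : t ∈ Bx R) (hg : gD R (t, d) = (t', d'))
    (hd : d' ≠ d) : g (ψ t, d) = (ψ t', d') := by
  have h1 := h.glue (t, d) ht (by rw [hg]; exact fun h => hd (congrArg Prod.snd h))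
  rw [hg] at h1
  exact h1

/-- the only boundary half edge near `z` is `z` -/
theorem bd {x : Half τ} (hx : ∃ t ∈ Bx (R - 1), ψ t = x.1) (hg : g x = x) : x = z := by
  obtain ⟨t, ht, hx⟩ := hx
  obtain ⟨t0, d⟩ := x
  subst hx
  by_cases h1 : gD R (t, d) = (t, d)
  · have h2 := gD_inner ht h1
    have h3 : t = (0, -1) := congrArg Prod.fst h2
    have h4 : d = .N := congrArg Prod.snd h2
    rw [h.centre, h3, h4]
  · exfalso
    have h2 := h.glue (t, d) (Bx_mono (by omega) ht) h1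
    rw [hg] at h2
    have h3 : (gD R (t, d)).2 = d.opp := Surf.straight_glue disl (Bx R) (t, d) h1
    have h4 : d = (gD R (t, d)).2 := congrArg Prod.snd h2
    rw [h3] at h4
    exact Dir.opp_ne d h4.symm

lemma sq {A B C D : ℤ × ℤ} (hq : Sq (gD R) A B C D) (hA : A ∈ Bx R) (hB : B ∈ Bx R) (hC : C ∈ Bx R)
    (hD : D ∈ Bx R) : Sq g (ψ A) (ψ B) (ψ C) (ψ D) :=
  ⟨h.glue_eq hA hq.AD (by decide), h.glue_eq hD hq.DC (by decide), h.glue_eq hC hq.CB (by decide),
    h.glue_eq hB hq.BA (by decide)⟩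

/-- **regular corners** on the boundary of the rectangle `[-ρ, ρ] × [-1, m]` around `z` -/
theorem reg (hG : Glu T g) {ρ m : ℤ} (hρ : 1 ≤ ρ) (hm : 0 ≤ m) (hR : ρ + 3 ≤ R) (hR' : m + 3 ≤ R)
    {B : Finset τ} (hB : ∀ i j, (i, j) ∈ Bx (R - 1) → (ψ (i, j) ∈ B ↔ (-ρ ≤ i ∧ i ≤ ρ) ∧ -1 ≤ j ∧ j ≤ m))
    (hB' : ∀ t ∈ B, ∃ s ∈ Bx (R - 1), ψ s = t) {y : Half τ} (hy : y.1 ∉ B) (hgy : (g y).1 ∈ B) :
    RegC g y := by
  obtain ⟨⟨i', j'⟩, hs, hs'⟩ := hB' _ hgy
  rw [← hs', hB i' j' hs] at hgy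
  set d' := (g y).2 with hd'
  have e1 : g y = (ψ (i', j'), d') := Prod.ext hs'.symm rfl
  have e2 : y = g (ψ (i', j'), d') := by rw [← e1, hG.inv]
  have hsR : (i', j') ∈ Bx R := Bx_mono (by omega) hs
  -- `y` is not glued to itself
  have h1 : gD R ((i', j'), d') ≠ ((i', j'), d') := by
    intro h1
    have h2 := gD_inner hs h1
    have h3 : (i', j') = (0, -1) := congrArg Prod.fst h2
    have h4 : d' = .N := congrArg Prod.snd h2
    have h5 : y = z := by rw [e2, h3, h4, ← h.centre, h.fix]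
    apply hy
    rw [h5, h.centre]
    show ψ (0, -1) ∈ B
    rw [hB 0 (-1) (by rw [mem_Bx]; simp only; omega)]
    omega
  have h2 : y = (ψ (gD R ((i', j'), d')).1, (gD R ((i', j'), d')).2) := by
    have h2 := h.glue _ hsR h1
    rwa [← e2] at h2
  -- the tile of `y`
  have h3 := gD_cases h1
  have hkey : ∀ {i j : ℤ} {d : Dir}, gD R ((i', j'), d') = ((i, j), d) → y = (ψ (i, j), d) := by
    intro i j d h4
    rw [h2, h4]
  have hout : ∀ {i j : ℤ} {d : Dir}, gD R ((i', j'), d') = ((i, j), d) → (i, j) ∈ Bx (R - 1) →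
      ¬ ((-ρ ≤ i ∧ i ≤ ρ) ∧ -1 ≤ j ∧ j ≤ m) := by
    intro i j d h4 h5 h6
    apply hy
    rw [hkey h4]
    exact (hB i j h5).2 h6
  rw [mem_Bx] at hs
  simp only at hs
  have mem : ∀ i j : ℤ, (-R ≤ i ∧ i < R) → (-R ≤ j ∧ j < R) → (i, j) ∈ Bx R := by
    intro i j h4 h5
    rw [mem_Bx]
    exact ⟨h4, h5⟩
  have mem' : ∀ i j : ℤ, (-(R - 1) ≤ i ∧ i < R - 1) → (-(R - 1) ≤ j ∧ j < R - 1) → (i, j) ∈ Bx (R - 1) := by
    intro i j h4 h5
    rw [mem_Bx]
    exact ⟨h4, h5⟩
  rcases h3 with ⟨i, j, -, -, ⟨h4, h5⟩ | ⟨h4, h5⟩⟩ | ⟨i, j, hj, -, -, ⟨h4, h5⟩ | ⟨h4, h5⟩⟩ |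
    ⟨i, hi, -, ⟨h4, h5⟩ | ⟨h4, h5⟩⟩ | ⟨i, hi, -, ⟨h4, h5⟩ | ⟨h4, h5⟩⟩
  · -- `y` is on the right
    have h6 : i' = i := congrArg (fun x : Half (ℤ × ℤ) => x.1.1) h4
    have h7 : j' = j := congrArg (fun x : Half (ℤ × ℤ) => x.1.2) h4
    have h8 := hout h5 (mem' _ _ (by omega) (by omega))
    rw [hkey h5]
    by_cases hj : j = -1
    · subst hj
      exact (h.sq (sq_gD' (R := R) (i := i) (by omega) (by omega) (by omega)) (mem _ _ (by omega) (by omega))
        (mem _ _ (by omega) (by omega)) (mem _ _ (by omega) (by omega))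
        (mem _ _ (by omega) (by omega))).regB
    · exact (h.sq (sq_gD (R := R) (i := i) (j := j) (Or.inl hj) (by omega) (by omega) (by omega) (by omega))
        (mem _ _ (by omega) (by omega)) (mem _ _ (by omega) (by omega)) (mem _ _ (by omega) (by omega))
        (mem _ _ (by omega) (by omega))).regB
  · -- on the left
    have h6 : i' = i + 1 := congrArg (fun x : Half (ℤ × ℤ) => x.1.1) h4
    have h7 : j' = j := congrArg (fun x : Half (ℤ × ℤ) => x.1.2) h4
    have h8 := hout h5 (mem' _ _ (by omega) (by omega))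
    rw [hkey h5]
    have h9 := (h.sq (sq_gD (R := R) (i := i) (j := j - 1) (Or.inr (by omega)) (by omega) (by omega) (by omega)
      (by omega)) (mem _ _ (by omega) (by omega)) (mem _ _ (by omega) (by omega))
      (mem _ _ (by omega) (by omega)) (mem _ _ (by omega) (by omega))).regD
    rwa [sub_add_cancel] at h9
  · -- above
    have h6 : i' = i := congrArg (fun x : Half (ℤ × ℤ) => x.1.1) h4
    have h7 : j' = j := congrArg (fun x : Half (ℤ × ℤ) => x.1.2) h4
    have h8 := hout h5 (mem' _ _ (by omega) (by omega))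
    rw [hkey h5]
    have h9 := (h.sq (sq_gD (R := R) (i := i - 1) (j := j) (Or.inl hj) (by omega) (by omega) (by omega)
      (by omega)) (mem _ _ (by omega) (by omega)) (mem _ _ (by omega) (by omega))
      (mem _ _ (by omega) (by omega)) (mem _ _ (by omega) (by omega))).regC
    rwa [sub_add_cancel] at h9
  · -- below
    have h6 : i' = i := congrArg (fun x : Half (ℤ × ℤ) => x.1.1) h4
    have h7 : j' = j + 1 := congrArg (fun x : Half (ℤ × ℤ) => x.1.2) h4
    have h8 := hout h5 (mem' _ _ (by omega) (by omega))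
    rw [hkey h5]
    exact (h.sq (sq_gD (R := R) (i := i) (j := j) (Or.inl hj) (by omega) (by omega) (by omega)
      (by omega)) (mem _ _ (by omega) (by omega)) (mem _ _ (by omega) (by omega))
      (mem _ _ (by omega) (by omega)) (mem _ _ (by omega) (by omega))).regA
  · have h6 : i' = i := congrArg (fun x : Half (ℤ × ℤ) => x.1.1) h4
    have h8 := hout h5 (mem' _ _ (by omega) (by omega))
    omega
  · have h6 : i' = i := congrArg (fun x : Half (ℤ × ℤ) => x.1.1) h4
    have h8 := hout h5 (mem' _ _ (by omega) (by omega))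
    omega
  · have h6 : i' = i := congrArg (fun x : Half (ℤ × ℤ) => x.1.1) h4
    have h8 := hout h5 (mem' _ _ (by omega) (by omega))
    omega
  · have h6 : i' = i - 1 := congrArg (fun x : Half (ℤ × ℤ) => x.1.1) h4
    have h8 := hout h5 (mem' _ _ (by omega) (by omega))
    rw [hkey h5]
    exact (h.sq (sq_gD' (R := R) (i := i) (by omega) (by omega) (by omega)) (mem _ _ (by omega) (by omega))
      (mem _ _ (by omega) (by omega)) (mem _ _ (by omega) (by omega))
      (mem _ _ (by omega) (by omega))).regA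

end ChartD

end Full.Loc
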