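import Pool.Agent.Full.Loc.Prob

/-!
# Local changes of a surface: composition, inverse, criterion

* `Same.trans`, `Same.symm`: composition and inverse of identifications;
* `same_of_nb`: two surfaces given by neighbours, only the directions `E` and `N` have to be checked;
* `same_of_iso`: an isomorphism of surfaces identifies them outside every set.
-/

set_option autoImplicit false

namespace Full.Loc
open Function Relation

variable {τ σ υ : Type*} [DecidableEq τ] [DecidableEq σ] [DecidableEq υ]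

lemma hmap_hmap {α β γ : Type*} (φ : α → β) (ψ : β → γ) (x : Half α) :
    hmap ψ (hmap φ x) = hmap (ψ ∘ φ) x := rfl

/-- composition -/
theorem Same.trans {T : Finset τ} {g : Half τ → Half τ} {B : Finset τ} {T' : Finset σ}
    {g' : Half σ → Half σ} {B' : Finset σ} {T'' : Finset υ} {g'' : Half υ → Half υ} {B'' : Finset υ}
    {φ : τ → σ} {ψ : σ → υ} (h : Same T g B T' g' B' φ) (h' : Same T' g' B' T'' g'' B'' ψ) :
    Same T g B T'' g'' B'' (ψ ∘ φ) where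
  sub := h.sub
  sub' := h'.sub'
  inj := by
    intro a ha b hb hab
    exact h.inj ha hb (h'.inj (Finset.mem_coe.2 (h.mem' (Finset.mem_coe.1 ha)))
      (Finset.mem_coe.2 (h.mem' (Finset.mem_coe.1 hb))) hab)
  img := by rw [← Finset.image_image, h.img, h'.img]
  glue x hx hgx := by
    have h1 := h.glue x hx hgx
    have h2 : (g' (hmap φ x)).1 ∈ T' \ B' := by rw [h1]; exact h.mem' hgx
    have h3 := h'.glue (hmap φ x) (h.mem' hx) h2
    rw [h1] at h3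
    exact h3
  inner x hx hgx := h'.inner (hmap φ x) (h.mem' hx) (h.inner x hx hgx)

/-- two maps which agree outside `B` -/
theorem Same.congr {T : Finset τ} {g : Half τ → Half τ} {B : Finset τ} {T' : Finset σ}
    {g' : Half σ → Half σ} {B' : Finset σ} {φ ψ : τ → σ} (h : Same T g B T' g' B' φ)
    (he : ∀ t ∈ T \ B, ψ t = φ t) : Same T g B T' g' B' ψ where
  sub := h.sub
  sub' := h.sub'
  inj := by
    intro a ha b hb hab
    rw [he a (Finset.mem_coe.1 ha), he b (Finset.mem_coe.1 hb)] at hab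
    exact h.inj ha hb hab
  img := by rw [← h.img]; exact Finset.image_congr fun t ht => he t (Finset.mem_coe.1 ht)
  glue x hx hgx := by
    have h1 : hmap ψ x = hmap φ x := Prod.ext (he _ hx) rfl
    have h2 : hmap ψ (g x) = hmap φ (g x) := Prod.ext (he _ hgx) rfl
    rw [h1, h2]
    exact h.glue x hx hgx
  inner x hx hgx := by
    have h1 : hmap ψ x = hmap φ x := Prod.ext (he _ hx) rfl
    rw [h1]
    exact h.inner x hx hgx

/-- the inverse identification, for a given inverse map -/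
theorem Same.symm_of {T : Finset τ} {g : Half τ → Half τ} {B : Finset τ} {T' : Finset σ}
    {g' : Half σ → Half σ} {B' : Finset σ} {φ : τ → σ} (h : Same T g B T' g' B' φ)
    (hG : Glu T g) {ψ : σ → τ} (hψ : ∀ t ∈ T \ B, ψ (φ t) = t) : Same T' g' B' T g B ψ := by
  have hsurj : ∀ s ∈ T' \ B', ∃ t ∈ T \ B, φ t = s := fun s hs => by
    rw [← h.img] at hs
    obtain ⟨t, ht, h1⟩ := Finset.mem_image.1 hs
    exact ⟨t, ht, h1⟩
  have hgm : ∀ x : Half τ, x.1 ∈ T \ B → (g x).1 ∈ T \ B ∨ (g x).1 ∈ B := fun x hx => by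
    have h1 := hG.mem x (Finset.mem_sdiff.1 hx).1
    by_cases h2 : (g x).1 ∈ B
    · exact Or.inr h2
    · exact Or.inl (Finset.mem_sdiff.2 ⟨h1, h2⟩)
  refine ⟨h.sub', h.sub, ?_, ?_, ?_, ?_⟩
  · intro a ha b hb hab
    obtain ⟨t, ht, rfl⟩ := hsurj a (Finset.mem_coe.1 ha)
    obtain ⟨u, hu, rfl⟩ := hsurj b (Finset.mem_coe.1 hb)
    rw [hψ t ht, hψ u hu] at hab
    rw [hab]
  · ext t
    rw [Finset.mem_image]
    constructor
    · rintro ⟨s, hs, rfl⟩
      obtain ⟨t, ht, rfl⟩ := hsurj s hs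
      rw [hψ t ht]
      exact ht
    · intro ht
      exact ⟨φ t, h.mem' ht, hψ t ht⟩
  · rintro ⟨s, d⟩ hs hgs
    obtain ⟨t, ht, rfl⟩ := hsurj s hs
    have e1 : hmap ψ (φ t, d) = (t, d) := Prod.ext (hψ t ht) rfl
    rw [e1]
    rcases hgm (t, d) ht with h1 | h1
    · have h2 : g' (φ t, d) = hmap φ (g (t, d)) := h.glue (t, d) ht h1
      rw [h2, hmap_hmap]
      exact Prod.ext (hψ _ h1).symm rfl
    · have h2 : (g' (φ t, d)).1 ∈ B' := h.inner (t, d) ht h1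
      exact absurd h2 (Finset.mem_sdiff.1 hgs).2
  · rintro ⟨s, d⟩ hs hgs
    obtain ⟨t, ht, rfl⟩ := hsurj s hs
    have e1 : hmap ψ (φ t, d) = (t, d) := Prod.ext (hψ t ht) rfl
    rw [e1]
    rcases hgm (t, d) ht with h1 | h1
    · have h2 : g' (φ t, d) = hmap φ (g (t, d)) := h.glue (t, d) ht h1
      have h3 : (g' (φ t, d)).1 ∈ B' := hgs
      rw [h2] at h3
      exact absurd h3 (Finset.mem_sdiff.1 (h.mem' h1)).2
    · exact h1

/-- the inverse identification -/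
theorem Same.symm {T : Finset τ} {g : Half τ → Half τ} {B : Finset τ} {T' : Finset σ}
    {g' : Half σ → Half σ} {B' : Finset σ} {φ : τ → σ} (h : Same T g B T' g' B' φ) (hG : Glu T g)
    (hτ : T.Nonempty) : ∃ ψ : σ → τ, Same T' g' B' T g B ψ ∧ (∀ t ∈ T \ B, ψ (φ t) = t) ∧
      ∀ s ∈ T' \ B', φ (ψ s) = s := by
  have : Nonempty τ := ⟨hτ.choose⟩
  have h1 : ∀ t ∈ T \ B, Function.invFunOn φ (T \ B : Finset τ) (φ t) = t := fun t ht =>
    h.inj (Function.invFunOn_mem (s := ((T \ B : Finset τ) : Set τ)) ⟨t, Finset.mem_coe.2 ht, rfl⟩)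
      (Finset.mem_coe.2 ht) (Function.invFunOn_eq ⟨t, Finset.mem_coe.2 ht, rfl⟩)
  refine ⟨Function.invFunOn φ (T \ B : Finset τ), h.symm_of hG h1, h1, fun s hs => ?_⟩
  rw [← h.img] at hs
  obtain ⟨t, ht, rfl⟩ := Finset.mem_image.1 hs
  rw [h1 t ht]

/-- **criterion**: surfaces given by neighbours -/
theorem same_of_nb {s : Surf τ} {s' : Surf σ} {T B : Finset τ} {T' B' : Finset σ} {φ : τ → σ}
    (hB : B ⊆ T) (hB' : B' ⊆ T') (hinj : Set.InjOn φ (T \ B : Finset τ))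
    (himg : (T \ B).image φ = T' \ B')
    (h1 : ∀ t ∈ T \ B, ∀ u ∈ T \ B, ∀ d, d = Dir.E ∨ d = Dir.N → (u ∈ s.nb d t ↔ φ u ∈ s'.nb d (φ t)))
    (h2 : ∀ t ∈ T \ B, ∀ d, d = Dir.E ∨ d = Dir.N →
      ((∃ u ∈ B, u ∈ s.nb d t) ↔ ∃ u ∈ B', u ∈ s'.nb d (φ t)))
    (h3 : ∀ u ∈ T \ B, ∀ d, d = Dir.E ∨ d = Dir.N →
      ((∃ t ∈ B, u ∈ s.nb d t) ↔ ∃ t ∈ B', φ u ∈ s'.nb d t)) :
    Same T (s.glue T) B T' (s'.glue T') B' φ := by
  have hm : ∀ t ∈ T \ B, φ t ∈ T' \ B' := fun t ht => by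
    rw [← himg]; exact Finset.mem_image_of_mem φ ht
  -- all directions
  have a1 : ∀ t ∈ T \ B, ∀ u ∈ T \ B, ∀ d, (u ∈ s.nb d t ↔ φ u ∈ s'.nb d (φ t)) := by
    intro t ht u hu d
    cases d with
    | E => exact h1 t ht u hu _ (Or.inl rfl)
    | N => exact h1 t ht u hu _ (Or.inr rfl)
    | W =>
      rw [Surf.mem_nb, Surf.mem_nb (S := s')]
      exact h1 u hu t ht _ (Or.inl rfl)
    | S =>
      rw [Surf.mem_nb, Surf.mem_nb (S := s')]
      exact h1 u hu t ht _ (Or.inr rfl)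
  have a2 : ∀ t ∈ T \ B, ∀ d, ((∃ u ∈ B, u ∈ s.nb d t) ↔ ∃ u ∈ B', u ∈ s'.nb d (φ t)) := by
    intro t ht d
    cases d with
    | E => exact h2 t ht _ (Or.inl rfl)
    | N => exact h2 t ht _ (Or.inr rfl)
    | W =>
      have := h3 t ht Dir.E (Or.inl rfl)
      constructor
      · rintro ⟨u, hu, h4⟩
        obtain ⟨v, hv, h5⟩ := this.1 ⟨u, hu, Surf.mem_nb.1 h4⟩
        exact ⟨v, hv, Surf.mem_nb.2 h5⟩
      · rintro ⟨u, hu, h4⟩
        obtain ⟨v, hv, h5⟩ := this.2 ⟨u, hu, Surf.mem_nb.1 h4⟩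
        exact ⟨v, hv, Surf.mem_nb.2 h5⟩
    | S =>
      have := h3 t ht Dir.N (Or.inr rfl)
      constructor
      · rintro ⟨u, hu, h4⟩
        obtain ⟨v, hv, h5⟩ := this.1 ⟨u, hu, Surf.mem_nb.1 h4⟩
        exact ⟨v, hv, Surf.mem_nb.2 h5⟩
      · rintro ⟨u, hu, h4⟩
        obtain ⟨v, hv, h5⟩ := this.2 ⟨u, hu, Surf.mem_nb.1 h4⟩
        exact ⟨v, hv, Surf.mem_nb.2 h5⟩
  refine ⟨hB, hB', hinj, himg, ?_, ?_⟩
  · rintro ⟨t, d⟩ ht hgt
    have ht : t ∈ T \ B := ht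
    have htm := hm t ht
    rcases s.glue_cases (T := T) (t, d) with h4 | ⟨u, h4, -, h5, h6⟩
    · -- a boundary half edge
      rw [h4]
      show s'.glue T' (φ t, d) = (φ t, d)
      rcases s'.glue_cases (T := T') (φ t, d) with h5 | ⟨u', h5, -, h6, -⟩
      · exact h5
      · exfalso
        have key : ∃ u ∈ T, u ∈ s.nb d t := by
          by_cases h7 : u' ∈ B'
          · obtain ⟨u, hu, h8⟩ := (a2 t ht d).2 ⟨u', h7, h5⟩
            exact ⟨u, hB hu, h8⟩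
          · have h8 : u' ∈ T' \ B' := Finset.mem_sdiff.2 ⟨h6, h7⟩
            rw [← himg] at h8
            obtain ⟨u, hu, rfl⟩ := Finset.mem_image.1 h8
            exact ⟨u, (Finset.mem_sdiff.1 hu).1, (a1 t ht u hu d).2 h5⟩
        obtain ⟨u, hu, h7⟩ := key
        have h8 : s.glue T (t, d) = (u, d.opp) := Surf.glue_of_mem h7 (Finset.mem_sdiff.1 ht).1 hu
        rw [h4] at h8
        exact Dir.opp_ne d (congrArg Prod.snd h8).symm
    · rw [h6] at hgt ⊢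
      exact Surf.glue_of_mem ((a1 t ht u hgt d).1 h4) (Finset.mem_sdiff.1 htm).1
        (Finset.mem_sdiff.1 (hm u hgt)).1
  · rintro ⟨t, d⟩ ht hgt
    have ht : t ∈ T \ B := ht
    have htm := hm t ht
    rcases s.glue_cases (T := T) (t, d) with h4 | ⟨u, h4, -, h5, h6⟩
    · rw [h4] at hgt
      exact absurd hgt (Finset.mem_sdiff.1 ht).2
    · rw [h6] at hgt
      obtain ⟨u', hu', h7⟩ := (a2 t ht d).1 ⟨u, hgt, h4⟩
      have h8 : s'.glue T' (φ t, d) = (u', d.opp) :=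
        Surf.glue_of_mem h7 (Finset.mem_sdiff.1 htm).1 (hB' hu')
      show (s'.glue T' (φ t, d)).1 ∈ B'
      rw [h8]
      exact hu'

/-- an isomorphism of surfaces -/
theorem same_of_iso {s : Surf τ} {s' : Surf σ} {T B : Finset τ} {T' : Finset σ} {φ : τ → σ}
    (hB : B ⊆ T) (hinj : Set.InjOn φ (T : Set τ)) (himg : T.image φ = T')
    (h1 : ∀ t ∈ T, ∀ u ∈ T, ∀ d, d = Dir.E ∨ d = Dir.N → (u ∈ s.nb d t ↔ φ u ∈ s'.nb d (φ t))) :
    Same T (s.glue T) B T' (s'.glue T') (B.image φ) φ := by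
  have hi : ∀ t ∈ T, ∀ u ∈ T, φ t = φ u → t = u := fun t ht u hu h =>
    hinj (Finset.mem_coe.2 ht) (Finset.mem_coe.2 hu) h
  refine same_of_nb hB ?_ ?_ ?_ ?_ ?_ ?_
  · rw [← himg]; exact Finset.image_subset_image hB
  · exact hinj.mono (Finset.coe_subset.2 Finset.sdiff_subset)
  · rw [← himg]
    ext v
    simp only [Finset.mem_image, Finset.mem_sdiff]
    constructor
    · rintro ⟨t, ⟨ht, h2⟩, rfl⟩
      refine ⟨⟨t, ht, rfl⟩, ?_⟩
      rintro ⟨u, hu, h3⟩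
      rw [hi u (hB hu) t ht h3] at hu
      exact h2 hu
    · rintro ⟨⟨t, ht, rfl⟩, h2⟩
      exact ⟨t, ⟨ht, fun h3 => h2 ⟨t, h3, rfl⟩⟩, rfl⟩
  · exact fun t ht u hu d hd => h1 t (Finset.mem_sdiff.1 ht).1 u (Finset.mem_sdiff.1 hu).1 d hd
  · intro t ht d hd
    constructor
    · rintro ⟨u, hu, h2⟩
      exact ⟨φ u, Finset.mem_image_of_mem φ hu, (h1 t (Finset.mem_sdiff.1 ht).1 u (hB hu) d hd).1 h2⟩
    · rintro ⟨v, hv, h2⟩
      obtain ⟨u, hu, rfl⟩ := Finset.mem_image.1 hv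
      exact ⟨u, hu, (h1 t (Finset.mem_sdiff.1 ht).1 u (hB hu) d hd).2 h2⟩
  · intro u hu d hd
    constructor
    · rintro ⟨t, ht, h2⟩
      exact ⟨φ t, Finset.mem_image_of_mem φ ht, (h1 t (hB ht) u (Finset.mem_sdiff.1 hu).1 d hd).1 h2⟩
    · rintro ⟨v, hv, h2⟩
      obtain ⟨t, ht, rfl⟩ := Finset.mem_image.1 hv
      exact ⟨t, ht, (h1 t (hB ht) u (Finset.mem_sdiff.1 hu).1 d hd).2 h2⟩

end Full.Loc
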