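import Pool.Agent.Full.Loc.Trans
import Pool.Agent.Full.Def.Build

/-!
# Transport of closed walls

`Same T g B T' g' B' φ` for the open domains, `z` and `z'` the only boundary half edges in `B`, `B'`:
the identification commutes with the boundary permutation (`Same.next_eq`), a closed wall of `(T, g)`
with the ends `E` gives a closed wall of `(T', g')`, and the domains with the walls are again identified
(`Same.wall`, `Same.wall_of`).
-/

set_option autoImplicit false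

namespace Full.Loc
open Function Relation

variable {τ σ : Type*} [DecidableEq τ] [DecidableEq σ]
variable {T : Finset τ} {g : Half τ → Half τ} {B : Finset τ} {T' : Finset σ}
  {g' : Half σ → Half σ} {B' : Finset σ} {φ : τ → σ}

/-- the way from `x` to `next g x` around their common corner avoids `B` -/
def Avoid (g : Half τ → Half τ) (B : Finset τ) (x : Half τ) : Prop :=
  ∀ k, (∀ j, 1 ≤ j → j < k → g ((rot g)^[j] x) ≠ (rot g)^[j] x) → ((rot g)^[k] x).1 ∉ B

omit [DecidableEq τ] in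
lemma next_of {x : Half τ} {k : ℕ} (hk : 1 ≤ k) (h1 : g ((rot g)^[k] x) = (rot g)^[k] x)
    (h2 : ∀ j, 1 ≤ j → j < k → g ((rot g)^[j] x) ≠ (rot g)^[j] x) : next g x = (rot g)^[k] x := by
  classical
  have hex : ∃ k, 1 ≤ k ∧ g ((rot g)^[k] x) = (rot g)^[k] x := ⟨k, hk, h1⟩
  unfold next
  rw [dif_pos hex]
  congr 1
  have h3 := Nat.find_spec hex
  have h4 := Nat.find_min' hex ⟨hk, h1⟩
  by_contra h5
  exact h2 _ h3.1 (by omega) h3.2

omit [DecidableEq τ] in
/-- if the corners next to `B` are regular (no boundary half edge, four tiles), all ways between boundary half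
edges outside `B` avoid `B` -/
theorem avoid_of_reg (hG : Glu T g) (hreg : ∀ y : Half τ, y.1 ∉ B → (g y).1 ∈ B →
    (rot g)^[4] y = y ∧ ∀ j < 4, g ((rot g)^[j] y) ≠ (rot g)^[j] y) {x : Half τ} (hx : g x = x)
    (hxB : x.1 ∉ B) : Avoid g B x := by
  classical
  intro k hk hkB
  have hex : ∃ k, ((rot g)^[k] x).1 ∈ B := ⟨k, hkB⟩
  have h1 := Nat.find_spec hex
  have h2 : ∀ m, m < Nat.find hex → ((rot g)^[m] x).1 ∉ B := fun m hm => Nat.find_min hex hm
  obtain ⟨m, hm⟩ : ∃ m, Nat.find hex = m + 1 := by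
    cases h3 : Nat.find hex with
    | zero => rw [h3] at h1; exact absurd h1 hxB
    | succ m => exact ⟨m, rfl⟩
  rw [hm] at h1 h2
  rw [iterate_succ_apply'] at h1
  obtain ⟨h3, h4⟩ := hreg ((rot g)^[m] x) (h2 m (by omega)) h1
  -- the orbit of `x` has period four
  have h5 : (rot g)^[4] x = x := by
    apply hG.rot_inj.iterate m
    rw [← iterate_add_apply, add_comm, iterate_add_apply]
    exact h3
  have h6 : ∀ i, (rot g)^[4 * i] x = x := by
    intro i
    induction i with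
    | zero => rfl
    | succ i ih => rw [Nat.mul_succ, iterate_add_apply, h5, ih]
  have h7 : ∀ i, (rot g)^[i % 4] ((rot g)^[m] x) = (rot g)^[i] ((rot g)^[m] x) := by
    intro i
    conv_rhs => rw [← Nat.mod_add_div i 4]
    rw [← iterate_add_apply, ← iterate_add_apply, show i % 4 + 4 * (i / 4) + m = (i % 4 + m) + 4 * (i / 4) by ring,
      iterate_add_apply _ (i % 4 + m), h6]
  have h8 := h4 ((3 * m) % 4) (Nat.mod_lt _ (by norm_num))
  rw [h7, ← iterate_add_apply, show 3 * m + m = 4 * m by ring, h6] at h8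
  exact h8 hx

namespace Same

/-- `hmap φ` is injective outside `B` -/
lemma hmap_inj (h : Same T g B T' g' B' φ) {x y : Half τ} (hx : x.1 ∈ T \ B) (hy : y.1 ∈ T \ B)
    (he : hmap φ x = hmap φ y) : x = y := by
  have h1 : φ x.1 = φ y.1 := congrArg (fun v : Half σ => v.1) he
  have h2 : x.2 = y.2 := congrArg (fun v : Half σ => v.2) he
  exact Prod.ext (h.inj (Finset.mem_coe.2 hx) (Finset.mem_coe.2 hy) h1) h2

/-- every tile outside `B'` comes from a tile outside `B` -/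
lemma exists_pre (h : Same T g B T' g' B' φ) {y : Half σ} (hy : y.1 ∈ T' \ B') :
    ∃ x : Half τ, x.1 ∈ T \ B ∧ hmap φ x = y := by
  obtain ⟨s, d⟩ := y
  have hs : s ∈ T' \ B' := hy
  rw [← h.img] at hs
  obtain ⟨t, ht, rfl⟩ := Finset.mem_image.1 hs
  exact ⟨(t, d), ht, rfl⟩

/-- fixed points outside `B` correspond -/
lemma fix_iff (h : Same T g B T' g' B' φ) (hG : Glu T g) {x : Half τ} (hx : x.1 ∈ T \ B) :
    g' (hmap φ x) = hmap φ x ↔ g x = x := by
  by_cases h1 : (g x).1 ∈ B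
  · have h2 := h.inner x hx h1
    constructor
    · intro h3
      rw [h3] at h2
      exact absurd h2 (Finset.mem_sdiff.1 (h.mem' hx)).2
    · intro h3
      rw [h3] at h1
      exact absurd h1 (Finset.mem_sdiff.1 hx).2
  · have h2 : (g x).1 ∈ T \ B := Finset.mem_sdiff.2 ⟨hG.mem _ (Finset.mem_sdiff.1 hx).1, h1⟩
    rw [h.glue x hx h2]
    exact ⟨fun h3 => h.hmap_inj h2 hx h3, fun h3 => by rw [h3]⟩

/-- boundary half edges outside `B` correspond -/
lemma bd_iff (h : Same T g B T' g' B' φ) (hG : Glu T g) {x : Half τ} (hx : x.1 ∈ T \ B) :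
    Bd T' g' (hmap φ x) ↔ Bd T g x := by
  constructor
  · exact fun h1 => ⟨(Finset.mem_sdiff.1 hx).1, (h.fix_iff hG hx).1 h1.2⟩
  · exact fun h1 => ⟨(Finset.mem_sdiff.1 (h.mem' hx)).1, (h.fix_iff hG hx).2 h1.2⟩

/-- **the boundary permutation is transported** -/
theorem next_eq (h : Same T g B T' g' B' φ) (hG : Glu T g) {x : Half τ} (hx : Bd T g x)
    (ha : Avoid g B x) :
    next g' (hmap φ x) = hmap φ (next g x) ∧ (next g x).1 ∉ B := by
  obtain ⟨k, hk, h1, h2, h3⟩ := hG.next_spec hx.2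
  have hout : ∀ j, j ≤ k → ((rot g)^[j] x).1 ∈ T \ B := by
    intro j hj
    refine Finset.mem_sdiff.2 ⟨?_, ha j fun i hi hi' => h3 i hi (by omega)⟩
    have key : ∀ i, ((rot g)^[i] x).1 ∈ T := by
      intro i
      induction i with
      | zero => exact hx.1
      | succ i ih => rw [iterate_succ_apply']; exact hG.mem _ ih
    exact key j
  have hrot : ∀ j, j ≤ k → (rot g')^[j] (hmap φ x) = hmap φ ((rot g)^[j] x) := by
    intro j
    induction j with
    | zero => intro _; rfl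
    | succ j ih =>
      intro hj
      rw [iterate_succ_apply', ih (by omega), iterate_succ_apply']
      have h4 := hout j (by omega)
      have h5 : (g ((rot g)^[j] x)).1 ∈ T \ B := by
        have := hout (j + 1) hj
        rw [iterate_succ_apply'] at this
        exact this
      show rho (g' (hmap φ ((rot g)^[j] x))) = hmap φ (rho (g ((rot g)^[j] x)))
      rw [h.glue _ h4 h5]
      rfl
  refine ⟨?_, ?_⟩
  · rw [h1, ← hrot k le_rfl]
    refine next_of hk ?_ fun j hj hj' => ?_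
    · rw [hrot k le_rfl, h.fix_iff hG (hout k le_rfl), ← h1]
      exact h2
    · rw [hrot j hj'.le, Ne, h.fix_iff hG (hout j hj'.le)]
      exact h3 j hj hj'
  · rw [h1]
    exact (Finset.mem_sdiff.1 (hout k le_rfl)).2

/-- **transport of the closed wall**: `z`, `z'` are the only boundary half edges in `B`, `B'` -/
theorem wall (h : Same T g B T' g' B' φ) (hG : Glu T g) (hG' : Glu T' g') {z : Half τ}
    {z' : Half σ} (hB : ∀ x : Half τ, x.1 ∈ B → g x = x → x = z)
    (hB' : ∀ x : Half σ, x.1 ∈ B' → g' x = x → x = z')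
    (hrot : ∀ x, Bd T g x → x.1 ∉ B → Avoid g B x) {E : Set (Half τ)} {E' : Set (Half σ)}
    (hE : z ∈ E) (hE' : z' ∈ E') (hEE : ∀ x, Bd T g x → x.1 ∉ B → (x ∈ E ↔ hmap φ x ∈ E'))
    {w : Half τ → Half τ} (hw : IsW T g E w) :
    ∃ w', IsW T' g' E' w' ∧ Same T w B T' w' B' φ := by
  classical
  -- the boundary half edges outside `B`
  have hwS : ∀ x, Bd T g x → x.1 ∉ B → Bd T g (w x) ∧ (w x).1 ∉ B := by
    intro x hx hxB
    have h1 := hw.toExt.bd hG hx
    refine ⟨h1, fun h2 => ?_⟩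
    have h3 := hB _ h2 h1.2
    have h4 : w z = z := (hw.ends z (by rw [← h3]; exact h1)).2 hE
    have h5 : x = z := by
      have := hw.inv x
      rw [h3, h4] at this
      exact this.symm
    rw [h3, ← h5] at h2
    exact hxB h2
  have hmS : ∀ x, Bd T g x → x.1 ∉ B → x.1 ∈ T \ B := fun x hx hxB => Finset.mem_sdiff.2 ⟨hx.1, hxB⟩
  have hpre : ∀ y, Bd T' g' y → y.1 ∉ B' → ∃ x, Bd T g x ∧ x.1 ∉ B ∧ hmap φ x = y := by
    intro y hy hyB
    obtain ⟨x, hx, rfl⟩ := h.exists_pre (Finset.mem_sdiff.2 ⟨hy.1, hyB⟩)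
    exact ⟨x, (h.bd_iff hG hx).1 hy, (Finset.mem_sdiff.1 hx).2, rfl⟩
  set w' : Half σ → Half σ := fun y =>
    if hy : ∃ x, Bd T g x ∧ x.1 ∉ B ∧ hmap φ x = y then hmap φ (w hy.choose) else g' y with hw'
  have w1 : ∀ x, Bd T g x → x.1 ∉ B → w' (hmap φ x) = hmap φ (w x) := by
    intro x hx hxB
    have hy : ∃ x', Bd T g x' ∧ x'.1 ∉ B ∧ hmap φ x' = hmap φ x := ⟨x, hx, hxB, rfl⟩
    show (if hy : ∃ x', Bd T g x' ∧ x'.1 ∉ B ∧ hmap φ x' = hmap φ x then hmap φ (w hy.choose)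
      else g' (hmap φ x)) = _
    rw [dif_pos hy]
    obtain ⟨h1, h2, h3⟩ := hy.choose_spec
    rw [h.hmap_inj (hmS _ h1 h2) (hmS _ hx hxB) h3]
  have w2 : ∀ y, ¬ (∃ x, Bd T g x ∧ x.1 ∉ B ∧ hmap φ x = y) → w' y = g' y := fun y hy => dif_neg hy
  have w3 : ∀ y, ¬ Bd T' g' y → w' y = g' y := by
    intro y hy
    refine w2 y ?_
    rintro ⟨x, hx, hxB, rfl⟩
    exact hy ((h.bd_iff hG (hmS x hx hxB)).2 hx)
  have w4 : ∀ y, y.1 ∈ B' → w' y = g' y := by
    intro y hy
    refine w2 y ?_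
    rintro ⟨x, hx, hxB, rfl⟩
    exact (Finset.mem_sdiff.1 (h.mem' (hmS x hx hxB))).2 hy
  refine ⟨w', ⟨⟨⟨⟨fun y => ?_, fun y hy => ?_, fun y hy => ?_⟩, fun y hy => ?_⟩, fun y hy => ?_⟩,
    fun y hy => ?_⟩, ⟨h.sub, h.sub', h.inj, h.img, fun x hx hwx => ?_, fun x hx hwx => ?_⟩⟩
  · -- involution
    by_cases hy : ∃ x, Bd T g x ∧ x.1 ∉ B ∧ hmap φ x = y
    · obtain ⟨x, hx, hxB, rfl⟩ := hy
      obtain ⟨h1, h2⟩ := hwS x hx hxB
      rw [w1 x hx hxB, w1 _ h1 h2, hw.inv]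
    · rw [w2 y hy]
      by_cases hy' : Bd T' g' y
      · rw [hy'.2, w2 y hy, hy'.2]
      · by_cases hyT : y.1 ∈ T'
        · have h1 : ¬ Bd T' g' (g' y) := by
            intro h1
            have h2 := h1.2
            rw [hG'.inv] at h2
            exact hy' ⟨hyT, h2.symm⟩
          rw [w3 _ h1, hG'.inv]
        · rw [hG'.out y hyT, w2 y hy, hG'.out y hyT]
  · by_cases h1 : ∃ x, Bd T g x ∧ x.1 ∉ B ∧ hmap φ x = y
    · obtain ⟨x, hx, hxB, rfl⟩ := h1
      obtain ⟨h1, h2⟩ := hwS x hx hxB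
      rw [w1 x hx hxB]
      exact (Finset.mem_sdiff.1 (h.mem' (hmS _ h1 h2))).1
    · rw [w2 y h1]
      exact hG'.mem y hy
  · rw [w3 y fun h1 => hy h1.1]
    exact hG'.out y hy
  · exact w3 y fun h1 => hy h1.2
  · -- neighbours
    by_cases hyB : y.1 ∈ B'
    · left
      rw [w4 y hyB, hy.2]
    · obtain ⟨x, hx, hxB, rfl⟩ := hpre y hy hyB
      obtain ⟨h1, h2⟩ := hwS x hx hxB
      rw [w1 x hx hxB]
      rcases hw.near x hx with h3 | h3 | h3
      · left; rw [h3]
      · right; left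
        rw [(h.next_eq hG hx (hrot x hx hxB)).1, h3]
      · right; right
        rw [(h.next_eq hG h1 (hrot _ h1 h2)).1, ← h3]
  · -- ends
    by_cases hyB : y.1 ∈ B'
    · have h1 := hB' y hyB hy.2
      rw [w4 y hyB, hy.2, h1]
      exact ⟨fun _ => hE', fun _ => rfl⟩
    · obtain ⟨x, hx, hxB, rfl⟩ := hpre y hy hyB
      obtain ⟨h1, h2⟩ := hwS x hx hxB
      rw [w1 x hx hxB, ← hEE x hx hxB, ← hw.ends x hx]
      exact ⟨fun h3 => h.hmap_inj (hmS _ h1 h2) (hmS _ hx hxB) h3, fun h3 => by rw [h3]⟩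
  · -- the identification
    by_cases h1 : g x = x
    · have hx' : Bd T g x := ⟨(Finset.mem_sdiff.1 hx).1, h1⟩
      exact w1 x hx' (Finset.mem_sdiff.1 hx).2
    · rw [hw.ext x h1] at hwx ⊢
      have h2 : ¬ Bd T' g' (hmap φ x) := fun h2 => h1 ((h.bd_iff hG hx).1 h2).2
      rw [w3 _ h2]
      exact h.glue x hx hwx
  · by_cases h1 : g x = x
    · have hx' : Bd T g x := ⟨(Finset.mem_sdiff.1 hx).1, h1⟩
      exact absurd hwx (hwS x hx' (Finset.mem_sdiff.1 hx).2).2
    · rw [hw.ext x h1] at hwx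
      have h2 : ¬ Bd T' g' (hmap φ x) := fun h2 => h1 ((h.bd_iff hG hx).1 h2).2
      rw [w3 _ h2]
      exact h.inner x hx hwx

/-- the version for given closed walls of both domains -/
theorem wall_of (h : Same T g B T' g' B' φ) (hG : Glu T g) (hG' : Glu T' g') {z : Half τ}
    {z' : Half σ} (hB : ∀ x : Half τ, x.1 ∈ B → g x = x → x = z)
    (hB' : ∀ x : Half σ, x.1 ∈ B' → g' x = x → x = z')
    (hrot : ∀ x, Bd T g x → x.1 ∉ B → Avoid g B x) {E : Set (Half τ)} {E' : Set (Half σ)}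
    (hE : z ∈ E) (hE' : z' ∈ E') (hEE : ∀ x, Bd T g x → x.1 ∉ B → (x ∈ E ↔ hmap φ x ∈ E'))
    (hM : Meets T' g' E') {w : Half τ → Half τ} {w' : Half σ → Half σ} (hw : IsW T g E w)
    (hw' : IsW T' g' E' w') : Same T w B T' w' B' φ := by
  obtain ⟨w'', h1, h2⟩ := h.wall hG hG' hB hB' hrot hE hE' hEE hw
  rw [hw'.eq_of hG' hM h1]
  exact h2

/-- **transport of the closed wall**, regular corners next to `B` -/
theorem wall_reg (h : Same T g B T' g' B' φ) (hG : Glu T g) (hG' : Glu T' g') {z : Half τ}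
    {z' : Half σ} (hB : ∀ x : Half τ, x.1 ∈ B → g x = x → x = z)
    (hB' : ∀ x : Half σ, x.1 ∈ B' → g' x = x → x = z')
    (hreg : ∀ y : Half τ, y.1 ∉ B → (g y).1 ∈ B →
      (rot g)^[4] y = y ∧ ∀ j < 4, g ((rot g)^[j] y) ≠ (rot g)^[j] y) {E : Set (Half τ)} {E' : Set (Half σ)}
    (hE : z ∈ E) (hE' : z' ∈ E') (hEE : ∀ x, Bd T g x → x.1 ∉ B → (x ∈ E ↔ hmap φ x ∈ E'))
    {w : Half τ → Half τ} (hw : IsW T g E w) :
    ∃ w', IsW T' g' E' w' ∧ Same T w B T' w' B' φ :=
  h.wall hG hG' hB hB' (fun _ hx hxB => avoid_of_reg hG hreg hx.2 hxB) hE hE' hEE hw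

end Same

end Full.Loc
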