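import Pool.Agent.Full.Loc.Eq

/-!
# The dislocated box inside a region
-/

set_option autoImplicit false

namespace Full.Loc
open Relation Finset
open Pool.Agent.Helper69.RSW (P P_congr P_mono P_restrict Dep)

/-- the pulled back configuration has the uniform law -/
theorem P_pull {E E' : Type*} [DecidableEq E] [DecidableEq E'] {B : Finset E} {T : Finset E'}
    {ψ : E → E'} (hinj : Set.InjOn ψ B) (hT : ∀ t ∈ B, ψ t ∈ T) (A : Finset E → Prop) :
    P T (fun ω => A (B.filter (fun t => ψ t ∈ ω))) = P B A := by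
  classical
  have hsub : B.image ψ ⊆ T := by
    intro y hy
    obtain ⟨e, he, rfl⟩ := mem_image.1 hy
    exact hT e he
  have hdep : Dep (B.image ψ) (fun ω => A (B.filter (fun t => ψ t ∈ ω))) := by
    intro ω
    have : B.filter (fun t => ψ t ∈ ω) = B.filter (fun t => ψ t ∈ ω ∩ B.image ψ) := by
      apply filter_congr
      intro e he
      rw [mem_inter]
      exact ⟨fun h => ⟨h, mem_image_of_mem ψ he⟩, fun h => h.1⟩
    show A _ ↔ A _
    rw [← this]
  rw [P_restrict hsub hdep]
  have e := P_image_inj hinj (fun ω => A (B.filter (fun t => ψ t ∈ ω)))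
  rw [e]
  apply P_congr
  intro S hS
  have : B.filter (fun t => ψ t ∈ S.image ψ) = S := by
    ext t
    rw [mem_filter, mem_image]
    constructor
    · rintro ⟨h1, t', h2, h3⟩
      rwa [← hinj (hS h2) h1 h3]
    · intro h
      exact ⟨hS h, t, h, rfl⟩
  rw [this]

/-- the only boundary half edge of the box of size `R` at a tile of the box of size `R - 1` is `z0` -/
lemma gD_inner {R : ℤ} {x : Half (ℤ × ℤ)} (hx : x.1 ∈ Bx (R - 1)) (hg : gD R x = x) : x = z0 := by
  by_contra hne
  apply (show gD R x ≠ x from ?_) hg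
  obtain ⟨⟨i, j⟩, d⟩ := x
  rw [mem_Bx] at hx
  simp only at hx
  -- `x` is the image of another half edge
  have key : ∀ y : Half (ℤ × ℤ), gD R y = ((i, j), d) → y ≠ ((i, j), d) → gD R ((i, j), d) ≠ ((i, j), d) := by
    intro y h1 h2 h3
    have h4 := (glu_gD R).inv y
    rw [h1, h3] at h4
    exact h2 h4.symm
  cases d
  · rw [gD_E (by rw [mem_Bx]; simp only; omega) (by rw [mem_Bx]; simp only; omega)]
    simp
  · by_cases hj : j = -1
    · subst hj
      rcases lt_trichotomy i 0 with hi | hi | hi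
      · rw [gD_left hi (by rw [mem_Bx]; simp only; omega)]
        simp
      · subst hi
        exact absurd rfl hne
      · rw [gD_right hi (by rw [mem_Bx]; simp only; omega)]
        simp
    · rw [gD_N hj (by rw [mem_Bx]; simp only; omega) (by rw [mem_Bx]; simp only; omega)]
      simp
  · apply key ((i - 1, j), .E) _ (by simp)
    have := gD_E (R := R) (i := i - 1) (j := j) (by rw [mem_Bx]; simp only; omega) (by rw [mem_Bx]; simp only; omega)
    rwa [sub_add_cancel] at this
  · by_cases hj : j = 0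
    · subst hj
      rcases lt_or_ge i 0 with hi | hi
      · exact key ((i, -1), .N) (gD_left hi (by rw [mem_Bx]; simp only; omega)) (by simp)
      · have := gD_right (R := R) (i := i + 1) (by omega) (by rw [mem_Bx]; simp only; omega)
        rw [add_sub_cancel_right] at this
        exact key ((i + 1, -1), .N) this (by simp)
    · have := gD_N (R := R) (i := i) (j := j - 1) (by omega) (by rw [mem_Bx]; simp only; omega)
        (by rw [mem_Bx]; simp only; omega)
      rw [sub_add_cancel] at this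
      exact key ((i, j - 1), .N) this (by simp)

variable {τ : Type*}

/-- `ψ` is a chart of the dislocated box of size `R` in the region `(T, g)`, with the centre `z` -/
structure ChartD (T : Finset τ) (g : Half τ → Half τ) (R : ℤ) (ψ : ℤ × ℤ → τ) (z : Half τ) : Prop where
  inj : Set.InjOn ψ (Bx R)
  mem : ∀ t ∈ Bx R, ψ t ∈ T
  glue : ∀ x : Half (ℤ × ℤ), x.1 ∈ Bx R → gD R x ≠ x → g (ψ x.1, x.2) = (ψ (gD R x).1, (gD R x).2)
  centre : z = (ψ (0, -1), .N)
  fix : g z = z

/-- a chart of the region is a chart of the region with closed walls: so `armC_le` may be applied to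
`(T, w)`, with the rotation of `w` -/
theorem ChartD.wall {T : Finset τ} {g w : Half τ → Half τ} {R : ℤ} {ψ : ℤ × ℤ → τ} {z : Half τ}
    (h : ChartD T g R ψ z) (hw : ∀ x, g x ≠ x → w x = g x) (hz : w z = z) : ChartD T w R ψ z where
  inj := h.inj
  mem := h.mem
  glue := by
    intro x hx hgx
    have h4 := h.glue x hx hgx
    have h5 : g (ψ x.1, x.2) ≠ (ψ x.1, x.2) := by
      rw [h4]
      intro h6
      have h7 : (gD R x).2 = x.2.opp := Surf.straight_glue disl (Bx R) x hgx
      have h8 : (gD R x).2 = x.2 := (Prod.mk.inj h6).2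
      rw [h7] at h8
      exact Dir.opp_ne _ h8
    rw [hw _ h5, h4]
  centre := h.centre
  fix := hz

/-- a path from the image of the box of size `r` to the outside of the image of the box of size `R - 1`,
along drawn diagonals of tiles which are not visited by the strand of `z` -/
def ArmC [DecidableEq τ] (g w : Half τ → Half τ) (z : Half τ) (ψ : ℤ × ℤ → τ) (R r : ℤ) (ω : Finset τ) : Prop :=
  ∃ (x : Half (ℤ × ℤ)) (y : Half τ), x.1 ∈ Bx r ∧ (∀ t ∈ Bx (R - 1), ψ t ≠ y.1) ∧
    ReflTransGen (CStep g ω (fun t => ∀ d, ¬ Conn (mate ω) w z (t, d))) (ψ x.1, x.2) y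

section chart
variable [DecidableEq τ] {T : Finset τ} {g w : Half τ → Half τ} (hG : Glu T g) {R r : ℤ}
  {ψ : ℤ × ℤ → τ} {z : Half τ} (hψ : ChartD T g R ψ z) (hw : ∀ x, g x ≠ x → w x = g x)
include hG hψ hw

omit hG in
theorem conn_chart (hR : 1 ≤ R) {ω : Finset τ} {x : Half (ℤ × ℤ)}
    (hc : Conn (mate ((Bx R).filter (fun t => ψ t ∈ ω))) (gD R) z0 x) :
    Conn (mate ω) w z (ψ x.1, x.2) := by
  have hz : z0.1 ∈ Bx R := by unfold z0; rw [mem_Bx]; simp only; omega
  induction hc with
  | refl =>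
    rw [hψ.centre]
    exact Conn.refl _
  | @tail b c hb h2 ih =>
    have hbR : b.1 ∈ Bx R := (glu_gD R).conn_mem hb hz
    rcases h2 with rfl | rfl
    · have e : mate ω (ψ b.1, b.2) = (ψ (mate ((Bx R).filter (fun t => ψ t ∈ ω)) b).1,
          (mate ((Bx R).filter (fun t => ψ t ∈ ω)) b).2) := by
        unfold mate
        simp only [mem_filter, hbR, true_and]
      rw [← e]
      exact ih.trans (Conn.m_step _)
    · by_cases h3 : gD R b = b
      · rw [h3]; exact ih
      · have h4 := hψ.glue b hbR h3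
        have h5 : g (ψ b.1, b.2) ≠ (ψ b.1, b.2) := by
          rw [h4]
          intro h6
          have h7 : (gD R b).2 = b.2.opp := Surf.straight_glue disl (Bx R) b h3
          have h8 : (gD R b).2 = b.2 := (Prod.mk.inj h6).2
          rw [h7] at h8
          exact Dir.opp_ne _ h8
        rw [← h4, ← hw _ h5]
        exact ih.trans (Conn.g_step _)

theorem armD_of_armC (hR : 1 ≤ R) {ω : Finset τ} (h : ArmC g w z ψ R r ω) :
    ArmD R r (Bx R \ vis (Bx R) (gD R) z0 ((Bx R).filter (fun t => ψ t ∈ ω)))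
      ((Bx R).filter (fun t => ψ t ∈ ω)) := by
  obtain ⟨x0, y, h1, h2, h3⟩ := h
  set ω' := (Bx R).filter (fun t => ψ t ∈ ω) with hω'
  set G := Bx R \ vis (Bx R) (gD R) z0 ω' with hGdef
  by_contra hA
  -- a chart point which is reached is inner
  have hin : ∀ y' : Half (ℤ × ℤ), ReflTransGen (CStep (gD R) ω' (· ∈ G)) x0 y' → y'.1 ∈ Bx (R - 1) := by
    intro y' hy'
    by_contra h4
    exact hA ⟨x0, y', h1, h4, hy'⟩
  -- inner half edges are glued as in the chart
  have hgl : ∀ u : Half (ℤ × ℤ), u.1 ∈ Bx (R - 1) → g (ψ u.1, u.2) ≠ (ψ u.1, u.2) →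
      gD R u ≠ u ∧ g (ψ u.1, u.2) = (ψ (gD R u).1, (gD R u).2) := by
    intro u hu hgu
    have h4 : gD R u ≠ u := by
      intro h5
      have h6 := gD_inner hu h5
      subst h6
      have h7 := hψ.fix
      rw [hψ.centre] at h7
      exact hgu h7
    exact ⟨h4, hψ.glue u (Bx_mono (by omega) hu) h4⟩
  have key : ∀ y, ReflTransGen (CStep g ω (fun t => ∀ d, ¬ Conn (mate ω) w z (t, d))) (ψ x0.1, x0.2) y →
      ∃ y' : Half (ℤ × ℤ), y = (ψ y'.1, y'.2) ∧ ReflTransGen (CStep (gD R) ω' (· ∈ G)) x0 y' := by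
    intro y hy
    induction hy with
    | refl => exact ⟨x0, rfl, ReflTransGen.refl⟩
    | @tail b c _ hbc ih =>
      obtain ⟨b', rfl, hb'⟩ := ih
      have hbin := hin b' hb'
      rcases hbc with ⟨h4, h5⟩ | ⟨h4, h5⟩ | ⟨h4, h5, h6⟩
      · obtain ⟨h6, h7⟩ := hgl b' hbin h4
        refine ⟨rot (gD R) b', ?_, hb'.tail (Or.inl ⟨h6, rfl⟩)⟩
        rw [h5]
        unfold rot
        rw [h7]
        rfl
      · -- `u' = rho⁻¹ b'`
        set u' : Half (ℤ × ℤ) := (b'.1, b'.2.cw) with hu'
        have h6 : g c = (ψ u'.1, u'.2) := by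
          apply rho_inj
          show rot g c = _
          rw [← h5]
          unfold rho
          simp only [hu', Dir.ccw_cw]
        have h7 : c = g (ψ u'.1, u'.2) := by rw [← h6, hG.inv]
        have h8 : g (ψ u'.1, u'.2) ≠ (ψ u'.1, u'.2) := by
          rw [← h7, ← h6]
          exact h4.symm
        obtain ⟨h9, h10⟩ := hgl u' hbin h8
        refine ⟨gD R u', h7.trans h10, hb'.tail (Or.inr (Or.inl ⟨?_, ?_⟩))⟩
        · rw [(glu_gD R).inv]; exact h9.symm
        · unfold rot
          rw [(glu_gD R).inv]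
          unfold rho
          simp only [hu', Dir.ccw_cw]
      · have hbR : b'.1 ∈ Bx R := Bx_mono (by omega) hbin
        refine ⟨(b'.1, b'.2.opp), h6, hb'.tail (Or.inr (Or.inr ⟨?_, ?_, rfl⟩))⟩
        · show b'.1 ∈ G
          rw [hGdef, mem_sdiff, mem_vis]
          refine ⟨hbR, ?_⟩
          rintro ⟨_, d, h7⟩
          exact h4 d (conn_chart hψ hw hR h7)
        · rw [hω', mem_filter]
          simp only [hbR, true_and]
          exact h5
  obtain ⟨y', h4, h5⟩ := key y h3
  exact h2 y'.1 (hin y' h5) (by rw [h4])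

end chart

/-- **(EQ)** in a region: the probability of an arm from the box of size `r` to the boundary of the box of
size `R` around `z`, along drawn diagonals of tiles which are not visited by the strand of `z` -/
theorem armC_le : ∃ C c : ℝ, 1 ≤ C ∧ 0 < c ∧ ∀ {τ : Type} [DecidableEq τ] {T : Finset τ}
    {g w : Half τ → Half τ} (_ : Glu T g) {R r : ℤ} {ψ : ℤ × ℤ → τ} {z : Half τ}
    (_ : ChartD T g R ψ z) (_ : ∀ x, g x ≠ x → w x = g x) (_ : 1 ≤ r) (_ : r ≤ R),
    P T (ArmC g w z ψ R r) ≤ C * ((r : ℝ) / R) ^ c := by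
  obtain ⟨C, c, hC, hc, h⟩ := arm_dislocated
  refine ⟨C, c, hC, hc, ?_⟩
  intro τ _ T g w hG R r ψ z hψ hw hr hrR
  have e := P_pull hψ.inj hψ.mem (fun ω => ArmD R r (Bx R \ vis (Bx R) (gD R) z0 ω) ω)
  calc P T (ArmC g w z ψ R r)
      ≤ P T (fun ω => ArmD R r (Bx R \ vis (Bx R) (gD R) z0 ((Bx R).filter (fun t => ψ t ∈ ω)))
          ((Bx R).filter (fun t => ψ t ∈ ω))) :=
        P_mono fun ω _ hA => armD_of_armC hG hψ hw (by omega) hA
    _ = P (Bx R) (fun ω => ArmD R r (Bx R \ vis (Bx R) (gD R) z0 ω) ω) := e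
    _ ≤ C * ((r : ℝ) / R) ^ c := h R r hr (by omega)

/-- the same with the rotation of the closed walls `w` -/
theorem armC_wall_le : ∃ C c : ℝ, 1 ≤ C ∧ 0 < c ∧ ∀ {τ : Type} [DecidableEq τ] {T : Finset τ}
    {g w : Half τ → Half τ} (_ : Glu T w) {R r : ℤ} {ψ : ℤ × ℤ → τ} {z : Half τ}
    (_ : ChartD T g R ψ z) (_ : ∀ x, g x ≠ x → w x = g x) (_ : w z = z) (_ : 1 ≤ r) (_ : r ≤ R),
    P T (ArmC w w z ψ R r) ≤ C * ((r : ℝ) / R) ^ c := by
  obtain ⟨C, c, hC, hc, h⟩ := armC_le
  refine ⟨C, c, hC, hc, ?_⟩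
  intro τ _ T g w hW R r ψ z hψ hw hz hr hrR
  exact h hW (hψ.wall hw hz) (fun _ _ => rfl) hr hrR

end Full.Loc
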