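import Pool.Agent.Full.Loc.WallT

/-!
# Transport of closed walls when the boundary passes through the window

`Same T g B T' g' B' φ` for the open domains; the boundary passes once through the windows: `BdRun`: after
`p` it has `m` half edges in `B` and `m'` half edges in `B'`.  No end of the first domain is in this run,
exactly one end of the second domain is, and `m + m'` is odd.  Then the domains with the closed walls are
again the same (`Same.wall_run`).
-/

set_option autoImplicit false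

namespace Full.Loc
open Function Relation Build

/-! ### steps to the next end -/

section ret
variable {α : Type*} {ν : α → α} {E : Set α}

lemma ret_add {x : α} (h : ∃ k, 1 ≤ k ∧ ν^[k] x ∈ E) (m : ℕ) (hm : ∀ i, 1 ≤ i → i ≤ m → ν^[i] x ∉ E) :
    (∃ k, 1 ≤ k ∧ ν^[k] (ν^[m] x) ∈ E) ∧ ret ν E x = ret ν E (ν^[m] x) + m := by
  induction m with
  | zero => exact ⟨h, rfl⟩
  | succ m ih =>
    obtain ⟨⟨k, hk, h1⟩, h2⟩ := ih fun i hi hi' => hm i hi (by omega)
    have h3 := hm (m + 1) (by omega) le_rfl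
    rw [iterate_succ_apply'] at h3
    have hk2 : k ≠ 1 := by
      rintro rfl
      exact h3 h1
    rw [iterate_succ_apply']
    refine ⟨⟨k - 1, by omega, ?_⟩, ?_⟩
    · rw [← iterate_succ_apply, show (k - 1).succ = k by omega]
      exact h1
    · rw [h2, ret_succ ⟨k, hk, h1⟩ h3]
      omega

lemma ret_run {x : α} {a : ℕ} (ha : 1 ≤ a) (h1 : ν^[a] x ∈ E) (h : ∀ i, 1 ≤ i → i < a → ν^[i] x ∉ E) :
    ret ν E x = a := ret_eq ha h1 h

end ret

variable {τ σ : Type*} [DecidableEq τ] [DecidableEq σ]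
variable {T : Finset τ} {g : Half τ → Half τ} {B : Finset τ} {T' : Finset σ}
  {g' : Half σ → Half σ} {B' : Finset σ} {φ : τ → σ}

/-- the boundary passes once through the windows -/
structure BdRun (T : Finset τ) (g : Half τ → Half τ) (B : Finset τ) (g' : Half σ → Half σ)
    (B' : Finset σ) (φ : τ → σ) (z p : Half τ) (m m' : ℕ) : Prop where
  nxt : ∀ y, Bd T g y → y.1 ∉ B → (next g y).1 ∉ B → next g' (hmap φ y) = hmap φ (next g y)
  zz : Bd T g z
  z_next : next g z = z
  p_bd : Bd T g p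
  p_out : p.1 ∉ B
  pos : 1 ≤ m'
  ins : ∀ i, 1 ≤ i → i ≤ m → ((next g)^[i] p).1 ∈ B
  only : ∀ y, Bd T g y → y.1 ∈ B → y = z ∨ ∃ i, 1 ≤ i ∧ i ≤ m ∧ (next g)^[i] p = y
  out : ((next g)^[m + 1] p).1 ∉ B
  ins' : ∀ i, 1 ≤ i → i ≤ m' → ((next g')^[i] (hmap φ p)).1 ∈ B'
  exit : (next g')^[m' + 1] (hmap φ p) = hmap φ ((next g)^[m + 1] p)

namespace BdRun
variable {z p : Half τ} {m m' : ℕ} (hR : BdRun T g B g' B' φ z p m m')
include hR

lemma entrance (hG : Glu T g) {y : Half τ} (hy : Bd T g y) (hyB : y.1 ∉ B) (h : (next g y).1 ∈ B) :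
    y = p := by
  rcases hR.only _ (hG.next_bd hy) h with h1 | ⟨i, hi, hi', h1⟩
  · exfalso
    have h2 := hG.next_inj hy.2 hR.zz.2 (h1.trans hR.z_next.symm)
    rw [h1, ← h2] at h
    exact hyB h
  · obtain ⟨j, rfl⟩ : ∃ j, i = j + 1 := ⟨i - 1, by omega⟩
    rw [iterate_succ_apply'] at h1
    have h2 := hG.next_inj (hG.bd_iter hR.p_bd j).2 hy.2 h1
    by_cases hj : j = 0
    · subst hj
      exact h2.symm
    · exfalso
      rw [← h2] at hyB
      exact hyB (hR.ins j (by omega) (by omega))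

lemma exit_eq {y : Half τ} (hy : Bd T g y) (hyB : y.1 ∈ B) (h : (next g y).1 ∉ B) :
    y = (next g)^[m] p := by
  rcases hR.only _ hy hyB with h1 | ⟨i, hi, hi', h1⟩
  · exfalso
    rw [h1, hR.z_next, ← h1] at h
    exact h hyB
  · by_cases him : i = m
    · rw [← h1, him]
    · exfalso
      rw [← h1, ← iterate_succ_apply' (next g)] at h
      exact h (hR.ins (i + 1) (by omega) (by omega))

variable {E : Set (Half τ)} {E' : Set (Half σ)}

/-- the parity of the number of steps to the next end -/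
theorem ret_even (hG : Glu T g) (hG' : Glu T' g') (h : Same T g B T' g' B' φ) (hmm : Odd (m + m'))
    (hM : Meets T g E) (hM' : Meets T' g' E')
    (hE : ∀ i, 1 ≤ i → i ≤ m → (next g)^[i] p ∉ E) {a : ℕ} (ha : 1 ≤ a) (ha' : a ≤ m')
    (hE' : ∀ i, 1 ≤ i → i ≤ m' → ((next g')^[i] (hmap φ p) ∈ E' ↔ i = a))
    (hEE : ∀ y, Bd T g y → y.1 ∉ B → (y ∈ E ↔ hmap φ y ∈ E'))
    (hodd : ∀ e, Bd T' g' e → e ∈ E' → Odd (ret (next g') E' e)) :
    ∀ (n : ℕ) (y : Half τ), Bd T g y → y.1 ∉ B → ret (next g) E y = n →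
      (Even n ↔ Even (ret (next g') E' (hmap φ y))) := by
  have hbd : ∀ y, Bd T g y → y.1 ∉ B → Bd T' g' (hmap φ y) := fun y hy hyB =>
    (h.bd_iff hG (Finset.mem_sdiff.2 ⟨hy.1, hyB⟩)).2 hy
  intro n
  induction n using Nat.strong_induction_on with
  | _ n ih =>
    intro y hy hyB hn
    by_cases hc : (next g y).1 ∈ B
    · -- through the window
      obtain rfl := hR.entrance hG hy hyB hc
      have hp' := hbd y hy hyB
      obtain ⟨k1, k2⟩ := ret_add (hM y hy) m hE
      have h1 : ret (next g') E' (hmap φ y) = a :=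
        ret_run ha ((hE' a ha ha').2 rfl) fun i hi hi' h2 => by
          have := (hE' i hi (by omega)).1 h2
          omega
      set e := (next g')^[a] (hmap φ y) with he
      have heB : Bd T' g' e := hG'.bd_iter hp' a
      have h2 := hodd e heB ((hE' a ha ha').2 rfl)
      obtain ⟨k3, k4⟩ := ret_add (hM' e heB) (m' - a) (fun i hi hi' h3 => by
        rw [he, ← iterate_add_apply] at h3
        have := (hE' (i + a) (by omega) (by omega)).1 h3
        omega)
      have h3 : (next g')^[m' - a] e = (next g')^[m'] (hmap φ y) := by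
        rw [he, ← iterate_add_apply, show m' - a + a = m' by omega]
      rw [h3] at k3 k4
      have h4 := hR.exit
      rw [iterate_succ_apply', iterate_succ_apply'] at h4
      have hoB := hR.out
      rw [iterate_succ_apply'] at hoB
      set q := (next g)^[m] y with hq
      set q' := (next g')^[m'] (hmap φ y) with hq'
      have hqb : Bd T g (next g q) := hG.next_bd (hG.bd_iter hy m)
      -- the parities at the last half edges of the runs agree
      have h5 : Even (ret (next g) E q) ↔ Even (ret (next g') E' q') := by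
        by_cases h6 : next g q ∈ E
        · have h7 : next g' q' ∈ E' := by
            rw [h4]
            exact (hEE _ hqb hoB).1 h6
          rw [ret_one h6, ret_one h7]
        · have h7 : next g' q' ∉ E' := by
            rw [h4]
            exact fun h8 => h6 ((hEE _ hqb hoB).2 h8)
          have h8 := ret_succ k1 h6
          rw [ret_succ k3 h7, h8, h4, Nat.even_add_one, Nat.even_add_one]
          refine not_congr (ih _ ?_ _ hqb hoB rfl)
          omega
      rw [h1]
      rw [k4] at h2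
      rw [← hn, k2]
      rw [Nat.odd_iff] at h2 hmm
      rw [Nat.even_iff, Nat.even_iff] at h5
      rw [Nat.even_iff, Nat.even_iff]
      constructor
      · intro h6
        by_cases h7 : ret (next g) E q % 2 = 0
        · have := h5.1 h7
          omega
        · have : ¬ ret (next g') E' q' % 2 = 0 := fun h8 => h7 (h5.2 h8)
          omega
      · intro h6
        by_cases h7 : ret (next g') E' q' % 2 = 0
        · have := h5.2 h7
          omega
        · have : ¬ ret (next g) E q % 2 = 0 := fun h8 => h7 (h5.1 h8)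
          omega
    · have h1 := hR.nxt y hy hyB hc
      have hy2 := hG.next_bd hy
      by_cases h2 : next g y ∈ E
      · have h3 : next g' (hmap φ y) ∈ E' := by
          rw [h1]
          exact (hEE _ hy2 hc).1 h2
        rw [← hn, ret_one h2, ret_one h3]
      · have h3 : next g' (hmap φ y) ∉ E' := by
          rw [h1]
          exact fun h8 => h2 ((hEE _ hy2 hc).2 h8)
        have h4 := ret_succ (hM y hy) h2
        rw [ret_succ (hM' _ (hbd y hy hyB)) h3, ← hn, h4, h1, Nat.even_add_one, Nat.even_add_one]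
        exact not_congr (ih _ (by omega) _ hy2 hc rfl)

end BdRun

/-- **transport of the closed walls through a run of the boundary** -/
theorem Same.wall_run (h : Same T g B T' g' B' φ) (hG : Glu T g) (hG' : Glu T' g') {z p : Half τ}
    {m m' : ℕ} (hR : BdRun T g B g' B' φ z p m m') (hmm : Odd (m + m')) {E : Set (Half τ)}
    {E' : Set (Half σ)} (hM : Meets T g E) (hM' : Meets T' g' E')
    (hE : ∀ i, 1 ≤ i → i ≤ m → (next g)^[i] p ∉ E) {a : ℕ} (ha : 1 ≤ a) (ha' : a ≤ m')
    (hE' : ∀ i, 1 ≤ i → i ≤ m' → ((next g')^[i] (hmap φ p) ∈ E' ↔ i = a))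
    (hEE : ∀ y, Bd T g y → y.1 ∉ B → (y ∈ E ↔ hmap φ y ∈ E')) {w : Half τ → Half τ}
    {w' : Half σ → Half σ} (hw : IsW T g E w) (hw' : IsW T' g' E' w') : Same T w B T' w' B' φ := by
  have hbd : ∀ y, Bd T g y → y.1 ∉ B → Bd T' g' (hmap φ y) := fun y hy hyB =>
    (h.bd_iff hG (Finset.mem_sdiff.2 ⟨hy.1, hyB⟩)).2 hy
  have key := hR.ret_even hG hG' h hmm hM hM' hE ha ha' hE' hEE fun e he heE =>
    hw'.odd hG' hM' he heE
  have hno : ∀ x, x.1 ∈ T \ B → g x ≠ x → w x = g x ∧ w' (hmap φ x) = g' (hmap φ x) := by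
    intro x hx hgx
    exact ⟨hw.ext x hgx, hw'.ext _ fun h1 => hgx ((h.fix_iff hG hx).1 h1)⟩
  -- the four cases
  have hcase : ∀ x, x.1 ∈ T \ B → g x = x →
      ((w x).1 ∉ B → w' (hmap φ x) = hmap φ (w x)) ∧ ((w x).1 ∈ B → (w' (hmap φ x)).1 ∈ B') := by
    intro x hx hgx
    have hxb : Bd T g x := ⟨(Finset.mem_sdiff.1 hx).1, hgx⟩
    have hxB := (Finset.mem_sdiff.1 hx).2
    have hxb' := hbd x hxb hxB
    by_cases hxE : x ∈ E
    · have h1 : w x = x := (hw.ends x hxb).2 hxE
      have h2 : w' (hmap φ x) = hmap φ x := (hw'.ends _ hxb').2 ((hEE x hxb hxB).1 hxE)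
      rw [h1]
      exact ⟨fun _ => h2, fun h3 => absurd h3 hxB⟩
    · have hxE' : hmap φ x ∉ E' := fun h1 => hxE ((hEE x hxb hxB).2 h1)
      have hkey := key _ x hxb hxB rfl
      by_cases hev : Even (ret (next g) E x)
      · have h1 := hw.eq_next hG hM hxb hxE hev
        have h2 := hw'.eq_next hG' hM' hxb' hxE' (hkey.1 hev)
        rw [h1, h2]
        refine ⟨fun h3 => hR.nxt x hxb hxB h3, fun h3 => ?_⟩
        have h4 := hR.entrance hG hxb hxB h3
        rw [h4]
        exact hR.ins' 1 le_rfl hR.pos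
      · have h1 := hw.eq_prev hG hM hxb hxE hev
        have h2 := hw'.eq_prev hG' hM' hxb' hxE' fun h3 => hev (hkey.2 h3)
        have hwb : Bd T g (w x) := hw.toExt.bd hG hxb
        have hwb' : Bd T' g' (w' (hmap φ x)) := hw'.toExt.bd hG' hxb'
        constructor
        · intro h3
          refine hG'.next_inj hwb'.2 (hbd _ hwb h3).2 ?_
          rw [hR.nxt _ hwb h3 (by rw [h1]; exact hxB), h2, h1]
        · intro h3
          have h4 := hR.exit_eq hwb h3 (by rw [h1]; exact hxB)
          have h5 := hR.exit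
          rw [iterate_succ_apply' (next g), ← h4, h1, ← h2, iterate_succ_apply'] at h5
          have h6 := hG'.next_inj (hG'.bd_iter (hbd p hR.p_bd hR.p_out) m').2 hwb'.2 h5
          rw [← h6]
          exact hR.ins' m' hR.pos le_rfl
  refine ⟨h.sub, h.sub', h.inj, h.img, fun x hx hwx => ?_, fun x hx hwx => ?_⟩
  · by_cases hgx : g x = x
    · exact (hcase x hx hgx).1 (Finset.mem_sdiff.1 hwx).2
    · obtain ⟨h1, h2⟩ := hno x hx hgx
      rw [h1] at hwx ⊢
      rw [h2]
      exact h.glue x hx hwx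
  · by_cases hgx : g x = x
    · exact (hcase x hx hgx).2 hwx
    · obtain ⟨h1, h2⟩ := hno x hx hgx
      rw [h1] at hwx
      rw [h2]
      exact h.inner x hx hwx

/-! ### every boundary half edge meets the ends -/

namespace BdRun
variable {z p : Half τ} {m m' : ℕ} (hR : BdRun T g B g' B' φ z p m m')
include hR

/-- a way along the boundary of the second domain gives a way along the boundary of the first one -/
theorem reach (hG : Glu T g) (h : Same T g B T' g' B' φ) {e : Half τ} (he : e.1 ∈ T \ B) :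
    ∀ (n : ℕ) (y : Half τ), Bd T g y → y.1 ∉ B → (next g')^[n] (hmap φ y) = hmap φ e →
      ∃ k, (next g)^[k] y = e := by
  intro n
  induction n using Nat.strong_induction_on with
  | _ n ih =>
    intro y hy hyB hn
    rcases Nat.eq_zero_or_pos n with rfl | hn0
    · exact ⟨0, h.hmap_inj (Finset.mem_sdiff.2 ⟨hy.1, hyB⟩) he hn⟩
    · by_cases hc : (next g y).1 ∈ B
      · obtain rfl := hR.entrance hG hy hyB hc
        have h1 : m' + 1 ≤ n := by
          by_contra h2
          have h3 := hR.ins' n hn0 (by omega)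
          rw [hn] at h3
          exact (Finset.mem_sdiff.1 (h.mem' he)).2 h3
        have h2 := hR.exit
        obtain ⟨j, rfl⟩ : ∃ j, n = j + (m' + 1) := ⟨n - (m' + 1), by omega⟩
        rw [iterate_add_apply, h2] at hn
        obtain ⟨k, hk⟩ := ih j (by omega) _ (hG.bd_iter hy (m + 1)) hR.out hn
        exact ⟨k + (m + 1), by rw [iterate_add_apply]; exact hk⟩
      · obtain ⟨j, rfl⟩ : ∃ j, n = j + 1 := ⟨n - 1, by omega⟩
        rw [iterate_succ_apply, hR.nxt y hy hyB hc] at hn
        obtain ⟨k, hk⟩ := ih j (by omega) _ (hG.next_bd hy) hc hn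
        exact ⟨k + 1, by rw [iterate_succ_apply]; exact hk⟩

/-- if the boundary of the second domain is one cycle, every boundary half edge of the first one meets
the ends -/
theorem meets (hG : Glu T g) (h : Same T g B T' g' B' φ) {E : Set (Half τ)} (hz : z ∈ E)
    (hcyc : ∀ u v, Bd T' g' u → Bd T' g' v → ∃ k, (next g')^[k] u = v) {e : Half τ} (he : Bd T g e)
    (heB : e.1 ∉ B) (heE : e ∈ E) : Meets T g E := by
  have hbd : ∀ y, Bd T g y → y.1 ∉ B → Bd T' g' (hmap φ y) := fun y hy hyB =>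
    (h.bd_iff hG (Finset.mem_sdiff.2 ⟨hy.1, hyB⟩)).2 hy
  intro y hy
  by_cases hyz : y = z
  · exact ⟨1, le_rfl, by rw [hyz]; exact (congrArg (· ∈ E) hR.z_next).mpr hz⟩
  · obtain ⟨j, hj, h1⟩ : ∃ j, 1 ≤ j ∧ ((next g)^[j] y).1 ∉ B := by
      by_cases hyB : y.1 ∈ B
      · rcases hR.only y hy hyB with h1 | ⟨i, hi, hi', h1⟩
        · exact absurd h1 hyz
        · refine ⟨m + 1 - i, by omega, ?_⟩
          rw [← h1, ← iterate_add_apply, show m + 1 - i + i = m + 1 by omega]
          exact hR.out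
      · by_cases hc : (next g y).1 ∈ B
        · obtain rfl := hR.entrance hG hy hyB hc
          exact ⟨m + 1, by omega, hR.out⟩
        · exact ⟨1, le_rfl, hc⟩
    have h2 := hG.bd_iter hy j
    obtain ⟨n, hn⟩ := hcyc _ _ (hbd _ h2 h1) (hbd e he heB)
    obtain ⟨k, hk⟩ := hR.reach hG h (Finset.mem_sdiff.2 ⟨he.1, heB⟩) n _ h2 h1 hn
    exact ⟨k + j, by omega, by rw [iterate_add_apply, hk]; exact heE⟩

end BdRun

/-! ### existence of the closed walls -/

namespace BdRun
variable {z p : Half τ} {m m' : ℕ} (hR : BdRun T g B g' B' φ z p m m')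
  {E : Set (Half τ)} {E' : Set (Half σ)}
include hR

/-- the parities of the numbers of steps agree if they agree at the entrance of the window -/
theorem ret_even_of (hG : Glu T g) (h : Same T g B T' g' B' φ) (hM : Meets T g E)
    (hM' : Meets T' g' E') {a : ℕ} (ha : 1 ≤ a) (ha' : a ≤ m')
    (hE' : ∀ i, 1 ≤ i → i ≤ m' → ((next g')^[i] (hmap φ p) ∈ E' ↔ i = a))
    (hEE : ∀ y, Bd T g y → y.1 ∉ B → (y ∈ E ↔ hmap φ y ∈ E'))
    (hpar : Even (ret (next g) E p) ↔ Even a) :
    ∀ (n : ℕ) (y : Half τ), Bd T g y → y.1 ∉ B → ret (next g) E y = n →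
      (Even n ↔ Even (ret (next g') E' (hmap φ y))) := by
  have hbd : ∀ y, Bd T g y → y.1 ∉ B → Bd T' g' (hmap φ y) := fun y hy hyB =>
    (h.bd_iff hG (Finset.mem_sdiff.2 ⟨hy.1, hyB⟩)).2 hy
  intro n
  induction n using Nat.strong_induction_on with
  | _ n ih =>
    intro y hy hyB hn
    by_cases hc : (next g y).1 ∈ B
    · obtain rfl := hR.entrance hG hy hyB hc
      have h1 : ret (next g') E' (hmap φ y) = a :=
        ret_run ha ((hE' a ha ha').2 rfl) fun i hi hi' h2 => by
          have := (hE' i hi (by omega)).1 h2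
          omega
      rw [h1, ← hn]
      exact hpar
    · have h1 := hR.nxt y hy hyB hc
      have hy2 := hG.next_bd hy
      by_cases h2 : next g y ∈ E
      · have h3 : next g' (hmap φ y) ∈ E' := by
          rw [h1]
          exact (hEE _ hy2 hc).1 h2
        rw [← hn, ret_one h2, ret_one h3]
      · have h3 : next g' (hmap φ y) ∉ E' := by
          rw [h1]
          exact fun h8 => h2 ((hEE _ hy2 hc).2 h8)
        have h4 := ret_succ (hM y hy) h2
        rw [ret_succ (hM' _ (hbd y hy hyB)) h3, ← hn, h4, h1, Nat.even_add_one, Nat.even_add_one]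
        exact not_congr (ih _ (by omega) _ hy2 hc rfl)

end BdRun

/-- **existence, forward**: the end `e3` in the run has to be chosen with the right parity -/
theorem Same.exists_wall (h : Same T g B T' g' B' φ) (hG : Glu T g) (hG' : Glu T' g') {z p : Half τ}
    {m m' : ℕ} (hR : BdRun T g B g' B' φ z p m m') (hmm : Odd (m + m')) {E : Set (Half τ)}
    {E' : Set (Half σ)} (hM : Meets T g E) (hM' : Meets T' g' E')
    (hE : ∀ i, 1 ≤ i → i ≤ m → (next g)^[i] p ∉ E) {a : ℕ} (ha : 1 ≤ a) (ha' : a ≤ m')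
    (hE' : ∀ i, 1 ≤ i → i ≤ m' → ((next g')^[i] (hmap φ p) ∈ E' ↔ i = a))
    (hEE : ∀ y, Bd T g y → y.1 ∉ B → (y ∈ E ↔ hmap φ y ∈ E'))
    (hEB' : ∀ e, Bd T' g' e → e ∈ E' → e.1 ∈ B' → e = (next g')^[a] (hmap φ p))
    (hpar : Even (ret (next g) E p) ↔ Even a) {w : Half τ → Half τ} (hw : IsW T g E w) :
    ∃ w', IsW T' g' E' w' := by
  rw [hG'.exists_isW_iff hM']
  have hbd : ∀ y, Bd T g y → y.1 ∉ B → Bd T' g' (hmap φ y) := fun y hy hyB =>
    (h.bd_iff hG (Finset.mem_sdiff.2 ⟨hy.1, hyB⟩)).2 hy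
  have key := hR.ret_even_of hG h hM hM' ha ha' hE' hEE hpar
  intro e he heE
  by_cases heB : e.1 ∈ B'
  · obtain rfl := hEB' e he heE heB
    have hp' := hbd p hR.p_bd hR.p_out
    obtain ⟨k1, k2⟩ := ret_add (hM p hR.p_bd) m hE
    set e := (next g')^[a] (hmap φ p) with hee
    obtain ⟨k3, k4⟩ := ret_add (hM' e he) (m' - a) (fun i hi hi' h3 => by
      rw [hee, ← iterate_add_apply] at h3
      have := (hE' (i + a) (by omega) (by omega)).1 h3
      omega)
    have h3 : (next g')^[m' - a] e = (next g')^[m'] (hmap φ p) := by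
      rw [hee, ← iterate_add_apply, show m' - a + a = m' by omega]
    rw [h3] at k3 k4
    have h4 := hR.exit
    rw [iterate_succ_apply', iterate_succ_apply'] at h4
    have hoB := hR.out
    rw [iterate_succ_apply'] at hoB
    set q := (next g)^[m] p with hq
    set q' := (next g')^[m'] (hmap φ p) with hq'
    have hqb : Bd T g (next g q) := hG.next_bd (hG.bd_iter hR.p_bd m)
    have h5 : Even (ret (next g) E q) ↔ Even (ret (next g') E' q') := by
      by_cases h6 : next g q ∈ E
      · have h7 : next g' q' ∈ E' := by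
          rw [h4]
          exact (hEE _ hqb hoB).1 h6
        rw [ret_one h6, ret_one h7]
      · have h7 : next g' q' ∉ E' := by
          rw [h4]
          exact fun h8 => h6 ((hEE _ hqb hoB).2 h8)
        rw [ret_succ k3 h7, ret_succ k1 h6, h4, Nat.even_add_one, Nat.even_add_one]
        exact not_congr (key _ _ hqb hoB rfl)
    rw [k4, Nat.odd_iff]
    rw [k2] at hpar
    rw [Nat.odd_iff] at hmm
    rw [Nat.even_iff, Nat.even_iff] at h5 hpar
    by_cases h6 : a % 2 = 0
    · have h7 := hpar.2 h6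
      by_cases h8 : ret (next g) E q % 2 = 0
      · have := h5.1 h8
        omega
      · have : ¬ ret (next g') E' q' % 2 = 0 := fun h9 => h8 (h5.2 h9)
        omega
    · have h7 : ¬ (ret (next g) E q + m) % 2 = 0 := fun h9 => h6 (hpar.1 h9)
      by_cases h8 : ret (next g) E q % 2 = 0
      · have := h5.1 h8
        omega
      · have : ¬ ret (next g') E' q' % 2 = 0 := fun h9 => h8 (h5.2 h9)
        omega
  · obtain ⟨x, hx, rfl⟩ := h.exists_pre (Finset.mem_sdiff.2 ⟨he.1, heB⟩)
    have hxb := (h.bd_iff hG hx).1 he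
    have hxB := (Finset.mem_sdiff.1 hx).2
    have h1 := hw.odd hG hM hxb ((hEE x hxb hxB).2 heE)
    rw [← Nat.not_even_iff_odd] at h1 ⊢
    exact fun h2 => h1 ((key _ x hxb hxB rfl).2 h2)

/-- **existence, backward** -/
theorem Same.exists_wall' (h : Same T g B T' g' B' φ) (hG : Glu T g) (hG' : Glu T' g') {z p : Half τ}
    {m m' : ℕ} (hR : BdRun T g B g' B' φ z p m m') (hmm : Odd (m + m')) {E : Set (Half τ)}
    {E' : Set (Half σ)} (hM : Meets T g E) (hM' : Meets T' g' E')
    (hE : ∀ i, 1 ≤ i → i ≤ m → (next g)^[i] p ∉ E) {a : ℕ} (ha : 1 ≤ a) (ha' : a ≤ m')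
    (hE' : ∀ i, 1 ≤ i → i ≤ m' → ((next g')^[i] (hmap φ p) ∈ E' ↔ i = a))
    (hEE : ∀ y, Bd T g y → y.1 ∉ B → (y ∈ E ↔ hmap φ y ∈ E')) (hz : z ∈ E)
    {w' : Half σ → Half σ} (hw' : IsW T' g' E' w') : ∃ w, IsW T g E w := by
  rw [hG.exists_isW_iff hM]
  have hbd : ∀ y, Bd T g y → y.1 ∉ B → Bd T' g' (hmap φ y) := fun y hy hyB =>
    (h.bd_iff hG (Finset.mem_sdiff.2 ⟨hy.1, hyB⟩)).2 hy
  have key := hR.ret_even hG hG' h hmm hM hM' hE ha ha' hE' hEE fun e he heE =>
    hw'.odd hG' hM' he heE
  intro e he heE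
  by_cases heB : e.1 ∈ B
  · rcases hR.only e he heB with h1 | ⟨i, hi, hi', h1⟩
    · rw [h1, ret_one (by rw [hR.z_next]; exact hz)]
      exact odd_one
    · exfalso
      rw [← h1] at heE
      exact hE i hi hi' heE
  · have h1 := hw'.odd hG' hM' (hbd e he heB) ((hEE e he heB).1 heE)
    rw [← Nat.not_even_iff_odd] at h1 ⊢
    exact fun h2 => h1 ((key _ e he heB rfl).1 h2)

end Full.Loc
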