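import Pool.Agent.Full.P5.Core
import Pool.Agent.Full.Loc.Trans
import Pool.Agent.Full.Loc.Chart

/-!
# Two regions which are the same outside `B`, `B'`: the laws of the exits

`Same.link` is the local change lemma `Full.P5.lc` for a `Same` pair; `Same.P_le` is the coupling of the
configurations; `Same.pair_le` bounds the difference of the laws of the exits by the probability of a path
of colour 1 from a mark to `B`; `armC_of_arm1` is this path in a chart of the dislocated box.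
-/

set_option autoImplicit false

namespace Full.Loc
open Function Relation Pool.Agent.Helper69.RSW Full.P5

variable {τ σ : Type*} [DecidableEq τ] [DecidableEq σ]
variable {T₁ : Finset τ} {w₁ : Half τ → Half τ} {z₁ : Half τ} {e₁ : Fin 3 → Half τ} {B : Finset τ}
  {T₂ : Finset σ} {w₂ : Half σ → Half σ} {z₂ : Half σ} {e₂ : Fin 3 → Half σ} {B' : Finset σ}
  {φ : τ → σ}

/-- a step of the first region outside `B` is a step of the second region outside `B'` -/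
theorem Same.sts (hs : Same T₁ w₁ B T₂ w₂ B' φ) (hz₁ : z₁.1 ∈ B) {ω₁ : Finset τ} {ω₂ : Finset σ}
    (hω : ∀ t ∈ T₁ \ B, φ t ∈ ω₂ ↔ t ∈ ω₁) {x y : Half τ}
    (h : StS (B : Set τ) T₁ w₁ w₁ z₁ z₁ ω₁ x y) :
    StS (B' : Set σ) T₂ w₂ w₂ z₂ z₂ ω₂ (hmap φ x) (hmap φ y) := by
  have key : ∀ {x y : Half τ}, x.1 ∈ T₁ → y.1 ∈ T₁ → Stp (B : Set τ) w₁ w₁ z₁ z₁ ω₁ x y →
      Stp (B' : Set σ) w₂ w₂ z₂ z₂ ω₂ (hmap φ x) (hmap φ y) := by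
    rintro x y hx hy ⟨h1, h2, h3⟩
    have hx' : x.1 ∈ T₁ \ B := Finset.mem_sdiff.2 ⟨hx, h1⟩
    have hy' : y.1 ∈ T₁ \ B := Finset.mem_sdiff.2 ⟨hy, h2⟩
    have m1 := (Finset.mem_sdiff.1 (hs.mem' hx')).2
    have m2 := (Finset.mem_sdiff.1 (hs.mem' hy')).2
    refine ⟨m1, m2, ?_⟩
    rcases h3 with ⟨h3, -, h5⟩ | ⟨h3, h4⟩ | ⟨h3, -, -⟩
    · left
      have h6 : (w₁ x).1 ∈ T₁ \ B := by rw [h5] at hy'; exact hy'
      have h7 := hs.glue x hx' h6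
      refine ⟨?_, rfl, ?_⟩
      · rw [h7]
        intro h8
        apply h3
        have h9 : φ (w₁ x).1 = φ x.1 := congrArg Prod.fst h8
        have h10 : (w₁ x).2 = x.2 := congrArg (fun u : Half σ => u.2) h8
        exact Prod.ext (hs.inj (Finset.mem_coe.2 h6) (Finset.mem_coe.2 hx') h9) h10
      · rw [h7, h5]
        rfl
    · right; left
      refine ⟨?_, by rw [h4]; rfl⟩
      have h6 : mate ω₂ (hmap φ x) = hmap φ (mate ω₁ x) := by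
        unfold mate hmap
        simp only [hω _ hx']
      rw [h6, h3]
      rfl
    · exfalso
      rw [h3] at h1
      exact h1 hz₁
  obtain ⟨h1, h2, h3⟩ := h
  have hB : x.1 ∉ (B : Set τ) ∧ y.1 ∉ (B : Set τ) := by
    rcases h3 with h3 | h3
    · exact ⟨h3.1, h3.2.1⟩
    · exact ⟨h3.2.1, h3.1⟩
  exact ⟨(Finset.mem_sdiff.1 (hs.mem' (Finset.mem_sdiff.2 ⟨h1, hB.1⟩))).1,
    (Finset.mem_sdiff.1 (hs.mem' (Finset.mem_sdiff.2 ⟨h2, hB.2⟩))).1, h3.imp (key h1 h2) (key h2 h1)⟩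

theorem Same.sts_path (hs : Same T₁ w₁ B T₂ w₂ B' φ) (hz₁ : z₁.1 ∈ B) {ω₁ : Finset τ} {ω₂ : Finset σ}
    (hω : ∀ t ∈ T₁ \ B, φ t ∈ ω₂ ↔ t ∈ ω₁) {x y : Half τ}
    (h : ReflTransGen (StS (B : Set τ) T₁ w₁ w₁ z₁ z₁ ω₁) x y) :
    ReflTransGen (StS (B' : Set σ) T₂ w₂ w₂ z₂ z₂ ω₂) (hmap φ x) (hmap φ y) := by
  induction h with
  | refl => exact ReflTransGen.refl
  | tail _ h2 ih => exact ih.tail (hs.sts hz₁ hω h2)

/-- the half of the local change lemma where the exit of the first region is an end of the arc `i` -/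
theorem Same.link_half (hs : Same T₁ w₁ B T₂ w₂ B' φ) (h₁ : Mk T₁ w₁ z₁ e₁) (h₂ : Mk T₂ w₂ z₂ e₂)
    (hz₁ : z₁.1 ∈ B) {ω₁ : Finset τ} {ω₂ : Finset σ}
    (hω : ∀ t ∈ T₁ \ B, φ t ∈ ω₂ ↔ t ∈ ω₁) {j k : Fin 3} (hj : other (mate ω₁) w₁ z₁ = e₁ j)
    (hk : other (mate ω₂) w₂ z₂ = e₂ k) (hjk : j ≠ k) {c₁ : Half τ → ZMod 2} {c₂ : Half σ → ZMod 2}
    (hc₁ : Col T₁ w₁ z₁ e₁ ω₁ j c₁) (hc₂ : Col T₂ w₂ z₂ e₂ ω₂ k c₂) (i : Fin 3) (hij : i ≠ j)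
    (he1 : e₂ (i + 1) = hmap φ (e₁ (i + 1))) (he2 : e₂ (i + 2) = hmap φ (e₁ (i + 2)))
    (hB1 : (e₁ (i + 1)).1 ∉ B) (hB2 : (e₁ (i + 2)).1 ∉ B) :
    ∃ x, Link (B : Set τ) T₁ w₁ w₁ z₁ z₁ e₁ ω₁ i c₁ (fun x => c₂ (hmap φ x))
      (fun h => c₁ (e₁ (h + 2))) (fun h => c₂ (e₂ (h + 2))) x := by
  have ha : Agree (B : Set τ) T₁ T₁ w₁ w₁ z₁ z₁ ω₁ ω₁ :=
    ⟨fun _ _ => Iff.rfl, fun _ _ _ => Iff.rfl, fun _ _ _ => rfl, fun _ _ _ => rfl, Or.inl rfl⟩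
  have hee : e₂ j = hmap φ (e₁ j) := by
    rcases f0 hij with rfl | rfl
    · rw [f12] at he2; exact he2
    · rw [f21] at he1; exact he1
  have hchg : c₂ (rho (e₂ j)) = c₂ (e₂ j) + 1 := hc₂.miss _ (h₂.be j).1 (Col.not_on h₂ hk hjk)
  refine P5.link_half h₁ ha hj hij hB1 hB2 hc₁ (fun hst => ?_) ?_ ?_ ?_
  · exact hc₂.st h₂ (hs.sts hz₁ hω hst)
  · show c₂ (hmap φ (e₁ j)) = c₂ (e₂ (j + 1 + 2)); rw [f12, hee]
  · show c₂ (rho (hmap φ (e₁ j))) = c₂ (e₂ (j + 2 + 2)); rw [f22, ← hee, Col.cyc h₂ hc₂ j]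
  · show c₂ (e₂ (j + 1 + 2)) ≠ c₂ (e₂ (j + 2 + 2))
    rw [f12, f22, ← Col.cyc h₂ hc₂ j, hchg]
    intro h
    have h1 : (1 : ZMod 2) = 0 := by linear_combination -h
    exact absurd h1 (by decide)

/-- **(1)** the local change lemma `Full.P5.lc` for a `Same` pair (closed walls on both sides) -/
theorem Same.link (hs : Same T₁ w₁ B T₂ w₂ B' φ) (h₁ : Mk T₁ w₁ z₁ e₁) (h₂ : Mk T₂ w₂ z₂ e₂)
    (hz₁ : z₁.1 ∈ B) (hz₂ : z₂.1 ∈ B') {ω₁ : Finset τ} {ω₂ : Finset σ}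
    (hω : ∀ t ∈ T₁ \ B, φ t ∈ ω₂ ↔ t ∈ ω₁) {j k : Fin 3} (hj : other (mate ω₁) w₁ z₁ = e₁ j)
    (hk : other (mate ω₂) w₂ z₂ = e₂ k) (hjk : j ≠ k) {c₁ : Half τ → ZMod 2} {c₂ : Half σ → ZMod 2}
    (hc₁ : Col T₁ w₁ z₁ e₁ ω₁ j c₁) (hc₂ : Col T₂ w₂ z₂ e₂ ω₂ k c₂) (i : Fin 3)
    (he1 : e₂ (i + 1) = hmap φ (e₁ (i + 1))) (he2 : e₂ (i + 2) = hmap φ (e₁ (i + 2)))
    (hB1 : (e₁ (i + 1)).1 ∉ B) (hB2 : (e₁ (i + 2)).1 ∉ B) :
    ∃ x, Link (B : Set τ) T₁ w₁ w₁ z₁ z₁ e₁ ω₁ i c₁ (fun x => c₂ (hmap φ x))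
      (fun h => c₁ (e₁ (h + 2))) (fun h => c₂ (e₂ (h + 2))) x := by
  by_cases hij : i = j
  swap
  · exact hs.link_half h₁ h₂ hz₁ hω hj hk hjk hc₁ hc₂ i hij he1 he2 hB1 hB2
  have hik : i ≠ k := by rw [hij]; exact hjk
  obtain ⟨ψ, hψ, hψ1, hψ2⟩ := hs.symm h₁.glu ⟨_, h₁.bz.1⟩
  have m1 : (e₁ (i + 1)).1 ∈ T₁ \ B := Finset.mem_sdiff.2 ⟨(h₁.be _).1, hB1⟩
  have m2 : (e₁ (i + 2)).1 ∈ T₁ \ B := Finset.mem_sdiff.2 ⟨(h₁.be _).1, hB2⟩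
  have g1 : e₁ (i + 1) = hmap ψ (e₂ (i + 1)) := by rw [he1]; exact Prod.ext (hψ1 _ m1).symm rfl
  have g2 : e₁ (i + 2) = hmap ψ (e₂ (i + 2)) := by rw [he2]; exact Prod.ext (hψ1 _ m2).symm rfl
  have hω' : ∀ s ∈ T₂ \ B', ψ s ∈ ω₁ ↔ s ∈ ω₂ := fun s h => by
    rw [← hω _ (hψ.mem' h), hψ2 s h]
  obtain ⟨x, hx⟩ := hψ.link_half h₂ h₁ hz₂ hω' hk hj (Ne.symm hjk) hc₂ hc₁ i hik g1 g2
    (by rw [he1]; exact (Finset.mem_sdiff.1 (hs.mem' m1)).2)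
    (by rw [he2]; exact (Finset.mem_sdiff.1 (hs.mem' m2)).2)
  have hxT : x.1 ∈ T₂ \ B' := Finset.mem_sdiff.2 ⟨hx.mem, hx.out⟩
  have hxT' := Finset.mem_sdiff.1 (hψ.mem' hxT)
  refine ⟨hmap ψ x, ?_, hxT'.1, hxT'.2, ?_, hx.val2, ?_, ?_⟩
  · rcases hx.path with hp | hp
    · left; rw [g2]; exact hψ.sts_path hz₂ hω' hp
    · right; rw [g1]; exact hψ.sts_path hz₂ hω' hp
  · obtain ⟨x', h1, h2⟩ := hx.exit
    have h3 : (w₂ x').1 ∈ B' := h2.elim id id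
    refine ⟨hmap ψ x', ?_, Or.inl ?_⟩
    · show ψ x'.1 = ψ x.1; rw [h1]
    · exact hψ.inner x' (by rw [h1]; exact hxT) h3
  · show c₂ (hmap φ (hmap ψ x)) = _
    have h3 : hmap φ (hmap ψ x) = x := Prod.ext (hψ2 _ hxT) rfl
    rw [h3]
    exact hx.val1
  · intro h hh h6 h7
    exact hx.sep h hh h7 h6

/-- **(2)** coupling: the configurations correspond outside `B`, `B'` and are independent inside -/
theorem Same.P_le (hs : Same T₁ w₁ B T₂ w₂ B' φ) {A D : Finset τ → Prop} {A' : Finset σ → Prop}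
    (h : ∀ ω₁ ω₂, ω₁ ⊆ T₁ → ω₂ ⊆ T₂ → (∀ t ∈ T₁ \ B, φ t ∈ ω₂ ↔ t ∈ ω₁) → A ω₁ → ¬ A' ω₂ → D ω₁) :
    P T₁ A ≤ P T₂ A' + P T₁ D := by
  classical
  set U : Finset τ → Prop := fun ω => ∀ ω₂ ⊆ T₂, (∀ t ∈ T₁ \ B, φ t ∈ ω₂ ↔ t ∈ ω) → A' ω₂ with hU
  set U' : Finset σ → Prop := fun ω => ∀ ω₂ ⊆ T₂, (∀ s ∈ T₂ \ B', s ∈ ω₂ ↔ s ∈ ω) → A' ω₂ with hU'
  have e1 : P T₁ A ≤ P T₁ U + P T₁ D := by
    have h1 : P T₁ A ≤ P T₁ (fun ω => U ω ∨ (D ω ∧ ¬ U ω)) := P_mono fun ω hω hA => by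
      by_cases hu : U ω
      · exact Or.inl hu
      · refine Or.inr ⟨?_, hu⟩
        simp only [hU] at hu
        push Not at hu
        obtain ⟨ω₂, h2, h3, h4⟩ := hu
        exact h ω ω₂ hω h2 h3 hA h4
    rw [P_add_of_disjoint T₁ U (fun ω => D ω ∧ ¬ U ω) (fun S _ h => h.2.2 h.1)] at h1
    have h2 : P T₁ (fun ω => D ω ∧ ¬ U ω) ≤ P T₁ D := P_mono fun S _ h => h.1
    linarith
  have e2 : P T₁ U = P (T₁ \ B) U := P_restrict Finset.sdiff_subset fun ω => by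
    refine forall_congr' fun ω₂ => imp_congr_right fun _ => imp_congr_left ?_
    refine forall_congr' fun t => forall_congr' fun ht => ?_
    rw [Finset.mem_inter]
    simp only [ht, and_true]
  have e3 : P T₂ U' = P (T₂ \ B') U' := P_restrict Finset.sdiff_subset fun ω => by
    refine forall_congr' fun ω₂ => imp_congr_right fun _ => imp_congr_left ?_
    refine forall_congr' fun t => forall_congr' fun ht => ?_
    rw [Finset.mem_inter]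
    simp only [ht, and_true]
  have e4 : P (T₂ \ B') U' = P (T₁ \ B) U := by
    rw [← hs.img, P_image hs.inj]
    refine P_congr fun S hS => ?_
    refine forall_congr' fun ω₂ => imp_congr_right fun _ => imp_congr_left ?_
    constructor
    · intro h1 t ht
      rw [h1 (φ t) (hs.mem' ht)]
      constructor
      · intro h2
        obtain ⟨u, hu, h3⟩ := Finset.mem_image.1 h2
        rwa [← hs.inj (Finset.mem_coe.2 (hS hu)) (Finset.mem_coe.2 ht) h3]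
      · exact fun h2 => Finset.mem_image_of_mem φ h2
    · intro h1 s hs'
      rw [← hs.img] at hs'
      obtain ⟨t, ht, rfl⟩ := Finset.mem_image.1 hs'
      rw [h1 t ht]
      constructor
      · exact fun h2 => Finset.mem_image_of_mem φ h2
      · intro h2
        obtain ⟨u, hu, h3⟩ := Finset.mem_image.1 h2
        rwa [← hs.inj (Finset.mem_coe.2 (hS hu)) (Finset.mem_coe.2 ht) h3]
  have e5 : P T₂ U' ≤ P T₂ A' := P_mono fun ω hω h => h ω hω fun _ _ => Iff.rfl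
  linarith

/-- a path of colour 1 from a mark to a tile glued to `B`, outside `B` -/
def Arm1 (T : Finset τ) (w : Half τ → Half τ) (z : Half τ) (e : Fin 3 → Half τ) (B : Finset τ)
    (ω : Finset τ) : Prop :=
  ∃ (j : Fin 3) (c : Half τ → ZMod 2) (s x x' : Half τ), Col T w z e ω j c ∧ (∃ i, s.1 = (e i).1) ∧
    ReflTransGen (StS (B : Set τ) T w w z z ω) s x ∧ c s = 1 ∧ x.1 ∈ T ∧ x.1 ∉ B ∧ x'.1 = x.1 ∧
    (w x').1 ∈ B

/-- one exit -/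
theorem Same.exit_le (hs : Same T₁ w₁ B T₂ w₂ B' φ) (h₁ : Mk T₁ w₁ z₁ e₁) (h₂ : Mk T₂ w₂ z₂ e₂)
    (hz₁ : z₁.1 ∈ B) (hz₂ : z₂.1 ∈ B') (he : ∀ i, e₂ i = hmap φ (e₁ i)) (hB : ∀ i, (e₁ i).1 ∉ B)
    (j : Fin 3) :
    P T₁ (fun ω => other (mate ω) w₁ z₁ = e₁ j) ≤
      P T₂ (fun ω => other (mate ω) w₂ z₂ = e₂ j) + P T₁ (Arm1 T₁ w₁ z₁ e₁ B) := by
  refine hs.P_le fun ω₁ ω₂ _ _ hω hj hn => ?_
  obtain ⟨k, hk⟩ : ∃ k, other (mate ω₂) w₂ z₂ = e₂ k := by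
    rcases h₂.ends _ (h₂.glu.other_bd (ω := ω₂) h₂.bz) with h | h
    · exact absurd h (h₂.glu.other_ne h₂.bz)
    · exact h
  have hjk : j ≠ k := by
    rintro rfl
    exact hn hk
  obtain ⟨c₁, hc₁⟩ := h₁.col hj
  obtain ⟨c₂, hc₂⟩ := h₂.col hk
  obtain ⟨x, hx⟩ := hs.link h₁ h₂ hz₁ hz₂ hω hj hk hjk hc₁ hc₂ j (he _) (he _) (hB _) (hB _)
  obtain ⟨x', h1, h2⟩ := hx.exit
  rcases hx.path with hp | hp
  · exact ⟨j, c₁, _, x, x', hc₁, ⟨_, rfl⟩, hp, hc₁.e2, hx.mem, hx.out, h1, h2.elim id id⟩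
  · refine ⟨j, c₁, rho (e₁ (j + 1)), x, x', hc₁, ⟨j + 1, rfl⟩, hp, ?_, hx.mem, hx.out, h1, h2.elim id id⟩
    rw [Col.cyc h₁ hc₁, f11]
    exact hc₁.e2

/-- the exits have total probability 1 -/
theorem sum_exit (h₁ : Mk T₁ w₁ z₁ e₁) (j : Fin 3) :
    P T₁ (fun ω => other (mate ω) w₁ z₁ = e₁ j) + (P T₁ (fun ω => other (mate ω) w₁ z₁ = e₁ (j + 1)) +
      P T₁ (fun ω => other (mate ω) w₁ z₁ = e₁ (j + 2))) = 1 := by
  have hne : ∀ {a b : Fin 3}, a ≠ b → e₁ a ≠ e₁ b := fun h h' => h (h₁.ee h')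
  have d1 : ∀ j : Fin 3, j ≠ j + 1 := by decide
  have d2 : ∀ j : Fin 3, j ≠ j + 2 := by decide
  have d3 : ∀ j : Fin 3, j + 1 ≠ j + 2 := by decide
  rw [← P_add_of_disjoint, ← P_add_of_disjoint, ← P_true T₁]
  · refine P_congr fun ω _ => ⟨fun _ => trivial, fun _ => ?_⟩
    rcases h₁.ends _ (h₁.glu.other_bd (ω := ω) h₁.bz) with h | ⟨k, h⟩
    · exact absurd h (h₁.glu.other_ne h₁.bz)
    · rw [h]
      have : ∀ k j : Fin 3, k = j ∨ k = j + 1 ∨ k = j + 2 := by decide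
      have := this k j
      rcases this with rfl | rfl | rfl
      · exact Or.inl rfl
      · exact Or.inr (Or.inl rfl)
      · exact Or.inr (Or.inr rfl)
  · rintro ω - ⟨h, h' | h'⟩
    · rw [h] at h'
      exact hne (d1 j) h'
    · rw [h] at h'
      exact hne (d2 j) h'
  · rintro ω - ⟨h, h'⟩
    rw [h] at h'
    exact hne (d3 j) h'

/-- **(3)** the laws of the exits -/
theorem Same.pair_le (hs : Same T₁ w₁ B T₂ w₂ B' φ) (h₁ : Mk T₁ w₁ z₁ e₁) (h₂ : Mk T₂ w₂ z₂ e₂)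
    (hz₁ : z₁.1 ∈ B) (hz₂ : z₂.1 ∈ B') (he : ∀ i, e₂ i = hmap φ (e₁ i)) (hB : ∀ i, (e₁ i).1 ∉ B)
    (j : Fin 3) :
    |P T₁ (fun ω => other (mate ω) w₁ z₁ = e₁ j) - P T₂ (fun ω => other (mate ω) w₂ z₂ = e₂ j)| ≤
      2 * P T₁ (Arm1 T₁ w₁ z₁ e₁ B) := by
  have k0 := hs.exit_le h₁ h₂ hz₁ hz₂ he hB j
  have k1 := hs.exit_le h₁ h₂ hz₁ hz₂ he hB (j + 1)
  have k2 := hs.exit_le h₁ h₂ hz₁ hz₂ he hB (j + 2)
  have s1 := sum_exit h₁ j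
  have s2 := sum_exit h₂ j
  have h0 := P_nonneg T₁ (Arm1 T₁ w₁ z₁ e₁ B)
  rw [abs_le]
  constructor <;> linarith

lemma mate_eq_rho {ω : Finset τ} {x : Half τ} :
    mate ω x = rho x ↔ (x.1 ∈ ω ↔ (x.2 = .S ∨ x.2 = .N)) := by
  obtain ⟨t, d⟩ := x
  unfold mate rho
  simp only [Prod.mk.injEq, true_and]
  by_cases h : t ∈ ω <;> simp only [h, decide_true, decide_false, true_iff, false_iff] <;>
    cases d <;> simp [Dir.mt, Dir.ccw]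

/-- **(4)** in a chart of the dislocated box which contains `B` and no mark -/
theorem armC_of_arm1 (hG : Glu T₁ w₁) {R r : ℤ} {ψ : ℤ × ℤ → τ} (hψ : ChartD T₁ w₁ R ψ z₁)
    (_hr : 1 ≤ r) (hrR : r ≤ R) (hB : ∀ t ∈ B, ∃ s ∈ Bx (r - 1), ψ s = t)
    (he : ∀ i, ∀ s ∈ Bx (R - 1), ψ s ≠ (e₁ i).1) {ω : Finset τ} (h₁ : Mk T₁ w₁ z₁ e₁)
    (hz : z₁.1 ∈ B) (h : Arm1 T₁ w₁ z₁ e₁ B ω) : ArmC w₁ w₁ z₁ ψ R r ω := by
  obtain ⟨j, c, s, x, x', hc, ⟨i, hi⟩, hp, hcs, hxT, hxB, hx', hwx⟩ := h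
  -- the path is a path of the chart relation
  have key : ∀ y, ReflTransGen (StS (B : Set τ) T₁ w₁ w₁ z₁ z₁ ω) s y → c y = 1 ∧
      ReflTransGen (CStep w₁ ω (fun t => ∀ d, ¬ Conn (mate ω) w₁ z₁ (t, d))) y s := by
    intro y hy
    induction hy with
    | refl => exact ⟨hcs, ReflTransGen.refl⟩
    | @tail a b _ hab ih =>
      obtain ⟨i1, i2⟩ := ih
      have hcb : c b = 1 := by rw [hc.st h₁ hab]; exact i1
      refine ⟨hcb, ReflTransGen.head ?_ i2⟩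
      obtain ⟨h1, h2, h3⟩ := hab
      have stp : ∀ {u v : Half τ}, u.1 ∈ T₁ → c u = 1 → Stp (B : Set τ) w₁ w₁ z₁ z₁ ω u v →
          CStep w₁ ω (fun t => ∀ d, ¬ Conn (mate ω) w₁ z₁ (t, d)) u v := by
        rintro u v huT hcu ⟨h4, h5, h6⟩
        rcases h6 with ⟨h6, -, h7⟩ | ⟨h6, h7⟩ | ⟨h6, -, -⟩
        · exact Or.inl ⟨h6, h7⟩
        · refine Or.inr (Or.inr ⟨fun d => ?_, mate_eq_rho.1 h6, h7⟩)
          exact hc.fresh h₁ huT h6 hcu rfl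
        · rw [h6] at h4
          exact absurd hz h4
      rcases h3 with h3 | h3
      · exact (stp h1 i1 h3).symm
      · exact stp h2 hcb h3
  obtain ⟨-, hpath⟩ := key x hp
  -- the last tile is in the chart
  obtain ⟨s0, hs0, hs1⟩ := hB _ hwx
  have hs0' := mem_Bx.1 hs0
  set u : Half (ℤ × ℤ) := (s0, (w₁ x').2) with hu
  have e1 : w₁ x' = (ψ u.1, u.2) := Prod.ext hs1.symm rfl
  have hx'' : w₁ x' ≠ x' := by
    intro h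
    rw [h, hx'] at hwx
    exact hxB hwx
  have huR : u.1 ∈ Bx (R - 1) := Bx_mono (by omega) hs0
  have hgu : gD R u ≠ u := by
    intro h5
    have h6 := gD_inner huR h5
    have h7 := hψ.fix
    rw [hψ.centre] at h7
    rw [h6] at e1
    have h8 : w₁ x' = (ψ (0, -1), .N) := e1
    have h9 : w₁ (w₁ x') = w₁ x' := by rw [h8]; exact h7
    rw [hG.inv] at h9
    exact hx'' h9.symm
  have e2 : x' = (ψ (gD R u).1, (gD R u).2) := by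
    rw [← hψ.glue u (Bx_mono (by omega) huR) hgu, ← e1, hG.inv]
  have hin : (gD R u).1 ∈ Bx r := by
    have h5 : (gD R u).1 ∈ Bx R := (glu_gD R).mem _ (Bx_mono (by omega) huR)
    rw [mem_Bx] at h5 ⊢
    have h7 : u.1 = s0 := rfl
    rcases gD_cases hgu with ⟨i, j, -, -, ⟨h3, h4⟩ | ⟨h3, h4⟩⟩ | ⟨i, j, -, -, -, ⟨h3, h4⟩ | ⟨h3, h4⟩⟩ |
      ⟨i, -, -, ⟨h3, h4⟩ | ⟨h3, h4⟩⟩ | ⟨i, -, -, ⟨h3, h4⟩ | ⟨h3, h4⟩⟩ <;>
    · rw [h3] at h7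
      rw [← h7] at hs0'
      rw [h4]
      simp only at hs0' ⊢
      omega
  refine ⟨((gD R u).1, x.2), s, hin, fun t ht => ?_, ?_⟩
  · rw [hi]; exact he i t ht
  · have h5 : ((ψ (gD R u).1, x.2) : Half τ) = x := by
      have h6 : ψ (gD R u).1 = x.1 := by rw [← hx', e2]
      exact Prod.ext h6 rfl
    show ReflTransGen _ (ψ (gD R u).1, x.2) s
    rw [h5]
    exact hpath

end Full.Loc
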