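import Pool.Agent.Full.Loc.Det

/-!
# Local changes of a surface: probabilities

`Same T g B T' g' B' φ`: the surfaces `(T, g)` and `(T', g')` are identified by `φ` outside `B`, `B'`.
`Ring T g B A O`: the set `A` of tiles separates `B` from `O`.  If `z` is the only end of `(T, g)` which
is not in the outside parts of the rings, the laws of the ends of the strands of `z` and of `z'` differ
by at most the probability that no ring is crossed by exactly one strand.
-/

set_option autoImplicit false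
set_option linter.unusedSectionVars false

namespace Full.Loc
open Function Relation Pool.Agent.Helper69.RSW

/-- relabelling by a map which is injective on the set -/
theorem P_image {E E' : Type*} [DecidableEq E] [DecidableEq E'] {F : Finset E} {φ : E → E'}
    (hφ : Set.InjOn φ F) (A : Finset E' → Prop) :
    P (F.image φ) A = P F (fun S => A (S.image φ)) := by
  classical
  unfold P
  rw [Finset.card_image_of_injOn hφ]
  congr 2
  symm
  apply Finset.card_bij (i := fun S _ => S.image φ)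
  · intro S h
    simp only [Finset.mem_filter, Finset.mem_powerset] at h ⊢
    exact ⟨Finset.image_subset_image h.1, h.2⟩
  · intro S hS S' hS' h
    simp only [Finset.mem_filter, Finset.mem_powerset] at hS hS'
    ext t
    constructor
    · intro ht
      have h1 : φ t ∈ S'.image φ := by rw [← h]; exact Finset.mem_image_of_mem φ ht
      obtain ⟨t', ht', h2⟩ := Finset.mem_image.1 h1
      rwa [← hφ (hS'.1 ht') (hS.1 ht) h2]
    · intro ht
      have h1 : φ t ∈ S.image φ := by rw [h]; exact Finset.mem_image_of_mem φ ht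
      obtain ⟨t', ht', h2⟩ := Finset.mem_image.1 h1
      rwa [← hφ (hS.1 ht') (hS'.1 ht) h2]
  · intro T hT
    simp only [Finset.mem_filter, Finset.mem_powerset] at hT
    obtain ⟨S, hS, rfl⟩ := Finset.subset_image_iff.1 hT.1
    refine ⟨S, ?_, rfl⟩
    simp only [Finset.mem_filter, Finset.mem_powerset]
    exact ⟨by exact_mod_cast hS, hT.2⟩

variable {τ σ : Type*} [DecidableEq τ] [DecidableEq σ]

/-- the surfaces are the same outside `B`, `B'` -/
structure Same (T : Finset τ) (g : Half τ → Half τ) (B : Finset τ)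
    (T' : Finset σ) (g' : Half σ → Half σ) (B' : Finset σ) (φ : τ → σ) : Prop where
  sub : B ⊆ T
  sub' : B' ⊆ T'
  inj : Set.InjOn φ (T \ B : Finset τ)
  img : (T \ B).image φ = T' \ B'
  glue : ∀ x : Half τ, x.1 ∈ T \ B → (g x).1 ∈ T \ B → g' (hmap φ x) = hmap φ (g x)
  inner : ∀ x : Half τ, x.1 ∈ T \ B → (g x).1 ∈ B → (g' (hmap φ x)).1 ∈ B'

/-- `A` separates `B` from `O` -/
structure Ring (T : Finset τ) (g : Half τ → Half τ) (B A O : Finset τ) : Prop where
  subA : A ⊆ T \ B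
  subO : O ⊆ T \ B
  disj : Disjoint O A
  outer : ∀ x : Half τ, x.1 ∈ O → (g x).1 ∈ A ∨ (g x).1 ∈ O

namespace Same
variable {T : Finset τ} {g : Half τ → Half τ} {B : Finset τ} {T' : Finset σ}
  {g' : Half σ → Half σ} {B' : Finset σ} {φ : τ → σ}

theorem mem' (h : Same T g B T' g' B' φ) {t : τ} (ht : t ∈ T \ B) : φ t ∈ T' \ B' := by
  rw [← h.img]
  exact Finset.mem_image_of_mem φ ht

/-- the local identification given by a ring -/
theorem loc (h : Same T g B T' g' B' φ) {A O : Finset τ} (hR : Ring T g B A O)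
    {ω : Finset τ} {ω' : Finset σ} (hω : ∀ t ∈ T \ B, φ t ∈ ω' ↔ t ∈ ω) :
    Iso T g ω {t | t ∈ T ∧ t ∉ A ∧ t ∉ O} {t | t ∈ A} {t | t ∈ O}
      T' g' ω' {s | s ∈ T' ∧ s ∉ A.image φ ∧ s ∉ O.image φ} {s | s ∈ A.image φ}
      {s | s ∈ O.image φ} φ := by
  have hAO : ∀ t, t ∈ A → t ∉ O := fun t h1 h2 => Finset.disjoint_left.1 hR.disj h2 h1
  have hsubA' : ∀ s ∈ A.image φ, s ∈ T' \ B' := by
    intro s hs
    obtain ⟨t, ht, rfl⟩ := Finset.mem_image.1 hs
    exact h.mem' (hR.subA ht)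
  have hsubO' : ∀ s ∈ O.image φ, s ∈ T' \ B' := by
    intro s hs
    obtain ⟨t, ht, rfl⟩ := Finset.mem_image.1 hs
    exact h.mem' (hR.subO ht)
  have himg : ∀ {X : Finset τ}, X ⊆ T \ B → ∀ t ∈ T \ B, φ t ∈ X.image φ → t ∈ X := by
    intro X hX t ht hs
    obtain ⟨t', ht', h1⟩ := Finset.mem_image.1 hs
    rwa [← h.inj (Finset.mem_coe.2 (hX ht')) (Finset.mem_coe.2 ht) h1]
  have hsub : ∀ t, t ∈ A ∨ t ∈ O → t ∈ T \ B := fun t ht => ht.elim (@hR.subA t) (@hR.subO t)
  refine ⟨?_, ?_, ?_, ?_, ?_, ?_, ?_, ?_, ?_, ?_, ?_, ?_, ?_, ?_, ?_, ?_, ?_⟩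
  · intro t
    constructor
    · intro ht
      by_cases h1 : t ∈ A
      · exact Or.inr (Or.inl h1)
      · by_cases h2 : t ∈ O
        · exact Or.inr (Or.inr h2)
        · exact Or.inl ⟨ht, h1, h2⟩
    · rintro (h1 | h1 | h1)
      · exact h1.1
      · exact (Finset.mem_sdiff.1 (hR.subA h1)).1
      · exact (Finset.mem_sdiff.1 (hR.subO h1)).1
  · intro t
    constructor
    · intro ht
      by_cases h1 : t ∈ A.image φ
      · exact Or.inr (Or.inl h1)
      · by_cases h2 : t ∈ O.image φ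
        · exact Or.inr (Or.inr h2)
        · exact Or.inl ⟨ht, h1, h2⟩
    · rintro (h1 | h1 | h1)
      · exact h1.1
      · exact (Finset.mem_sdiff.1 (hsubA' _ h1)).1
      · exact (Finset.mem_sdiff.1 (hsubO' _ h1)).1
  · exact fun t h1 h2 => h2.2.1 h1
  · exact fun t h1 h2 => hAO t h2 h1
  · exact fun t h1 h2 => h2.2.2 h1
  · exact fun t h1 h2 => h2.2.1 h1
  · intro s h1 h2
    obtain ⟨t, ht, rfl⟩ := Finset.mem_image.1 h1
    exact hAO t (himg hR.subA t (hR.subO ht) h2) ht
  · exact fun t h1 h2 => h2.2.2 h1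
  · exact fun t ht => Finset.mem_image_of_mem φ ht
  · exact fun t ht => Finset.mem_image_of_mem φ ht
  · exact h.inj.mono fun t ht => Finset.mem_coe.2 (hsub t ht)
  · intro s hs
    obtain ⟨t, ht, h1⟩ := Finset.mem_image.1 hs
    exact ⟨t, ht, h1⟩
  · exact fun t ht => hω t (hsub t ht)
  · exact fun x h1 h2 => h.glue x (hsub _ h1) (hsub _ h2)
  · intro x h1 h2
    have h3 : x.1 ∈ T \ B := hR.subA h1
    by_cases h4 : (g x).1 ∈ B
    · have h5 := h.inner x h3 h4
      refine ⟨h.sub' h5, fun h6 => ?_, fun h6 => ?_⟩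
      · exact (Finset.mem_sdiff.1 (hsubA' _ h6)).2 h5
      · exact (Finset.mem_sdiff.1 (hsubO' _ h6)).2 h5
    · have h5 : (g x).1 ∈ T \ B := Finset.mem_sdiff.2 ⟨h2.1, h4⟩
      have h6 := h.glue x h3 h5
      rw [h6]
      refine ⟨(Finset.mem_sdiff.1 (h.mem' h5)).1, fun h7 => ?_, fun h7 => ?_⟩
      · exact h2.2.1 (himg hR.subA _ h5 h7)
      · exact h2.2.2 (himg hR.subO _ h5 h7)
  · intro x h1 h2
    rcases hR.outer x h1 with h3 | h3
    · exact h2.2.1 h3
    · exact h2.2.2 h3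
  · rintro ⟨s, d⟩ hs h2
    obtain ⟨t, ht, rfl⟩ := Finset.mem_image.1 (show s ∈ O.image φ from hs)
    have h3 := hR.outer (t, d) ht
    have h4 : g' (φ t, d) = hmap φ (g (t, d)) := h.glue (t, d) (hR.subO ht) (hsub _ h3)
    rw [h4] at h2
    rcases h3 with h3 | h3
    · exact h2.2.1 (Finset.mem_image_of_mem φ h3)
    · exact h2.2.2 (Finset.mem_image_of_mem φ h3)

end Same

/-- exactly one strand crosses the ring `A` -/
def Single (g : Half τ → Half τ) (A O : Finset τ) (ω : Finset τ) : Prop :=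
  ∃ a, OneCross g ω {t | t ∈ A} {t | t ∈ O} a

/-- the identification of a surface with itself -/
theorem Same.refl {T : Finset τ} {g : Half τ → Half τ} {B : Finset τ} (hB : B ⊆ T) :
    Same T g B T g B id where
  sub := hB
  sub' := hB
  inj := Function.injective_id.injOn
  img := by rw [Finset.image_id]
  glue x _ _ := rfl
  inner x _ h := h

theorem Ring.image {T : Finset τ} {g : Half τ → Half τ} {B : Finset τ} {T' : Finset σ}
    {g' : Half σ → Half σ} {B' : Finset σ} {φ : τ → σ} (h : Same T g B T' g' B' φ)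
    {A O : Finset τ} (hR : Ring T g B A O) : Ring T' g' B' (A.image φ) (O.image φ) where
  subA s hs := by
    obtain ⟨t, ht, rfl⟩ := Finset.mem_image.1 hs
    exact h.mem' (hR.subA ht)
  subO s hs := by
    obtain ⟨t, ht, rfl⟩ := Finset.mem_image.1 hs
    exact h.mem' (hR.subO ht)
  disj := by
    rw [Finset.disjoint_left]
    intro s h1 h2
    obtain ⟨t, ht, rfl⟩ := Finset.mem_image.1 h1
    obtain ⟨t', ht', h3⟩ := Finset.mem_image.1 h2
    have h4 := h.inj (Finset.mem_coe.2 (hR.subA ht')) (Finset.mem_coe.2 (hR.subO ht)) h3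
    rw [h4] at ht'
    exact Finset.disjoint_left.1 hR.disj ht ht'
  outer := by
    rintro ⟨s, d⟩ hs
    obtain ⟨t, ht, rfl⟩ := Finset.mem_image.1 (show s ∈ O.image φ from hs)
    have h3 := hR.outer (t, d) ht
    have h4 : g' (φ t, d) = hmap φ (g (t, d)) := h.glue (t, d) (hR.subO ht)
      (h3.elim (fun h5 => hR.subA h5) (fun h5 => hR.subO h5))
    rw [h4]
    exact h3.imp (fun h5 => Finset.mem_image_of_mem φ h5) (fun h5 => Finset.mem_image_of_mem φ h5)

variable {T : Finset τ} {g : Half τ → Half τ} {B : Finset τ} {T' : Finset σ}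
  {g' : Half σ → Half σ} {B' : Finset σ} {φ : τ → σ}

theorem single_iff (h : Same T g B T' g' B' φ) (hG : Glu T g) {A O : Finset τ}
    (hR : Ring T g B A O) {ω : Finset τ} {ω' : Finset σ}
    (hω : ∀ t ∈ T \ B, φ t ∈ ω' ↔ t ∈ ω) :
    Single g' (A.image φ) (O.image φ) ω' ↔ Single g A O ω := by
  have hL := h.loc hR hω
  constructor
  · rintro ⟨⟨s, d⟩, hs, h1, h2⟩
    obtain ⟨t, ht, rfl⟩ := hL.surj s hs
    refine ⟨(t, d), ht, (hL.outer_iff hG (x := (t, d)) ht).1 h1, ?_⟩
    intro x hx hgx hne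
    have h3 := h2 (hmap φ x) (hL.mapA _ hx) ((hL.outer_iff hG hx).2 hgx) (fun h4 => hne
      (hL.hmap_inj (Or.inl hx) (Or.inl ht) h4))
    rw [hL.other_A hG hx, hL.outer_iff hG ((conn_sep_mem (Two.conn_other _)).2 hx)] at h3
    exact h3
  · rintro ⟨a, ha⟩
    exact ⟨hmap φ a, hL.oneCross hG ha⟩

/-- the event depends only on the ring -/
theorem dep_single (g : Half τ → Half τ) (A O : Finset τ) :
    Dep A (Single g A O) := by
  intro ω
  have key : ∀ x : Half τ, x.1 ∈ A → other (mate (ω ∩ A)) (sep {t | t ∈ A} g) x =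
      other (mate ω) (sep {t | t ∈ A} g) x := by
    intro x hx
    have h1 := other_equivariant (m := mate ω) (g := sep {t | t ∈ A} g) (m' := mate (ω ∩ A))
      (g' := sep {t | t ∈ A} g) {y : Half τ | y.1 ∈ A} id
      (fun y hy => (sep_mem_iff (I := {t | t ∈ A}) (g := g) (mate ω y)).2 hy)
      Function.injective_id.injOn (fun y hy => ?_) hx
    · exact h1
    · have h2 : mate (ω ∩ A) (id y) = mate ω y := mate_congr (by
        have h3 : y.1 ∈ A := hy
        simp only [id, Finset.mem_inter, h3, and_true])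
      rw [h2]
      rfl
  constructor
  · rintro ⟨a, ha, h1, h2⟩
    refine ⟨a, ha, h1, fun x hx hgx hne => ?_⟩
    rw [key x hx]
    exact h2 x hx hgx hne
  · rintro ⟨a, ha, h1, h2⟩
    refine ⟨a, ha, h1, fun x hx hgx hne => ?_⟩
    rw [← key x hx]
    exact h2 x hx hgx hne

/-- pointwise: if some ring is crossed by exactly one strand, the ends correspond -/
theorem Same.other_eq (h : Same T g B T' g' B' φ) (hG : Glu T g) (hG' : Glu T' g')
    {A O : Finset τ} (hR : Ring T g B A O) {z : Half τ} {z' : Half σ} (hz : z.1 ∈ B)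
    (hgz : g z = z) (hz' : z'.1 ∈ B') (hgz' : g' z' = z')
    (huniq : ∀ x : Half τ, x.1 ∈ T → g x = x → x = z ∨ x.1 ∈ O)
    (huniq' : ∀ x : Half σ, x.1 ∈ T' → g' x = x → x = z' ∨ x.1 ∈ O.image φ)
    {ω : Finset τ} {ω' : Finset σ} (hω : ∀ t ∈ T \ B, φ t ∈ ω' ↔ t ∈ ω)
    (hS : Single g A O ω) :
    (other (mate ω) g z).1 ∈ O ∧ other (mate ω') g' z' = hmap φ (other (mate ω) g z) := by
  obtain ⟨a, ha⟩ := hS
  have hL := h.loc hR hω
  refine hL.other_eq hG hG' (a := a) ⟨h.sub hz, fun h1 => ?_, fun h1 => ?_⟩ hgz ?_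
    ⟨h.sub' hz', fun h1 => ?_, fun h1 => ?_⟩ hgz' ?_ ha
  · exact (Finset.mem_sdiff.1 (hR.subA h1)).2 hz
  · exact (Finset.mem_sdiff.1 (hR.subO h1)).2 hz
  · intro x hx hgx
    have hxT : x.1 ∈ T := (hL.cover _).2 (hx.elim Or.inl (fun h1 => Or.inr (Or.inl h1)))
    rcases huniq x hxT hgx with h1 | h1
    · exact h1
    · exfalso
      rcases hx with h2 | h2
      · exact h2.2.2 h1
      · exact Finset.disjoint_left.1 hR.disj h1 h2
  · exact (Finset.mem_sdiff.1 ((hR.image h).subA h1)).2 hz'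
  · exact (Finset.mem_sdiff.1 ((hR.image h).subO h1)).2 hz'
  · intro x hx hgx
    have hxT : x.1 ∈ T' := (hL.cover' _).2 (hx.elim Or.inl (fun h1 => Or.inr (Or.inl h1)))
    rcases huniq' x hxT hgx with h1 | h1
    · exact h1
    · exfalso
      rcases hx with h2 | h2
      · exact h2.2.2 h1
      · exact Finset.disjoint_left.1 (hR.image h).disj h1 h2

/-- **local change at the interior end**: the laws of the ends differ by at most the probability that
none of the rings is crossed by exactly one strand -/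
theorem Same.prob_sub_le (h : Same T g B T' g' B' φ) (hG : Glu T g) (hG' : Glu T' g')
    {ι : Type*} (A O : ι → Finset τ) (hR : ∀ i, Ring T g B (A i) (O i)) {z : Half τ}
    {z' : Half σ} (hz : z.1 ∈ B) (hgz : g z = z) (hz' : z'.1 ∈ B') (hgz' : g' z' = z')
    (huniq : ∀ i, ∀ x : Half τ, x.1 ∈ T → g x = x → x = z ∨ x.1 ∈ O i)
    (huniq' : ∀ i, ∀ x : Half σ, x.1 ∈ T' → g' x = x → x = z' ∨ x.1 ∈ (O i).image φ)
    {e : Half τ} (he : e.1 ∈ T \ B) :
    |P T (fun ω => other (mate ω) g z = e) - P T' (fun ω => other (mate ω) g' z' = hmap φ e)| ≤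
      P T (fun ω => ∀ i, ¬ Single g (A i) (O i) ω) := by
  classical
  let G : Finset τ → Prop := fun ω => ∃ i, Single g (A i) (O i) ω
  let G' : Finset σ → Prop := fun ω => ∃ i, Single g' ((A i).image φ) ((O i).image φ) ω
  let E : Finset τ → Prop := fun ω => other (mate ω) g z = e
  let E' : Finset σ → Prop := fun ω => other (mate ω) g' z' = hmap φ e
  -- correspondence of the events
  have hGG : ∀ (ω : Finset τ) (ω' : Finset σ), (∀ t ∈ T \ B, φ t ∈ ω' ↔ t ∈ ω) → (G' ω' ↔ G ω) := by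
    intro ω ω' hω
    exact exists_congr fun i => single_iff h hG (hR i) hω
  have hEE : ∀ (ω : Finset τ) (ω' : Finset σ), (∀ t ∈ T \ B, φ t ∈ ω' ↔ t ∈ ω) → G ω →
      (E' ω' ↔ E ω) := by
    rintro ω ω' hω ⟨i, hi⟩
    have h1 := h.other_eq hG hG' (hR i) hz hgz hz' hgz' (huniq i) (huniq' i) hω hi
    show other (mate ω') g' z' = hmap φ e ↔ other (mate ω) g z = e
    rw [h1.2]
    constructor
    · intro h2
      have h3 : φ (other (mate ω) g z).1 = φ e.1 := congrArg (fun y : Half σ => y.1) h2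
      have h4 : (other (mate ω) g z).2 = e.2 := congrArg (fun y : Half σ => y.2) h2
      have h5 := h.inj (Finset.mem_coe.2 ((hR i).subO h1.1)) (Finset.mem_coe.2 he) h3
      exact Prod.ext h5 h4
    · intro h2
      rw [h2]
  have hrefl : Same T g B T g B id := Same.refl h.sub
  have hG1 : ∀ ω : Finset τ, G ω ↔ G (ω ∩ (T \ B)) := by
    intro ω
    refine exists_congr fun i => ?_
    have h1 := single_iff hrefl hG (hR i) (ω := ω) (ω' := ω ∩ (T \ B)) (fun t ht => by
      simp only [id, Finset.mem_inter, ht, and_true])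
    rw [Finset.image_id, Finset.image_id] at h1
    exact h1.symm
  have hE1 : ∀ ω : Finset τ, G ω → (E ω ↔ E (ω ∩ (T \ B))) := by
    rintro ω ⟨i, hi⟩
    have h1 := hrefl.other_eq hG hG (hR i) hz hgz hz hgz (huniq i)
      (by rw [Finset.image_id]; exact huniq i) (ω := ω) (ω' := ω ∩ (T \ B)) (fun t ht => by
      simp only [id, Finset.mem_inter, ht, and_true]) hi
    show other (mate ω) g z = e ↔ other (mate (ω ∩ (T \ B))) g z = e
    rw [h1.2]
    rfl
  have hrefl' : Same T' g' B' T' g' B' id := Same.refl h.sub'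
  have hG1' : ∀ ω : Finset σ, G' ω ↔ G' (ω ∩ (T' \ B')) := by
    intro ω
    refine exists_congr fun i => ?_
    have h1 := single_iff hrefl' hG' ((hR i).image h) (ω := ω) (ω' := ω ∩ (T' \ B')) (fun t ht => by
      simp only [id, Finset.mem_inter, ht, and_true])
    rw [Finset.image_id, Finset.image_id] at h1
    exact h1.symm
  have hE1' : ∀ ω : Finset σ, G' ω → (E' ω ↔ E' (ω ∩ (T' \ B'))) := by
    rintro ω ⟨i, hi⟩
    have h1 := hrefl'.other_eq hG' hG' ((hR i).image h) hz' hgz' hz' hgz' (huniq' i)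
      (by rw [Finset.image_id]; exact huniq' i) (ω := ω) (ω' := ω ∩ (T' \ B')) (fun t ht => by
      simp only [id, Finset.mem_inter, ht, and_true]) hi
    show other (mate ω) g' z' = hmap φ e ↔ other (mate (ω ∩ (T' \ B'))) g' z' = hmap φ e
    rw [h1.2]
    rfl
  -- configurations outside `B`
  have hpull : ∀ S ⊆ T \ B, ∀ t ∈ T \ B, φ t ∈ S.image φ ↔ t ∈ S := by
    intro S hS t ht
    constructor
    · intro h1
      obtain ⟨t', ht', h2⟩ := Finset.mem_image.1 h1
      rwa [← h.inj (Finset.mem_coe.2 (hS ht')) (Finset.mem_coe.2 ht) h2]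
    · exact fun h1 => Finset.mem_image_of_mem φ h1
  have hPG : P T G = P T' G' := by
    have h1 : P T G = P (T \ B) G := P_restrict Finset.sdiff_subset hG1
    have h2 : P T' G' = P (T' \ B') G' := P_restrict Finset.sdiff_subset hG1'
    rw [h1, h2, ← h.img, P_image h.inj]
    exact P_congr fun S hS => (hGG S (S.image φ) (hpull S hS)).symm
  have hPE : P T (fun ω => G ω ∧ E ω) = P T' (fun ω => G' ω ∧ E' ω) := by
    have h1 : P T (fun ω => G ω ∧ E ω) = P (T \ B) (fun ω => G ω ∧ E ω) := by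
      refine P_restrict Finset.sdiff_subset fun ω => ?_
      constructor
      · rintro ⟨h2, h3⟩
        exact ⟨(hG1 ω).1 h2, (hE1 ω h2).1 h3⟩
      · rintro ⟨h2, h3⟩
        exact ⟨(hG1 ω).2 h2, (hE1 ω ((hG1 ω).2 h2)).2 h3⟩
    have h1' : P T' (fun ω => G' ω ∧ E' ω) = P (T' \ B') (fun ω => G' ω ∧ E' ω) := by
      refine P_restrict Finset.sdiff_subset fun ω => ?_
      constructor
      · rintro ⟨h2, h3⟩
        exact ⟨(hG1' ω).1 h2, (hE1' ω h2).1 h3⟩
      · rintro ⟨h2, h3⟩
        exact ⟨(hG1' ω).2 h2, (hE1' ω ((hG1' ω).2 h2)).2 h3⟩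
    rw [h1, h1', ← h.img, P_image h.inj]
    refine P_congr fun S hS => ?_
    constructor
    · rintro ⟨h2, h3⟩
      exact ⟨(hGG S _ (hpull S hS)).2 h2, (hEE S _ (hpull S hS) h2).2 h3⟩
    · rintro ⟨h2, h3⟩
      have h4 := (hGG S _ (hpull S hS)).1 h2
      exact ⟨h4, (hEE S _ (hpull S hS) h4).1 h3⟩
  -- splitting
  have hsplit : P T E = P T (fun ω => G ω ∧ E ω) + P T (fun ω => ¬ G ω ∧ E ω) := by
    rw [← P_add_of_disjoint T _ _ (fun S _ h1 => h1.2.1 h1.1.1)]
    exact P_congr fun S _ => by tauto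
  have hsplit' : P T' E' = P T' (fun ω => G' ω ∧ E' ω) + P T' (fun ω => ¬ G' ω ∧ E' ω) := by
    rw [← P_add_of_disjoint T' _ _ (fun S _ h1 => h1.2.1 h1.1.1)]
    exact P_congr fun S _ => by tauto
  have h1 : P T (fun ω => ¬ G ω ∧ E ω) ≤ P T (fun ω => ¬ G ω) := P_mono fun S _ h1 => h1.1
  have h2 : P T' (fun ω => ¬ G' ω ∧ E' ω) ≤ P T' (fun ω => ¬ G' ω) := P_mono fun S _ h1 => h1.1
  have h3 := P_compl T G
  have h4 := P_compl T' G'
  have h5 := P_nonneg T (fun ω => ¬ G ω ∧ E ω)
  have h6 := P_nonneg T' (fun ω => ¬ G' ω ∧ E' ω)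
  have h7 : P T (fun ω => ∀ i, ¬ Single g (A i) (O i) ω) = P T (fun ω => ¬ G ω) :=
    P_congr fun S _ => not_exists.symm
  have h8 : |P T E - P T' E'| ≤ P T (fun ω => ¬ G ω) := by
    rw [abs_le]
    constructor <;> linarith
  rw [h7]
  exact h8

end Full.Loc
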