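import Pool.Agent.Rect.Perc.Arch

/-!
# One arm in the plane: arms from the square `|U|, |W| ≤ s` to the distance `3 ^ J * s` have probability
at most `θ ^ J`

`U = x + y`, `W = x - y` are the coordinates of `Rect.Perc`.
-/

set_option autoImplicit false

namespace H47Perc.RC
open Finset H47Perc
open Pool.Agent.Helper69.RSW (Up P_restrict P_union P_mono P_congr Dep perc_half_eq)

/-- the square `|U| ≤ n`, `|W| ≤ n` -/
noncomputable def sq (n : ℤ) : Finset (ℤ × ℤ) := drect (-n) n (-n) n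

/-- a path from the square of size `s` to the outside of the square of size `L - 1` -/
def Far (s L : ℤ) (ω : Finset (Sym2 (ℤ × ℤ))) : Prop :=
  ∃ z z' : ℤ × ℤ, z ∈ sq s ∧ z' ∉ sq (L - 1) ∧ Joined ω z z'

lemma mem_sq {n : ℤ} {z : ℤ × ℤ} : z ∈ sq n ↔
    -n ≤ z.1 + z.2 ∧ z.1 + z.2 ≤ n ∧ -n ≤ z.1 - z.2 ∧ z.1 - z.2 ≤ n := mem_drect

lemma sq_mono {n n' : ℤ} (h : n ≤ n') : sq n ⊆ sq n' := by
  intro z
  rw [mem_sq, mem_sq]
  omega

lemma up_Far (s L : ℤ) : Up (Far s L) := by
  rintro ω ω' h ⟨z, z', h1, h2, h3⟩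
  exact ⟨z, z', h1, h2, joined_mono h h3⟩

/-- the four rectangles around the square of size `n` inside the square of size `3 n` -/
noncomputable def ringE (n : ℤ) : Finset (Sym2 (ℤ × ℤ)) :=
  (edgesIn (drect (-(3 * n)) (3 * n) n (3 * n)) ∪ edgesIn (drect (-(3 * n)) (3 * n) (-(3 * n)) (-n))) ∪
  (edgesIn (drect n (3 * n) (-(3 * n)) (3 * n)) ∪ edgesIn (drect (-(3 * n)) (-n) (-(3 * n)) (3 * n)))

/-- one of the four rectangles is crossed in the short direction -/
def Ring (n : ℤ) (ω : Finset (Sym2 (ℤ × ℤ))) : Prop :=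
  (Cr n (3 * n) (ω ∩ edgesIn (drect (-(3 * n)) (3 * n) n (3 * n))) ∨
    Cr (-(3 * n)) (-n) (ω ∩ edgesIn (drect (-(3 * n)) (3 * n) (-(3 * n)) (-n)))) ∨
  (CrU n (3 * n) (ω ∩ edgesIn (drect n (3 * n) (-(3 * n)) (3 * n))) ∨
    CrU (-(3 * n)) (-n) (ω ∩ edgesIn (drect (-(3 * n)) (-n) (-(3 * n)) (3 * n))))

lemma dep_Ring (n : ℤ) : Dep (ringE n) (Ring n) := by
  intro ω
  unfold Ring
  have h : ∀ G ⊆ ringE n, ω ∩ ringE n ∩ G = ω ∩ G := by
    intro G hG
    rw [inter_assoc, inter_eq_right.2 hG]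
  rw [h _ (subset_union_left.trans subset_union_left), h _ (subset_union_right.trans subset_union_left),
    h _ (subset_union_left.trans subset_union_right), h _ (subset_union_right.trans subset_union_right)]

/-- a path from the square of size `n` to the distance `3 n` crosses one of the rectangles -/
theorem ring_of_far {n s L : ℤ} (hn : 1 ≤ n) (hs : s ≤ n) (hL : 3 * n ≤ L) {ω : Finset (Sym2 (ℤ × ℤ))}
    {B : Finset (ℤ × ℤ)} (hω : ω ⊆ edgesIn B) (h : Far s L ω) : Ring n ω := by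
  obtain ⟨z, z', h1, h2, h3⟩ := h
  have hz : z ∈ sq (3 * n - 1) := sq_mono (by omega) h1
  have hz' : z' ∉ sq (3 * n - 1) := fun h => h2 (sq_mono (by omega) h)
  obtain ⟨w, w', w1, w2, w3, w4, w5, w6⟩ := joined_exit hω h3 hz hz'
  have hadj := adj_uw w4
  have hwW : w ∈ sq (3 * n) := sq_mono (by omega) w1
  have hwW' : w' ∈ sq (3 * n) := by
    rw [mem_sq] at w1 ⊢
    omega
  have hj : Joined (ω ∩ edgesIn (sq (3 * n))) z w' := by
    refine joined_trans (joined_mono (inter_subset_inter_left (edgesIn_mono (sq_mono (by omega)))) w6)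
      (joined_edge ?_)
    rw [mem_inter, mem_edgesIn]
    exact ⟨w5, hwW, hwW', w4⟩
  have hωW : ω ∩ edgesIn (sq (3 * n)) ⊆ edgesIn (sq (3 * n)) := inter_subset_right
  -- a rectangle `T` inside `R`, with `w'` inside and `z` outside
  have key : ∀ T R : Finset (ℤ × ℤ), T ⊆ R → R ⊆ sq (3 * n) → w' ∈ T → z ∉ T →
      (∀ v v' : ℤ × ℤ, v ∈ T → v' ∉ T → v' ∈ sq (3 * n) → lattice.Adj v v' → v' ∈ R) →
      ∃ v' : ℤ × ℤ, v' ∈ R ∧ v' ∉ T ∧ Joined (ω ∩ edgesIn R) w' v' := by
    intro T R hTR hR g1 g2 g3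
    obtain ⟨v, v', v1, v2, v3, v4, v5, v6⟩ := joined_exit hωW (joined_symm hj) g1 g2
    have hv' := g3 v v' v1 v2 v3 v4
    refine ⟨v', hv', v2, joined_trans (joined_mono ?_ v6) (joined_edge ?_)⟩
    · exact (inter_subset_inter_right inter_subset_left).trans (inter_subset_inter_left (edgesIn_mono hTR))
    · rw [mem_inter, mem_edgesIn]
      exact ⟨(mem_inter.1 v5).1, hTR v1, hv', v4⟩
  have hcase : (w'.1 - w'.2 = 3 * n ∨ w'.1 - w'.2 = -(3 * n)) ∨
      (w'.1 + w'.2 = 3 * n ∨ w'.1 + w'.2 = -(3 * n)) := by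
    rw [mem_sq] at w2 hwW'
    omega
  have hz0 : z ∈ sq n := sq_mono hs h1
  rw [mem_sq] at hz0 hwW'
  rcases hcase with (hd | hd) | (hd | hd)
  · left; left
    obtain ⟨v', a1, a2, a3⟩ := key (drect (-(3 * n)) (3 * n) (n + 1) (3 * n))
      (drect (-(3 * n)) (3 * n) n (3 * n)) (drect_mono le_rfl le_rfl (by omega) le_rfl)
      (drect_mono le_rfl le_rfl (by omega) le_rfl) (by rw [mem_drect]; omega)
      (by rw [mem_drect]; omega) (by
        intro v v' b1 b2 b3 b4
        have := adj_uw b4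
        rw [mem_drect] at b1 ⊢
        rw [mem_sq] at b3
        omega)
    rw [mem_drect] at a1 a2
    exact ⟨v', w', by omega, hd, joined_symm a3⟩
  · left; right
    obtain ⟨v', a1, a2, a3⟩ := key (drect (-(3 * n)) (3 * n) (-(3 * n)) (-n - 1))
      (drect (-(3 * n)) (3 * n) (-(3 * n)) (-n)) (drect_mono le_rfl le_rfl le_rfl (by omega))
      (drect_mono le_rfl le_rfl le_rfl (by omega)) (by rw [mem_drect]; omega)
      (by rw [mem_drect]; omega) (by
        intro v v' b1 b2 b3 b4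
        have := adj_uw b4
        rw [mem_drect] at b1 ⊢
        rw [mem_sq] at b3
        omega)
    rw [mem_drect] at a1 a2
    exact ⟨w', v', hd, by omega, a3⟩
  · right; left
    obtain ⟨v', a1, a2, a3⟩ := key (drect (n + 1) (3 * n) (-(3 * n)) (3 * n))
      (drect n (3 * n) (-(3 * n)) (3 * n)) (drect_mono (by omega) le_rfl le_rfl le_rfl)
      (drect_mono (by omega) le_rfl le_rfl le_rfl) (by rw [mem_drect]; omega)
      (by rw [mem_drect]; omega) (by
        intro v v' b1 b2 b3 b4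
        have := adj_uw b4
        rw [mem_drect] at b1 ⊢
        rw [mem_sq] at b3
        omega)
    rw [mem_drect] at a1 a2
    exact ⟨v', w', by omega, hd, joined_symm a3⟩
  · right; right
    obtain ⟨v', a1, a2, a3⟩ := key (drect (-(3 * n)) (-n - 1) (-(3 * n)) (3 * n))
      (drect (-(3 * n)) (-n) (-(3 * n)) (3 * n)) (drect_mono le_rfl (by omega) le_rfl le_rfl)
      (drect_mono le_rfl (by omega) le_rfl le_rfl) (by rw [mem_drect]; omega)
      (by rw [mem_drect]; omega) (by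
        intro v v' b1 b2 b3 b4
        have := adj_uw b4
        rw [mem_drect] at b1 ⊢
        rw [mem_sq] at b3
        omega)
    rw [mem_drect] at a1 a2
    exact ⟨w', v', hd, by omega, a3⟩

/-- the first part of the arm -/
theorem far_inner {s n L : ℤ} (hL : n ≤ L) {ω : Finset (Sym2 (ℤ × ℤ))}
    {B : Finset (ℤ × ℤ)} (hω : ω ⊆ edgesIn B) (h : Far s L ω) : Far s n (ω ∩ edgesIn (sq n)) := by
  obtain ⟨z, z', h1, h2, h3⟩ := h
  by_cases hz : z ∈ sq (n - 1)
  · have hz' : z' ∉ sq (n - 1) := fun h => h2 (sq_mono (by omega) h)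
    obtain ⟨w, w', w1, w2, w3, w4, w5, w6⟩ := joined_exit hω h3 hz hz'
    have hadj := adj_uw w4
    have hwW : w ∈ sq n := sq_mono (by omega) w1
    have hwW' : w' ∈ sq n := by
      rw [mem_sq] at w1 ⊢
      omega
    refine ⟨z, w', h1, w2, ?_⟩
    refine joined_trans (joined_mono (inter_subset_inter_left (edgesIn_mono (sq_mono (by omega)))) w6)
      (joined_edge ?_)
    rw [mem_inter, mem_edgesIn]
    exact ⟨w5, hwW, hwW', w4⟩
  · exact ⟨z, z, h1, hz, SimpleGraph.Reachable.refl _⟩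

/-- the ring is crossed with probability at most `θ < 1` -/
theorem ring_le : ∃ θ : ℝ, 0 < θ ∧ θ < 1 ∧ ∀ n : ℤ, 1 ≤ n → ∀ S : Finset (ℤ × ℤ), sq (3 * n) ⊆ S →
    perc half S (Ring n) ≤ θ := by
  obtain ⟨c1, h0, h01, hp⟩ := pC_le_uniform
  have hc2 : (c1 / 2) ^ 4 < 1 := pow_lt_one₀ (by linarith) (by linarith) (by norm_num)
  refine ⟨1 - (c1 / 2) ^ 4, by linarith, by nlinarith [pow_pos (half_pos h0) 4], fun n hn S hS => ?_⟩
  set c := c1 / 2 with hc
  have hc0 : 0 < c := half_pos h0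
  have hcc : c ≤ c1 := by rw [hc]; linarith
  set A : Finset (Sym2 (ℤ × ℤ)) → Prop := fun ω => Cr n (3 * n) (ω ∩ edgesIn (drect (-(3 * n)) (3 * n) n (3 * n))) with hA
  set B : Finset (Sym2 (ℤ × ℤ)) → Prop := fun ω => Cr (-(3 * n)) (-n) (ω ∩ edgesIn (drect (-(3 * n)) (3 * n) (-(3 * n)) (-n))) with hB
  set C : Finset (Sym2 (ℤ × ℤ)) → Prop := fun ω => CrU n (3 * n) (ω ∩ edgesIn (drect n (3 * n) (-(3 * n)) (3 * n))) with hC
  set D : Finset (Sym2 (ℤ × ℤ)) → Prop := fun ω => CrU (-(3 * n)) (-n) (ω ∩ edgesIn (drect (-(3 * n)) (-n) (-(3 * n)) (3 * n))) with hD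
  have uA : Up A := fun ω ω' hs hx => cr_mono (inter_subset_inter_right hs) hx
  have uB : Up B := fun ω ω' hs hx => cr_mono (inter_subset_inter_right hs) hx
  have uC : Up C := fun ω ω' hs hx => crU_mono (inter_subset_inter_right hs) hx
  have uD : Up D := fun ω ω' hs hx => crU_mono (inter_subset_inter_right hs) hx
  have pA : perc half S A ≤ 1 - c := by
    rw [hA, perc_restrict ((drect_mono le_rfl le_rfl (by omega) le_rfl).trans hS)]
    have := hp (-(3 * n)) (3 * n) n (3 * n) (by omega) (by omega)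
    unfold pC at this
    linarith
  have pB : perc half S B ≤ 1 - c := by
    rw [hB, perc_restrict ((drect_mono le_rfl le_rfl le_rfl (by omega)).trans hS)]
    have := hp (-(3 * n)) (3 * n) (-(3 * n)) (-n) (by omega) (by omega)
    unfold pC at this
    linarith
  have pC' : perc half S C ≤ 1 - c := by
    rw [hC, perc_restrict ((drect_mono (by omega) le_rfl le_rfl le_rfl).trans hS), perc_CrU]
    have := hp (-(3 * n)) (3 * n) n (3 * n) (by omega) (by omega)
    linarith
  have pD : perc half S D ≤ 1 - c := by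
    rw [hD, perc_restrict ((drect_mono le_rfl (by omega) le_rfl le_rfl).trans hS), perc_CrU]
    have := hp (-(3 * n)) (3 * n) (-(3 * n)) (-n) (by omega) (by omega)
    linarith
  have m1 := perc_or_le S uA uB
  have m2 := perc_or_le S uC uD
  have m3 := perc_or_le S (uA.or uB) (uC.or uD)
  have q1 : c * c ≤ (1 - perc half S A) * (1 - perc half S B) :=
    mul_le_mul (by linarith) (by linarith) hc0.le (by linarith)
  have q2 : c * c ≤ (1 - perc half S C) * (1 - perc half S D) :=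
    mul_le_mul (by linarith) (by linarith) hc0.le (by linarith)
  have q3 : (c * c) * (c * c) ≤ (1 - perc half S (fun ω => A ω ∨ B ω)) *
      (1 - perc half S (fun ω => C ω ∨ D ω)) :=
    mul_le_mul (by linarith) (by linarith) (by positivity) (by nlinarith)
  calc perc half S (Ring n) = perc half S (fun ω => (A ω ∨ B ω) ∨ (C ω ∨ D ω)) := rfl
    _ ≤ _ := m3
    _ ≤ 1 - (c * c) * (c * c) := by linarith
    _ = 1 - c ^ 4 := by ring

lemma ring_sub (n : ℤ) (hn : 0 ≤ n) : ringE n ⊆ edgesIn (sq (3 * n)) := by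
  unfold ringE sq
  refine union_subset (union_subset ?_ ?_) (union_subset ?_ ?_) <;> apply edgesIn_mono <;>
    apply drect_mono <;> omega

lemma ring_disjoint (n : ℤ) : Disjoint (edgesIn (sq n)) (ringE n) := by
  rw [disjoint_left]
  intro e he he'
  induction e with
  | h u v =>
    rw [mem_edgesIn, mem_sq, mem_sq] at he
    obtain ⟨h1, h2, h3⟩ := he
    have hadj := adj_uw h3
    unfold ringE at he'
    simp only [mem_union, mem_edgesIn, mem_drect] at he'
    omega

/-- **one arm**: `θ ^ J` -/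
theorem far_le : ∃ θ : ℝ, 0 < θ ∧ θ < 1 ∧ ∀ (s : ℤ), 1 ≤ s → ∀ J : ℕ,
    Pool.Agent.Helper69.RSW.P (edgesIn (sq (3 ^ J * s))) (Far s (3 ^ J * s)) ≤ θ ^ J := by
  obtain ⟨θ, h0, h1, hr⟩ := ring_le
  refine ⟨θ, h0, h1, fun s hs J => ?_⟩
  induction J with
  | zero =>
    rw [pow_zero]
    exact Pool.Agent.Helper69.RSW.P_le_one _ _
  | succ J ih =>
    set n : ℤ := 3 ^ J * s with hn
    have hn1 : 1 ≤ n := by
      have : (1:ℤ) ≤ 3 ^ J := one_le_pow₀ (by norm_num)
      nlinarith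
    have hsn : s ≤ n := by
      have : (1:ℤ) ≤ 3 ^ J := one_le_pow₀ (by norm_num)
      nlinarith
    have h3 : (3:ℤ) ^ (J + 1) * s = 3 * n := by rw [hn, pow_succ]; ring
    rw [h3]
    have hsub1 : edgesIn (sq n) ⊆ edgesIn (sq (3 * n)) := edgesIn_mono (sq_mono (by omega))
    have hsub2 := ring_sub n (by omega)
    have hdep : Dep (edgesIn (sq n)) (fun ω => Far s n (ω ∩ edgesIn (sq n))) := by
      intro ω
      show Far s n (ω ∩ edgesIn (sq n)) ↔ Far s n (ω ∩ edgesIn (sq n) ∩ edgesIn (sq n))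
      rw [inter_assoc, inter_self]
    have e1 : Pool.Agent.Helper69.RSW.P (edgesIn (sq (3 * n))) (Far s (3 * n)) ≤
        Pool.Agent.Helper69.RSW.P (edgesIn (sq (3 * n))) (fun ω => Far s n (ω ∩ edgesIn (sq n)) ∧ Ring n ω) := by
      apply P_mono
      intro ω hω hf
      exact ⟨far_inner (by omega) hω hf, ring_of_far hn1 hsn le_rfl hω hf⟩
    have e2 : Pool.Agent.Helper69.RSW.P (edgesIn (sq n)) (fun ω => Far s n (ω ∩ edgesIn (sq n))) = Pool.Agent.Helper69.RSW.P (edgesIn (sq n)) (Far s n) :=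
      P_congr fun ω hω => by rw [inter_eq_left.2 hω]
    rw [Pool.Agent.Helper69.RSW.P_indep hsub1 hsub2 (ring_disjoint n) hdep (dep_Ring n),
      P_restrict hsub1 hdep, e2] at e1
    have e3 : Pool.Agent.Helper69.RSW.P (edgesIn (sq (3 * n))) (Ring n) ≤ θ := by
      have := hr n hn1 (sq (3 * n)) subset_rfl
      rw [perc_half_eq] at this
      exact this
    rw [pow_succ]
    exact e1.trans (mul_le_mul ih e3 (Pool.Agent.Helper69.RSW.P_nonneg _ _) (by positivity))

end H47Perc.RC
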