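import Pool.Agent.Full.Loc.Annulus

/-!
# One arm in the plane, for tiles

Paths along the drawn diagonals of the tiles of any finite set `F` of tiles of the plane, of any colour.
-/

set_option autoImplicit false
set_option linter.unusedSimpArgs false

namespace Full.Loc
open Relation Finset
open H47Perc (edgesIn lattice Joined joined_mono joined_trans joined_edge mem_edgesIn edgesIn_mono)
open H47Perc.RC (sq mem_sq sq_mono Far up_Far far_inner far_le adj_uw)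
open Pool.Agent.Helper69.RSW (P P_congr P_mono P_or_le P_restrict P_map Dep Up P_nonneg P_le_one)

/-- `p`, `q` are the ends of the diagonal which is drawn in the tile `u` -/
def Drawn (ω : Finset (ℤ × ℤ)) (u p q : ℤ × ℤ) : Prop :=
  (u ∈ ω ∧ ((p = u ∧ q = (u.1 + 1, u.2 + 1)) ∨ (q = u ∧ p = (u.1 + 1, u.2 + 1)))) ∨
  (u ∉ ω ∧ ((p = (u.1 + 1, u.2) ∧ q = (u.1, u.2 + 1)) ∨ (q = (u.1 + 1, u.2) ∧ p = (u.1, u.2 + 1))))

/-- a step along a drawn diagonal of a tile of `F` -/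
def ZStep (F ω : Finset (ℤ × ℤ)) (p q : ℤ × ℤ) : Prop := ∃ u ∈ F, Drawn ω u p q

/-- a path along drawn diagonals of tiles of `F`, from the distance at most `s` from `b` to the distance
at least `L` from `b` -/
def ZArm (F ω : Finset (ℤ × ℤ)) (b : ℤ × ℤ) (s L : ℤ) : Prop :=
  ∃ p q : ℤ × ℤ, (|p.1 - b.1| ≤ s ∧ |p.2 - b.2| ≤ s) ∧ (L ≤ |q.1 - b.1| ∨ L ≤ |q.2 - b.2|) ∧
    ReflTransGen (ZStep F ω) p q

/-- the vertex of `ℤ²` at the corner `u` -/
def vt (c u : ℤ × ℤ) : ℤ × ℤ := (((u.1 - c.1) + (u.2 - c.2)) / 2, ((u.2 - c.2) - (u.1 - c.1)) / 2)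

/-- the edge of `ℤ²` which is the diagonal of the tile `t` of the colour of `c` -/
def tedge (c t : ℤ × ℤ) : Sym2 (ℤ × ℤ) :=
  if (t.1 + t.2 - (c.1 + c.2)) % 2 = 0 then s(vt c t, ((vt c t).1 + 1, (vt c t).2))
  else s(vt c (t.1 + 1, t.2), ((vt c (t.1 + 1, t.2)).1, (vt c (t.1 + 1, t.2)).2 + 1))

lemma tedge_inj (c : ℤ × ℤ) : Function.Injective (tedge c) := by
  rintro ⟨i, j⟩ ⟨i', j'⟩ h
  unfold tedge vt at h
  split_ifs at h with h1 h2 h2 <;> rw [Sym2.eq_iff] at h <;>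
    simp only [Prod.mk.injEq] at h h1 h2 ⊢ <;> omega

/-- `tedge` as an embedding -/
def tedgeE (c : ℤ × ℤ) : ℤ × ℤ ↪ Sym2 (ℤ × ℤ) := ⟨tedge c, tedge_inj c⟩

/-- the tiles of `F` whose diagonal of the colour of `c` is drawn -/
noncomputable def opnF (c : ℤ × ℤ) (F ω : Finset (ℤ × ℤ)) : Finset (ℤ × ℤ) :=
  F.filter (fun u => u ∈ ω ↔ (u.1 + u.2 - (c.1 + c.2)) % 2 = 0)

lemma P_opnF (c : ℤ × ℤ) (F : Finset (ℤ × ℤ)) (A : Finset (ℤ × ℤ) → Prop) :
    P F (fun ω => A (opnF c F ω)) = P F A := by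
  classical
  have hinv : ∀ ω, ω ⊆ F → opnF c F (opnF c F ω) = ω := by
    intro ω hω
    ext u
    unfold opnF
    simp only [mem_filter]
    constructor
    · rintro ⟨h1, h2⟩
      by_contra h3
      by_cases h4 : (u.1 + u.2 - (c.1 + c.2)) % 2 = 0
      · exact h3 (((h2.2 h4).2).2 h4)
      · exact h4 (h2.1 ⟨h1, ⟨fun h => absurd h h3, fun h => absurd h h4⟩⟩)
    · intro h
      refine ⟨hω h, ⟨fun h1 => h1.2.1 h, fun h1 => ⟨hω h, ⟨fun _ => h1, fun _ => h⟩⟩⟩⟩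
  have hsub : ∀ ω, opnF c F ω ⊆ F := fun ω => filter_subset _ _
  unfold P
  congr 2
  apply card_nbij' (i := fun S => opnF c F S) (j := fun S => opnF c F S)
  · intro S h
    simp only [mem_coe, mem_filter, mem_powerset] at h ⊢
    exact ⟨hsub S, h.2⟩
  · intro S h
    simp only [mem_coe, mem_filter, mem_powerset] at h ⊢
    refine ⟨hsub S, ?_⟩
    rw [hinv S h.1]
    exact h.2
  · intro S h
    simp only [mem_coe, mem_filter, mem_powerset] at h
    exact hinv S h.1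
  · intro S h
    simp only [mem_coe, mem_filter, mem_powerset] at h
    exact hinv S h.1

/-- one step in the plane is one step in the lattice of its colour -/
lemma step_edge {c : ℤ × ℤ} {F ω : Finset (ℤ × ℤ)} {p q : ℤ × ℤ} (hp : (p.1 + p.2 - (c.1 + c.2)) % 2 = 0)
    (h : ZStep F ω p q) : (q.1 + q.2 - (c.1 + c.2)) % 2 = 0 ∧
      s(vt c p, vt c q) ∈ (opnF c F ω).map (tedgeE c) := by
  obtain ⟨u, hu, h⟩ := h
  obtain ⟨i, j⟩ := u
  have key : (q.1 + q.2 - (c.1 + c.2)) % 2 = 0 ∧ ((i, j) ∈ ω ↔ (i + j - (c.1 + c.2)) % 2 = 0) ∧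
      tedge c (i, j) = s(vt c p, vt c q) := by
    unfold tedge
    rcases h with ⟨h1, ⟨rfl, rfl⟩ | ⟨rfl, rfl⟩⟩ | ⟨h1, ⟨rfl, rfl⟩ | ⟨rfl, rfl⟩⟩ <;>
      simp only at hp h1 ⊢
    · refine ⟨by omega, ⟨fun _ => by omega, fun _ => h1⟩, ?_⟩
      rw [if_pos (by omega)]
      unfold vt
      simp only [Sym2.eq_iff, Prod.mk.injEq, true_and, and_true]
      omega
    · refine ⟨by omega, ⟨fun _ => by omega, fun _ => h1⟩, ?_⟩
      rw [if_pos (by omega)]
      unfold vt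
      simp only [Sym2.eq_iff, Prod.mk.injEq, true_and, and_true]
      omega
    · refine ⟨by omega, ⟨fun h => absurd h h1, fun h => by omega⟩, ?_⟩
      rw [if_neg (by omega)]
      unfold vt
      simp only [Sym2.eq_iff, Prod.mk.injEq, true_and, and_true]
      omega
    · refine ⟨by omega, ⟨fun h => absurd h h1, fun h => by omega⟩, ?_⟩
      rw [if_neg (by omega)]
      unfold vt
      simp only [Sym2.eq_iff, Prod.mk.injEq, true_and, and_true]
      omega
  refine ⟨key.1, ?_⟩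
  rw [mem_map]
  refine ⟨(i, j), ?_, key.2.2⟩
  unfold opnF
  rw [mem_filter]
  exact ⟨hu, key.2.1⟩

lemma path_edge {c : ℤ × ℤ} {F ω : Finset (ℤ × ℤ)} {p q : ℤ × ℤ} (hp : (p.1 + p.2 - (c.1 + c.2)) % 2 = 0)
    (h : ReflTransGen (ZStep F ω) p q) : (q.1 + q.2 - (c.1 + c.2)) % 2 = 0 ∧
      Joined ((opnF c F ω).map (tedgeE c)) (vt c p) (vt c q) := by
  induction h with
  | refl => exact ⟨hp, SimpleGraph.Reachable.refl _⟩
  | tail _ h2 ih =>
    obtain ⟨h3, h4⟩ := step_edge ih.1 h2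
    exact ⟨h3, joined_trans ih.2 (joined_edge h4)⟩

/-- the ends of the edges of the tiles of `F` -/
noncomputable def ends (c : ℤ × ℤ) (F : Finset (ℤ × ℤ)) : Finset (ℤ × ℤ) :=
  F.biUnion (fun t => if (t.1 + t.2 - (c.1 + c.2)) % 2 = 0 then {vt c t, ((vt c t).1 + 1, (vt c t).2)}
    else {vt c (t.1 + 1, t.2), ((vt c (t.1 + 1, t.2)).1, (vt c (t.1 + 1, t.2)).2 + 1)})

lemma map_sub (c : ℤ × ℤ) (F : Finset (ℤ × ℤ)) : F.map (tedgeE c) ⊆ edgesIn (ends c F) := by
  intro e he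
  rw [mem_map] at he
  obtain ⟨t, ht, rfl⟩ := he
  show tedge c t ∈ _
  unfold tedge
  split_ifs with h
  · rw [mem_edgesIn]
    refine ⟨?_, ?_, ?_⟩
    · unfold ends
      rw [mem_biUnion]
      exact ⟨t, ht, by rw [if_pos h]; simp⟩
    · unfold ends
      rw [mem_biUnion]
      exact ⟨t, ht, by rw [if_pos h]; simp⟩
    · right
      exact ⟨rfl, by simp⟩
  · rw [mem_edgesIn]
    refine ⟨?_, ?_, ?_⟩
    · unfold ends
      rw [mem_biUnion]
      exact ⟨t, ht, by rw [if_neg h]; simp⟩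
    · unfold ends
      rw [mem_biUnion]
      exact ⟨t, ht, by rw [if_neg h]; simp⟩
    · left
      exact ⟨rfl, by simp⟩

/-- the arm of the lattice, for any finite set of edges -/
lemma far_any {s n : ℤ} {G : Finset (Sym2 (ℤ × ℤ))} {B : Finset (ℤ × ℤ)} (hG : G ⊆ edgesIn B) :
    P G (Far s n) ≤ P (edgesIn (sq n)) (Far s n) := by
  classical
  set H := G ∪ edgesIn (sq n) with hH
  have h1 : P G (Far s n) = P G (fun ω => Far s n (ω ∩ G)) :=
    P_congr fun ω hω => by rw [inter_eq_left.2 hω]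
  have hd1 : Dep G (fun ω => Far s n (ω ∩ G)) := by
    intro ω
    show Far s n (ω ∩ G) ↔ Far s n (ω ∩ G ∩ G)
    rw [inter_assoc, inter_self]
  have hd2 : Dep (edgesIn (sq n)) (fun ω => Far s n (ω ∩ edgesIn (sq n))) := by
    intro ω
    show Far s n (ω ∩ edgesIn (sq n)) ↔ Far s n (ω ∩ edgesIn (sq n) ∩ edgesIn (sq n))
    rw [inter_assoc, inter_self]
  have hHB : H ⊆ edgesIn (B ∪ sq n) := union_subset (hG.trans (edgesIn_mono subset_union_left))
    (edgesIn_mono subset_union_right)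
  rw [h1, ← P_restrict (subset_union_left : G ⊆ H) hd1]
  calc P H (fun ω => Far s n (ω ∩ G)) ≤ P H (fun ω => Far s n (ω ∩ edgesIn (sq n))) := by
        apply P_mono
        intro ω hω hf
        exact far_inner (L := n) le_rfl (hω.trans hHB) (up_Far _ _ _ _ inter_subset_left hf)
    _ = P (edgesIn (sq n)) (fun ω => Far s n (ω ∩ edgesIn (sq n))) :=
        P_restrict subset_union_right hd2
    _ = P (edgesIn (sq n)) (Far s n) := P_congr fun ω hω => by rw [inter_eq_left.2 hω]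

lemma vt_uw {c p : ℤ × ℤ} (hp : (p.1 + p.2 - (c.1 + c.2)) % 2 = 0) :
    (vt c p).1 + (vt c p).2 = p.2 - c.2 ∧ (vt c p).1 - (vt c p).2 = p.1 - c.1 := by
  unfold vt
  simp only
  omega

/-- **One arm for tiles**: arms of any colour, for any finite set of tiles. -/
theorem zarm_le : ∃ θ : ℝ, 0 < θ ∧ θ < 1 ∧ ∀ (F : Finset (ℤ × ℤ)) (b : ℤ × ℤ) (s L : ℤ) (J : ℕ),
    0 ≤ s → 3 ^ J * (s + 1) < L → P F (fun ω => ZArm F ω b s L) ≤ 2 * θ ^ J := by
  obtain ⟨θ, h0, h1, hf⟩ := far_le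
  refine ⟨θ, h0, h1, fun F b s L J hs hL => ?_⟩
  set n : ℤ := 3 ^ J * (s + 1) with hn
  -- one colour
  have key : ∀ c : ℤ × ℤ, P F (fun ω => Far (s + 1) n ((opnF c F ω).map (tedgeE c))) ≤ θ ^ J := by
    intro c
    rw [P_opnF c F (fun O => Far (s + 1) n (O.map (tedgeE c))), ← P_map F (tedgeE c) (Far (s + 1) n)]
    exact (far_any (map_sub c F)).trans (hf (s + 1) (by omega) J)
  have hsplit : P F (fun ω => ZArm F ω b s L) ≤
      P F (fun ω => Far (s + 1) n ((opnF b F ω).map (tedgeE b)) ∨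
        Far (s + 1) n ((opnF (b.1 + 1, b.2) F ω).map (tedgeE (b.1 + 1, b.2)))) := by
    apply P_mono
    rintro ω hω ⟨p, q, ⟨h2, h3⟩, h4, h5⟩
    rw [abs_le] at h2 h3
    by_cases hp : (p.1 + p.2 - (b.1 + b.2)) % 2 = 0
    · left
      obtain ⟨h6, h7⟩ := path_edge hp h5
      refine ⟨_, _, ?_, ?_, h7⟩
      · have := vt_uw hp
        rw [mem_sq]
        omega
      · have := vt_uw h6
        rw [mem_sq]
        rw [le_abs, le_abs] at h4
        omega
    · right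
      have hp' : (p.1 + p.2 - ((b.1 + 1, b.2).1 + (b.1 + 1, b.2).2)) % 2 = 0 := by
        simp only
        omega
      obtain ⟨h6, h7⟩ := path_edge hp' h5
      refine ⟨_, _, ?_, ?_, h7⟩
      · have := vt_uw hp'
        rw [mem_sq]
        simp only at this ⊢
        omega
      · have := vt_uw h6
        rw [mem_sq]
        rw [le_abs, le_abs] at h4
        simp only at this ⊢
        omega
  refine hsplit.trans ((P_or_le _ _ _).trans ?_)
  have a1 := key b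
  have a2 := key (b.1 + 1, b.2)
  linarith

/-- geometric decay in the number of scales is a power of the ratio -/
theorem pow_of_scales {θ : ℝ} (h0 : 0 < θ) (h1 : θ < 1) : ∃ C c : ℝ, 1 ≤ C ∧ 0 < c ∧
    ∀ (s L : ℤ) (q : ℝ), 1 ≤ s → 1 ≤ L → q ≤ 1 → (∀ J : ℕ, 3 ^ J * (s + 1) < L → q ≤ 2 * θ ^ J) →
      q ≤ C * ((s : ℝ) / L) ^ c := by
  set c : ℝ := -Real.log θ / Real.log 3 with hc
  have hl3 : 0 < Real.log 3 := Real.log_pos (by norm_num)
  have hlθ : Real.log θ < 0 := Real.log_neg h0 h1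
  have hc0 : 0 < c := div_pos (by linarith) hl3
  have hθ : θ = (3 : ℝ) ^ (-c) := by
    rw [Real.rpow_def_of_pos (by norm_num : (0:ℝ) < 3), hc]
    rw [show Real.log 3 * -(-Real.log θ / Real.log 3) = Real.log θ by field_simp]
    exact (Real.exp_log h0).symm
  refine ⟨2 * (12 : ℝ) ^ c, c, ?_, hc0, ?_⟩
  · have : (1 : ℝ) ≤ 12 ^ c := Real.one_le_rpow (by norm_num) hc0.le
    linarith
  intro s L q hs hL hq1 hq
  have hs' : (1 : ℝ) ≤ s := by exact_mod_cast hs
  have hL' : (1 : ℝ) ≤ L := by exact_mod_cast hL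
  by_cases hbig : s + 1 < L
  · set m : ℕ := ((L - 1) / (s + 1)).toNat with hm
    have hm1 : (m : ℤ) = (L - 1) / (s + 1) := Int.toNat_of_nonneg (Int.ediv_nonneg (by omega) (by omega))
    have hm2 : m ≠ 0 := by
      intro h
      have h2 : (L - 1) / (s + 1) = 0 := by rw [← hm1, h]; rfl
      have h3 : (1 : ℤ) ≤ (L - 1) / (s + 1) := (Int.le_ediv_iff_mul_le (by omega)).2 (by omega)
      omega
    set J := Nat.log 3 m with hJ
    have h3 : 3 ^ J ≤ m := Nat.pow_log_le_self 3 hm2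
    have h4 : m < 3 ^ (J + 1) := Nat.lt_pow_succ_log_self (by norm_num) m
    have h5 : (3 : ℤ) ^ J * (s + 1) < L := by
      have : (3 : ℤ) ^ J ≤ m := by exact_mod_cast h3
      have h6 : (m : ℤ) * (s + 1) ≤ L - 1 := by rw [hm1]; exact Int.ediv_mul_le _ (by omega)
      nlinarith
    have h6 := hq J h5
    -- `L / (12 s) ≤ 3 ^ J`
    have h7 : (L : ℝ) / (12 * s) ≤ 3 ^ J := by
      have h8 : L - 1 < ((m : ℤ) + 1) * (s + 1) := by
        rw [hm1]
        exact Int.lt_ediv_add_one_mul_self _ (by omega)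
      have h9 : (m : ℤ) + 1 ≤ 3 ^ (J + 1) := by exact_mod_cast h4
      have h10 : L - 1 < 3 ^ (J + 1) * (s + 1) := lt_of_lt_of_le h8 (by nlinarith)
      have h11 : (L : ℝ) - 1 < 3 ^ (J + 1) * (s + 1) := by exact_mod_cast h10
      have h12 : (0 : ℝ) < 3 ^ J := by positivity
      rw [div_le_iff₀ (by positivity)]
      rw [pow_succ] at h11
      have h13 : (3 : ℝ) ≤ L := by exact_mod_cast (by omega : (3:ℤ) ≤ L)
      nlinarith
    have h8 : θ ^ J = ((3 : ℝ) ^ J) ^ (-c) := by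
      rw [hθ, ← Real.rpow_natCast, ← Real.rpow_natCast, ← Real.rpow_mul (by norm_num),
        ← Real.rpow_mul (by norm_num), mul_comm]
    have h9 : ((3 : ℝ) ^ J) ^ (-c) ≤ ((L : ℝ) / (12 * s)) ^ (-c) :=
      Real.rpow_le_rpow_of_nonpos (by positivity) h7 (by linarith)
    have h10 : ((L : ℝ) / (12 * s)) ^ (-c) = 12 ^ c * ((s : ℝ) / L) ^ c := by
      rw [Real.rpow_neg (by positivity), ← Real.inv_rpow (by positivity), ← Real.mul_rpow (by norm_num)
        (by positivity)]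
      congr 1
      field_simp
    rw [h10] at h9
    rw [h8] at h6
    linarith
  · have h2 : (L : ℝ) ≤ 2 * s := by exact_mod_cast (by omega : L ≤ 2 * s)
    have h3 : (1 / 12 : ℝ) ^ c ≤ ((s : ℝ) / L) ^ c := by
      apply Real.rpow_le_rpow (by norm_num) _ hc0.le
      rw [le_div_iff₀ (by linarith)]
      linarith
    have h4 : (12 : ℝ) ^ c * (1 / 12 : ℝ) ^ c = 1 := by
      rw [← Real.mul_rpow (by norm_num) (by norm_num)]
      norm_num
    have h5 : (0 : ℝ) < 12 ^ c := Real.rpow_pos_of_pos (by norm_num) _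
    nlinarith

/-- **One arm for tiles**, power form. -/
theorem zarm_pow : ∃ C c : ℝ, 1 ≤ C ∧ 0 < c ∧ ∀ (F : Finset (ℤ × ℤ)) (b : ℤ × ℤ) (s L : ℤ),
    1 ≤ s → 1 ≤ L → P F (fun ω => ZArm F ω b s L) ≤ C * ((s : ℝ) / L) ^ c := by
  obtain ⟨θ, h0, h1, hz⟩ := zarm_le
  obtain ⟨C, c, hC, hc, h⟩ := pow_of_scales h0 h1
  exact ⟨C, c, hC, hc, fun F b s L hs hL => h s L _ hs hL (P_le_one _ _)
    (fun J hJ => hz F b s L J (by omega) hJ)⟩

end Full.Loc
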