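import Mathlib

/-!
# Averages over independent coordinates

`avgX x0 M F`: the average of `F` over the vectors `X : V → ℤ` with `x0 v ≤ X v < x0 v + M`.  A shift of
some coordinates by one changes the average of a bounded function by at most `2 K (number of shifted
coordinates) / M`.
-/

set_option autoImplicit false

namespace Full.Loc
open Finset

variable {V : Type*} [Fintype V] [DecidableEq V]

/-- the vectors with `x0 v ≤ X v < x0 v + M` -/
noncomputable def cube (x0 : V → ℤ) (M : ℕ) : Finset (V → ℤ) := Fintype.piFinset fun v => Finset.Ico (x0 v) (x0 v + M)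

lemma mem_cube {x0 : V → ℤ} {M : ℕ} {X : V → ℤ} : X ∈ cube x0 M ↔ ∀ v, x0 v ≤ X v ∧ X v < x0 v + M := by
  unfold cube
  rw [Fintype.mem_piFinset]
  exact forall_congr' fun v => Finset.mem_Ico

lemma card_cube (x0 : V → ℤ) (M : ℕ) : (cube x0 M).card = M ^ Fintype.card V := by
  unfold cube
  rw [Fintype.card_piFinset]
  have h : ∀ v ∈ (Finset.univ : Finset V), (Finset.Ico (x0 v) (x0 v + (M : ℤ))).card = M := by
    intro v _
    rw [Int.card_Ico]
    simp
  rw [Finset.prod_congr rfl h, Finset.prod_const, Finset.card_univ]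

lemma one_sub_sum_le_prod {ι : Type*} (s : Finset ι) (a : ι → ℝ) (h0 : ∀ i ∈ s, 0 ≤ a i)
    (h1 : ∀ i ∈ s, a i ≤ 1) : 1 - ∑ i ∈ s, a i ≤ ∏ i ∈ s, (1 - a i) := by
  classical
  induction s using Finset.induction_on with
  | empty => simp
  | @insert j s hj ih =>
    rw [Finset.sum_insert hj, Finset.prod_insert hj]
    have h2 := ih (fun i hi => h0 i (Finset.mem_insert_of_mem hi))
      (fun i hi => h1 i (Finset.mem_insert_of_mem hi))
    have h3 := h0 j (Finset.mem_insert_self j s)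
    have h4 := h1 j (Finset.mem_insert_self j s)
    have h5 : 0 ≤ ∑ i ∈ s, a i := Finset.sum_nonneg fun i hi => h0 i (Finset.mem_insert_of_mem hi)
    nlinarith [mul_le_mul_of_nonneg_left h2 (sub_nonneg.2 h4), mul_nonneg h3 h5]

/-- the number of points which two shifted cubes have in common -/
lemma card_inter_cube (x0 σ : V → ℤ) {M : ℕ} (hM : 0 < M) (hσ : ∀ v, |σ v| ≤ M) :
    (M : ℝ) ^ Fintype.card V * (1 - (∑ v, |(σ v : ℝ)|) / M) ≤
      ((cube x0 M ∩ cube (fun v => x0 v + σ v) M).card : ℝ) := by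
  have hM0 : (0 : ℝ) < M := by exact_mod_cast hM
  have h1 : cube x0 M ∩ cube (fun v => x0 v + σ v) M = Fintype.piFinset fun v =>
      (Finset.Ico (x0 v) (x0 v + M) ∩ Finset.Ico (x0 v + σ v) (x0 v + σ v + M)) := by
    ext X
    rw [Finset.mem_inter, mem_cube, mem_cube, Fintype.mem_piFinset, ← forall_and]
    exact forall_congr' fun v => by rw [Finset.mem_inter, Finset.mem_Ico, Finset.mem_Ico]
  rw [h1, Fintype.card_piFinset]
  have h2 : ∀ v : V, ((Finset.Ico (x0 v) (x0 v + (M : ℤ)) ∩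
      Finset.Ico (x0 v + σ v) (x0 v + σ v + M)).card : ℝ) = M * (1 - |(σ v : ℝ)| / M) := by
    intro v
    rw [Finset.Ico_inter_Ico, Int.card_Ico]
    have h3 := hσ v
    have h4 : (((min (x0 v + (M : ℤ)) (x0 v + σ v + M) - max (x0 v) (x0 v + σ v)).toNat : ℕ) : ℤ) =
        M - |σ v| := by
      rcases abs_cases (σ v) with ⟨h5, h6⟩ | ⟨h5, h6⟩ <;> omega
    have h7 : (((min (x0 v + (M : ℤ)) (x0 v + σ v + M) - max (x0 v) (x0 v + σ v)).toNat : ℕ) : ℝ) =
        M - |(σ v : ℝ)| := by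
      have := congrArg (fun n : ℤ => (n : ℝ)) h4
      push_cast at this
      exact this
    have h8 : (max (x0 v) (x0 v + σ v)) = (x0 v ⊔ (x0 v + σ v)) := rfl
    rw [h7]
    field_simp
  push_cast
  rw [Finset.prod_congr rfl fun v _ => h2 v, Finset.prod_mul_distrib, Finset.prod_const,
    Finset.card_univ]
  refine mul_le_mul_of_nonneg_left ?_ (by positivity)
  have h5 := one_sub_sum_le_prod (Finset.univ : Finset V) (fun v => |(σ v : ℝ)| / M)
    (fun v _ => by positivity) (fun v _ => by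
      rw [div_le_one hM0]
      have := hσ v
      exact_mod_cast this)
  rwa [← Finset.sum_div] at h5

/-- the average over independent coordinates -/
noncomputable def avgX (x0 : V → ℤ) (M : ℕ) (F : (V → ℤ) → ℂ) : ℂ :=
  (∑ X ∈ cube x0 M, F X) / (M : ℂ) ^ Fintype.card V

lemma norm_avgX_le {x0 : V → ℤ} {M : ℕ} (hM : 0 < M) {F : (V → ℤ) → ℂ} {K : ℝ}
    (hF : ∀ X ∈ cube x0 M, ‖F X‖ ≤ K) : ‖avgX x0 M F‖ ≤ K := by
  have hM0 : (0 : ℝ) < (M : ℝ) ^ Fintype.card V := by positivity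
  unfold avgX
  rw [norm_div, norm_pow, Complex.norm_natCast, div_le_iff₀ hM0]
  calc ‖∑ X ∈ cube x0 M, F X‖ ≤ ∑ X ∈ cube x0 M, ‖F X‖ := norm_sum_le _ _
    _ ≤ ∑ _X ∈ cube x0 M, K := Finset.sum_le_sum hF
    _ = K * (M : ℝ) ^ Fintype.card V := by
      rw [Finset.sum_const, card_cube, nsmul_eq_mul]
      push_cast
      ring

lemma avgX_const {x0 : V → ℤ} {M : ℕ} (hM : 0 < M) (c : ℂ) : avgX x0 M (fun _ => c) = c := by
  have hM0 : (M : ℂ) ^ Fintype.card V ≠ 0 := pow_ne_zero _ (by exact_mod_cast hM.ne')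
  unfold avgX
  rw [Finset.sum_const, card_cube, nsmul_eq_mul]
  push_cast
  field_simp

lemma avgX_sub (x0 : V → ℤ) (M : ℕ) (F G : (V → ℤ) → ℂ) :
    avgX x0 M (fun X => F X - G X) = avgX x0 M F - avgX x0 M G := by
  unfold avgX
  rw [Finset.sum_sub_distrib, sub_div]

/-- two families which are close have close averages -/
lemma norm_avgX_sub_le {x0 : V → ℤ} {M : ℕ} (hM : 0 < M) {F G : (V → ℤ) → ℂ} {K : ℝ}
    (hF : ∀ X ∈ cube x0 M, ‖F X - G X‖ ≤ K) : ‖avgX x0 M F - avgX x0 M G‖ ≤ K := by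
  rw [← avgX_sub]
  exact norm_avgX_le hM hF

lemma sum_cube_shift (x0 σ : V → ℤ) (M : ℕ) (F : (V → ℤ) → ℂ) :
    ∑ X ∈ cube x0 M, F (fun v => X v + σ v) = ∑ X ∈ cube (fun v => x0 v + σ v) M, F X := by
  refine Finset.sum_bij' (fun X _ => fun v => X v + σ v) (fun X _ => fun v => X v - σ v) ?_ ?_ ?_ ?_ ?_
  · intro X hX
    rw [mem_cube] at hX ⊢
    intro v
    have := hX v
    constructor <;> omega
  · intro X hX
    rw [mem_cube] at hX ⊢
    intro v
    have := hX v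
    constructor <;> omega
  · intro X _
    funext v
    ring
  · intro X _
    funext v
    ring
  · intro X _
    rfl

/-- **a shift of the coordinates changes the average by little** -/
theorem norm_avgX_shift_le {x0 : V → ℤ} (σ : V → ℤ) {M : ℕ} (hM : 0 < M) (hσ : ∀ v, |σ v| ≤ M)
    {F : (V → ℤ) → ℂ} {K : ℝ} (hF : ∀ X, ‖F X‖ ≤ K) :
    ‖avgX x0 M (fun X => F (fun v => X v + σ v)) - avgX x0 M F‖ ≤ 2 * K * (∑ v, |(σ v : ℝ)|) / M := by
  classical
  have hK : 0 ≤ K := (norm_nonneg _).trans (hF fun _ => 0)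
  have hM0 : (0 : ℝ) < M := by exact_mod_cast hM
  have hMp : (0 : ℝ) < (M : ℝ) ^ Fintype.card V := by positivity
  set B := cube x0 M with hB
  set B' := cube (fun v => x0 v + σ v) M with hB'
  have h1 : avgX x0 M (fun X => F (fun v => X v + σ v)) - avgX x0 M F =
      (∑ X ∈ B' \ B, F X - ∑ X ∈ B \ B', F X) / (M : ℂ) ^ Fintype.card V := by
    unfold avgX
    rw [sum_cube_shift, ← hB, ← hB', ← sub_div]
    congr 1
    have h2 := Finset.sum_inter_add_sum_sdiff B' B F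
    have h3 := Finset.sum_inter_add_sum_sdiff B B' F
    rw [← h2, ← h3, Finset.inter_comm B B']
    ring
  rw [h1, norm_div, norm_pow, Complex.norm_natCast, div_le_iff₀ hMp]
  have h2 : ‖∑ X ∈ B' \ B, F X‖ ≤ K * ((B' \ B).card : ℝ) := by
    calc ‖∑ X ∈ B' \ B, F X‖ ≤ ∑ X ∈ B' \ B, ‖F X‖ := norm_sum_le _ _
      _ ≤ ∑ _X ∈ B' \ B, K := Finset.sum_le_sum fun X _ => hF X
      _ = K * ((B' \ B).card : ℝ) := by rw [Finset.sum_const, nsmul_eq_mul]; ring
  have h3 : ‖∑ X ∈ B \ B', F X‖ ≤ K * ((B \ B').card : ℝ) := by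
    calc ‖∑ X ∈ B \ B', F X‖ ≤ ∑ X ∈ B \ B', ‖F X‖ := norm_sum_le _ _
      _ ≤ ∑ _X ∈ B \ B', K := Finset.sum_le_sum fun X _ => hF X
      _ = K * ((B \ B').card : ℝ) := by rw [Finset.sum_const, nsmul_eq_mul]; ring
  have h4 := card_inter_cube x0 σ hM hσ
  rw [← hB, ← hB'] at h4
  have h5 : ((B \ B').card : ℝ) = (M : ℝ) ^ Fintype.card V - ((B ∩ B').card : ℝ) := by
    have h6 := Finset.card_inter_add_card_sdiff B B'
    have h7 : B.card = M ^ Fintype.card V := card_cube x0 M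
    have h8 : ((B ∩ B').card : ℝ) + ((B \ B').card : ℝ) = (M : ℝ) ^ Fintype.card V := by
      rw [h7] at h6
      exact_mod_cast h6
    linarith
  have h5' : ((B' \ B).card : ℝ) = (M : ℝ) ^ Fintype.card V - ((B ∩ B').card : ℝ) := by
    have h6 := Finset.card_inter_add_card_sdiff B' B
    have h7 : B'.card = M ^ Fintype.card V := card_cube _ M
    rw [Finset.inter_comm] at h6
    have h8 : ((B ∩ B').card : ℝ) + ((B' \ B).card : ℝ) = (M : ℝ) ^ Fintype.card V := by
      rw [h7] at h6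
      exact_mod_cast h6
    linarith
  calc ‖∑ X ∈ B' \ B, F X - ∑ X ∈ B \ B', F X‖
      ≤ ‖∑ X ∈ B' \ B, F X‖ + ‖∑ X ∈ B \ B', F X‖ := norm_sub_le _ _
    _ ≤ K * ((B' \ B).card : ℝ) + K * ((B \ B').card : ℝ) := add_le_add h2 h3
    _ = 2 * K * ((M : ℝ) ^ Fintype.card V - ((B ∩ B').card : ℝ)) := by rw [h5, h5']; ring
    _ ≤ 2 * K * ((M : ℝ) ^ Fintype.card V * ((∑ v, |(σ v : ℝ)|) / M)) := by
      refine mul_le_mul_of_nonneg_left ?_ (by positivity)
      nlinarith [h4]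
    _ = 2 * K * (∑ v, |(σ v : ℝ)|) / M * (M : ℝ) ^ Fintype.card V := by ring

end Full.Loc
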