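import Pool.Agent.Full.Def.Surf

/-!
# Local changes of a surface

Two surfaces `(T, g)`, `(T', g')` with configurations `ω`, `ω'` are the same outside the parts `B`, `B'`
(`φ` identifies the annulus `A` with `A'` and the outside `O` with `O'`).  If exactly one strand crosses
the annulus and there is exactly one end `z`, `z'` in `B ∪ A`, `B' ∪ A'`, then the strand of `z'` ends at
the image of the end of the strand of `z`.
-/

set_option autoImplicit false
set_option linter.unusedSectionVars false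

namespace Full.Loc
open Function Relation

/-! ### transfer of connections -/

section transfer
variable {α β : Type*} {m g gc : α → α} {m' g' gc' : β → β}

theorem jump_transfer (P : Set α) (Φ : α → β) (hPo : ∀ x ∈ P, other m gc x ∈ P)
    (hPg : ∀ x ∈ P, g x ∈ P) (hQ : ∀ x ∈ P, gc' (Φ x) = Φ x)
    (ho : ∀ x ∈ P, other m' gc' (Φ x) = Φ (other m gc x)) (hg : ∀ x ∈ P, g' (Φ x) = Φ (g x))
    {x y : α} (hx : x ∈ P) (hj : Jump m gc g x y) : y ∈ P ∧ Jump m' gc' g' (Φ x) (Φ y) := by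
  induction hj with
  | refl => exact ⟨hx, ReflTransGen.refl⟩
  | @tail b c _ h2 ih =>
    obtain ⟨hb, h3⟩ := ih
    obtain ⟨-, h4⟩ := h2
    rcases h4 with rfl | rfl
    · exact ⟨hPo b hb, h3.tail ⟨hQ b hb, Or.inl (ho b hb).symm⟩⟩
    · exact ⟨hPg b hb, h3.tail ⟨hQ b hb, Or.inr (hg b hb).symm⟩⟩

theorem conn_transfer (h : Two m g) (hc : Two m gc) (hper : ∀ x, x ∈ periodicPts (gc ∘ m))
    (hext : ∀ x, gc x ≠ x → g x = gc x) (h' : Two m' g') (hc' : Two m' gc')
    (hper' : ∀ x, x ∈ periodicPts (gc' ∘ m')) (hext' : ∀ x, gc' x ≠ x → g' x = gc' x)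
    (P : Set α) (Φ : α → β) (hP : ∀ x ∈ P, gc x = x) (hPo : ∀ x ∈ P, other m gc x ∈ P)
    (hPg : ∀ x ∈ P, g x ∈ P) (hQ : ∀ x ∈ P, gc' (Φ x) = Φ x)
    (ho : ∀ x ∈ P, other m' gc' (Φ x) = Φ (other m gc x)) (hg : ∀ x ∈ P, g' (Φ x) = Φ (g x))
    {x y : α} (hx : x ∈ P) (hy : y ∈ P) (hxy : Conn m g x y) : Conn m' g' (Φ x) (Φ y) := by
  have h1 := (conn_ext hc h hper hext (hP x hx) (hP y hy)).1 hxy
  have h2 := jump_transfer P Φ hPo hPg hQ ho hg hx h1
  exact (conn_ext hc' h' hper' hext' (hQ x hx) (hQ y hy)).2 h2.2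

/-- equivariant maps transport the other end -/
theorem other_equivariant (D : Set α) (Φ : α → β) (hD : ∀ x ∈ D, g (m x) ∈ D)
    (hΦ : Set.InjOn Φ D) (he : ∀ x ∈ D, g' (m' (Φ x)) = Φ (g (m x))) {x : α} (hx : x ∈ D) :
    other m' g' (Φ x) = Φ (other m g x) := by
  have key : ∀ k, (g' ∘ m')^[k] (Φ x) = Φ ((g ∘ m)^[k] x) ∧ (g ∘ m)^[k] x ∈ D := by
    intro k
    induction k with
    | zero => exact ⟨rfl, hx⟩
    | succ k ih =>
      rw [iterate_succ_apply', iterate_succ_apply', ih.1]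
      exact ⟨he _ ih.2, hD _ ih.2⟩
  have h1 : minimalPeriod (g' ∘ m') (Φ x) = minimalPeriod (g ∘ m) x := by
    refine minimalPeriod_eq_minimalPeriod_iff.2 fun n => ?_
    show (g' ∘ m')^[n] (Φ x) = Φ x ↔ (g ∘ m)^[n] x = x
    rw [(key n).1]
    exact ⟨fun h => hΦ (key n).2 hx h, fun h => by rw [h]⟩
  unfold other
  rw [h1, (key _).1]

end transfer

/-! ### cutting along the boundary of a set of tiles -/

section sep
variable {τ : Type*}

open Classical in
/-- the gluing `g` cut along the boundary of the set `I` of tiles -/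
noncomputable def sep (I : Set τ) (g : Half τ → Half τ) (x : Half τ) : Half τ :=
  if (x.1 ∈ I ↔ (g x).1 ∈ I) then g x else x

variable {I : Set τ} {g : Half τ → Half τ} {T : Finset τ}

lemma sep_of_iff {x : Half τ} (h : x.1 ∈ I ↔ (g x).1 ∈ I) : sep I g x = g x := by
  unfold sep
  rw [if_pos h]

lemma sep_of_not {x : Half τ} (h : ¬ (x.1 ∈ I ↔ (g x).1 ∈ I)) : sep I g x = x := by
  unfold sep
  rw [if_neg h]

lemma sep_mem_iff (x : Half τ) : (sep I g x).1 ∈ I ↔ x.1 ∈ I := by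
  by_cases h : x.1 ∈ I ↔ (g x).1 ∈ I
  · rw [sep_of_iff h, h]
  · rw [sep_of_not h]

theorem glu_sep (hG : Glu T g) (I : Set τ) : Glu T (sep I g) where
  inv x := by
    by_cases h : x.1 ∈ I ↔ (g x).1 ∈ I
    · rw [sep_of_iff h, sep_of_iff (by rw [hG.inv, h]), hG.inv]
    · rw [sep_of_not h, sep_of_not h]
  mem x hx := by
    by_cases h : x.1 ∈ I ↔ (g x).1 ∈ I
    · rw [sep_of_iff h]; exact hG.mem x hx
    · rw [sep_of_not h]; exact hx
  out x hx := by
    have h1 := hG.out x hx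
    by_cases h : x.1 ∈ I ↔ (g x).1 ∈ I
    · rw [sep_of_iff h, h1]
    · rw [sep_of_not h]

theorem sep_ext {x : Half τ} (h : sep I g x ≠ x) : g x = sep I g x := by
  by_cases h1 : x.1 ∈ I ↔ (g x).1 ∈ I
  · rw [sep_of_iff h1]
  · exact absurd (sep_of_not h1) h

/-- a strand of the cut gluing stays in `I` or outside `I` -/
theorem conn_sep_mem [DecidableEq τ] {ω : Finset τ} {x y : Half τ}
    (hc : Conn (mate ω) (sep I g) x y) : y.1 ∈ I ↔ x.1 ∈ I := by
  induction hc with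
  | refl => exact Iff.rfl
  | tail _ h2 ih =>
    rcases h2 with rfl | rfl
    · exact ih
    · rw [sep_mem_iff]; exact ih

end sep

/-! ### local changes -/

section loc
variable {τ σ : Type*} [DecidableEq τ] [DecidableEq σ]

/-- the map of half edges of a map of tiles -/
def hmap (φ : τ → σ) (x : Half τ) : Half σ := (φ x.1, x.2)

/-- `(T, g, ω)` and `(T', g', ω')` are identified by `φ` on the annulus `A` and on the outside `O` -/
structure Iso (T : Finset τ) (g : Half τ → Half τ) (ω : Finset τ) (B A O : Set τ)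
    (T' : Finset σ) (g' : Half σ → Half σ) (ω' : Finset σ) (B' A' O' : Set σ) (φ : τ → σ) : Prop where
  cover : ∀ t, t ∈ T ↔ t ∈ B ∨ t ∈ A ∨ t ∈ O
  cover' : ∀ t, t ∈ T' ↔ t ∈ B' ∨ t ∈ A' ∨ t ∈ O'
  disjAB : ∀ t ∈ A, t ∉ B
  disjOA : ∀ t ∈ O, t ∉ A
  disjOB : ∀ t ∈ O, t ∉ B
  disjAB' : ∀ t ∈ A', t ∉ B'
  disjOA' : ∀ t ∈ O', t ∉ A'
  disjOB' : ∀ t ∈ O', t ∉ B'
  mapA : ∀ t ∈ A, φ t ∈ A'
  mapO : ∀ t ∈ O, φ t ∈ O'
  inj : Set.InjOn φ (A ∪ O)
  surj : ∀ s ∈ A', ∃ t ∈ A, φ t = s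
  conf : ∀ t ∈ A ∪ O, φ t ∈ ω' ↔ t ∈ ω
  glue : ∀ x : Half τ, x.1 ∈ A ∪ O → (g x).1 ∈ A ∪ O → g' (hmap φ x) = hmap φ (g x)
  inner : ∀ x : Half τ, x.1 ∈ A → (g x).1 ∈ B → (g' (hmap φ x)).1 ∈ B'
  outer : ∀ x : Half τ, x.1 ∈ O → (g x).1 ∉ B
  outer' : ∀ x : Half σ, x.1 ∈ O' → (g' x).1 ∉ B'

namespace Iso
variable {T : Finset τ} {g : Half τ → Half τ} {ω : Finset τ} {B A O : Set τ}
  {T' : Finset σ} {g' : Half σ → Half σ} {ω' : Finset σ} {B' A' O' : Set σ} {φ : τ → σ}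

lemma mate_hmap (h : Iso T g ω B A O T' g' ω' B' A' O' φ) {x : Half τ} (hx : x.1 ∈ A ∪ O) :
    mate ω' (hmap φ x) = hmap φ (mate ω x) := by
  have h1 := h.conf _ hx
  unfold mate hmap
  simp only [h1]

end Iso

/-- exactly one strand crosses the annulus `A`, at the outer boundary half edge `a`: every other outer
boundary half edge of `A` is joined inside `A` to an outer boundary half edge -/
def OneCross (g : Half τ → Half τ) (ω : Finset τ) (A O : Set τ) (a : Half τ) : Prop :=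
  a.1 ∈ A ∧ (g a).1 ∈ O ∧ ∀ x : Half τ, x.1 ∈ A → (g x).1 ∈ O → x ≠ a →
    (g (other (mate ω) (sep A g) x)).1 ∈ O

/-- no strand crosses the annulus `A` -/
def NoCross (g : Half τ → Half τ) (ω : Finset τ) (A O : Set τ) : Prop :=
  ∀ x : Half τ, x.1 ∈ A → (g x).1 ∈ O → (g (other (mate ω) (sep A g) x)).1 ∈ O

/-- one surface: the inside part `B ∪ A` -/
structure Side (T : Finset τ) (g : Half τ → Half τ) (B A O : Set τ) : Prop where
  glu : Glu T g
  cover : ∀ t, t ∈ T ↔ t ∈ B ∨ t ∈ A ∨ t ∈ O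
  disjAB : ∀ t ∈ A, t ∉ B
  disjOA : ∀ t ∈ O, t ∉ A
  disjOB : ∀ t ∈ O, t ∉ B
  outer : ∀ x : Half τ, x.1 ∈ O → (g x).1 ∉ B

namespace Side
variable {T : Finset τ} {g : Half τ → Half τ} {ω : Finset τ} {B A O : Set τ}

/-- strands inside `A` between outer boundary half edges are strands of the inside part -/
theorem other_of_cross (h : Side T g B A O) {x : Half τ} (hx : x.1 ∈ A) (hgx : (g x).1 ∈ O)
    (hy : (g (other (mate ω) (sep A g) x)).1 ∈ O) :
    other (mate ω) (sep (B ∪ A) g) x = other (mate ω) (sep A g) x := by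
  have hGA := glu_sep h.glu A
  have hGI := glu_sep h.glu (B ∪ A)
  have hxT : x.1 ∈ T := (h.cover _).2 (Or.inr (Or.inl hx))
  have hBdA : Bd T (sep A g) x := by
    refine ⟨hxT, sep_of_not fun hh => ?_⟩
    exact h.disjOA _ hgx (hh.1 hx)
  have hBdI : Bd T (sep (B ∪ A) g) x := by
    refine ⟨hxT, sep_of_not fun hh => ?_⟩
    rcases hh.1 (Or.inr hx) with h1 | h1
    · exact h.disjOB _ hgx h1
    · exact h.disjOA _ hgx h1
  set y := other (mate ω) (sep A g) x with hydef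
  have hyA : y.1 ∈ A := (conn_sep_mem (Two.conn_other x)).2 hx
  have hyT : y.1 ∈ T := (h.cover _).2 (Or.inr (Or.inl hyA))
  have hyBd : Bd T (sep (B ∪ A) g) y := by
    refine ⟨hyT, sep_of_not fun hh => ?_⟩
    rcases hh.1 (Or.inr hyA) with h1 | h1
    · exact h.disjOB _ hy h1
    · exact h.disjOA _ hy h1
  rw [hGI.other_eq_iff hBdI hyBd]
  refine ⟨hGA.other_ne hBdA, ?_⟩
  -- a connection inside `A`
  have key : ∀ w, Conn (mate ω) (sep A g) x w → Conn (mate ω) (sep (B ∪ A) g) x w := by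
    intro w hw
    induction hw with
    | refl => exact Conn.refl _
    | @tail b c hb h2 ih =>
      have hbA : b.1 ∈ A := (conn_sep_mem hb).2 hx
      refine ih.trans ?_
      rcases h2 with rfl | rfl
      · exact Conn.m_step _
      · by_cases h3 : b.1 ∈ A ↔ (g b).1 ∈ A
        · rw [sep_of_iff h3]
          have h4 : b.1 ∈ B ∪ A ↔ (g b).1 ∈ B ∪ A :=
            ⟨fun _ => Or.inr (h3.1 hbA), fun _ => Or.inr hbA⟩
          rw [← sep_of_iff h4]
          exact Conn.g_step _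
        · rw [sep_of_not h3]
          exact Conn.refl _
  exact key y (Two.conn_other x)

/-- the strand of the only inner end leaves through the crossing strand -/
theorem other_z (h : Side T g B A O) {z a : Half τ} (hz : z.1 ∈ B) (hgz : g z = z)
    (huniq : ∀ x : Half τ, x.1 ∈ B ∪ A → g x = x → x = z) (hc : OneCross g ω A O a) :
    other (mate ω) (sep (B ∪ A) g) z = a ∧ other (mate ω) (sep (B ∪ A) g) a = z := by
  obtain ⟨haA, hgaO, hc⟩ := hc
  have hGI := glu_sep h.glu (B ∪ A)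
  have hzT : z.1 ∈ T := (h.cover _).2 (Or.inl hz)
  have hzBd : Bd T (sep (B ∪ A) g) z := by
    refine ⟨hzT, ?_⟩
    rw [sep_of_iff (by rw [hgz]), hgz]
  set y := other (mate ω) (sep (B ∪ A) g) z with hydef
  have hyBd := hGI.other_bd (ω := ω) hzBd
  have hyI : y.1 ∈ B ∪ A := (conn_sep_mem (Two.conn_other z)).2 (Or.inl hz)
  have hyz : y ≠ z := hGI.other_ne hzBd
  have hyy : other (mate ω) (sep (B ∪ A) g) y = z := hGI.other_other hzBd
  -- `y` is an outer boundary half edge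
  have h1 : ¬ (y.1 ∈ B ∪ A ↔ (g y).1 ∈ B ∪ A) := by
    intro h2
    have h3 : sep (B ∪ A) g y = y := hyBd.2
    rw [sep_of_iff h2] at h3
    exact hyz (huniq y hyI h3)
  have hgyI : (g y).1 ∉ B ∪ A := fun h2 => h1 ⟨fun _ => h2, fun _ => hyI⟩
  have hgyT : (g y).1 ∈ T := h.glu.mem _ ((h.cover _).2 (by
    rcases hyI with h2 | h2
    · exact Or.inl h2
    · exact Or.inr (Or.inl h2)))
  have hgyO : (g y).1 ∈ O := by
    rcases (h.cover _).1 hgyT with h2 | h2 | h2
    · exact absurd (Or.inl h2) hgyI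
    · exact absurd (Or.inr h2) hgyI
    · exact h2
  have hyA : y.1 ∈ A := by
    rcases hyI with h2 | h2
    · have h3 := h.outer _ hgyO
      rw [h.glu.inv] at h3
      exact absurd h2 h3
    · exact h2
  have hya : y = a := by
    by_contra hne
    have h4 := hc y hyA hgyO hne
    have h5 := h.other_of_cross hyA hgyO h4
    rw [hyy] at h5
    rw [← h5, hgz] at h4
    exact h.disjOB _ h4 hz
  exact ⟨hya, by rw [← hya]; exact hyy⟩

end Side

namespace Iso
variable {T : Finset τ} {g : Half τ → Half τ} {ω : Finset τ} {B A O : Set τ}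
  {T' : Finset σ} {g' : Half σ → Half σ} {ω' : Finset σ} {B' A' O' : Set σ} {φ : τ → σ}

lemma side (h : Iso T g ω B A O T' g' ω' B' A' O' φ) (hG : Glu T g) : Side T g B A O :=
  ⟨hG, h.cover, h.disjAB, h.disjOA, h.disjOB, h.outer⟩

lemma side' (h : Iso T g ω B A O T' g' ω' B' A' O' φ) (hG' : Glu T' g') : Side T' g' B' A' O' :=
  ⟨hG', h.cover', h.disjAB', h.disjOA', h.disjOB', h.outer'⟩

lemma hmap_inj (h : Iso T g ω B A O T' g' ω' B' A' O' φ) :
    Set.InjOn (hmap φ) {x : Half τ | x.1 ∈ A ∪ O} := by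
  rintro ⟨t, d⟩ hx ⟨t', d'⟩ hy hxy
  have h1 : φ t = φ t' := congrArg Prod.fst hxy
  have h2 : d = d' := congrArg Prod.snd hxy
  have h3 : t = t' := h.inj hx hy h1
  rw [h3, h2]

/-- the cut gluings of the outside correspond -/
lemma sep_O (h : Iso T g ω B A O T' g' ω' B' A' O' φ) (hG : Glu T g) {x : Half τ} (hx : x.1 ∈ O) :
    sep (B' ∪ A') g' (hmap φ x) = hmap φ (sep (B ∪ A) g x) ∧ (sep (B ∪ A) g x).1 ∈ O := by
  have hxT : x.1 ∈ T := (h.cover _).2 (Or.inr (Or.inr hx))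
  have hxI : x.1 ∉ B ∪ A := fun h1 => h1.elim (h.disjOB _ hx) (h.disjOA _ hx)
  have hφ : (hmap φ x).1 ∈ O' := h.mapO _ hx
  have hφI : (hmap φ x).1 ∉ B' ∪ A' := fun h1 => h1.elim (h.disjOB' _ hφ) (h.disjOA' _ hφ)
  have hgB := h.outer _ hx
  rcases (h.cover _).1 (hG.mem _ hxT) with h1 | h1 | h1
  · exact absurd h1 hgB
  · have h2 := h.glue x (Or.inr hx) (Or.inl h1)
    have h3 : (g' (hmap φ x)).1 ∈ A' := by rw [h2]; exact h.mapA _ h1
    rw [sep_of_not (fun hh => hxI (hh.2 (Or.inr h1))),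
      sep_of_not (fun hh => hφI (hh.2 (Or.inr h3)))]
    exact ⟨rfl, hx⟩
  · have h2 := h.glue x (Or.inr hx) (Or.inr h1)
    have h3 : (g' (hmap φ x)).1 ∈ O' := by rw [h2]; exact h.mapO _ h1
    have h4 : (g x).1 ∉ B ∪ A := fun h5 => h5.elim (h.disjOB _ h1) (h.disjOA _ h1)
    have h6 : (g' (hmap φ x)).1 ∉ B' ∪ A' := fun h5 => h5.elim (h.disjOB' _ h3) (h.disjOA' _ h3)
    rw [sep_of_iff ⟨fun h7 => absurd h7 hxI, fun h7 => absurd h7 h4⟩,
      sep_of_iff ⟨fun h7 => absurd h7 hφI, fun h7 => absurd h7 h6⟩, h2]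
    exact ⟨rfl, h1⟩

/-- the strands of the outside correspond -/
lemma other_O (h : Iso T g ω B A O T' g' ω' B' A' O' φ) (hG : Glu T g) {x : Half τ} (hx : x.1 ∈ O) :
    other (mate ω') (sep (B' ∪ A') g') (hmap φ x) =
      hmap φ (other (mate ω) (sep (B ∪ A) g) x) := by
  refine other_equivariant {y : Half τ | y.1 ∈ O} (hmap φ) ?_ ?_ ?_ hx
  · intro y hy
    exact (h.sep_O hG (x := mate ω y) hy).2
  · exact h.hmap_inj.mono fun y hy => Or.inr hy
  · intro y hy
    rw [h.mate_hmap (Or.inr hy), (h.sep_O hG (x := mate ω y) hy).1]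

/-- the cut gluings of the annulus correspond -/
lemma sep_A (h : Iso T g ω B A O T' g' ω' B' A' O' φ) (hG : Glu T g) {x : Half τ} (hx : x.1 ∈ A) :
    sep A' g' (hmap φ x) = hmap φ (sep A g x) ∧ (sep A g x).1 ∈ A := by
  have hxT : x.1 ∈ T := (h.cover _).2 (Or.inr (Or.inl hx))
  have hφ : (hmap φ x).1 ∈ A' := h.mapA _ hx
  rcases (h.cover _).1 (hG.mem _ hxT) with h1 | h1 | h1
  · have h2 := h.inner x hx h1
    rw [sep_of_not (fun hh => h.disjAB _ (hh.1 hx) h1),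
      sep_of_not (fun hh => h.disjAB' _ (hh.1 hφ) h2)]
    exact ⟨rfl, hx⟩
  · have h2 := h.glue x (Or.inl hx) (Or.inl h1)
    have h3 : (g' (hmap φ x)).1 ∈ A' := by rw [h2]; exact h.mapA _ h1
    rw [sep_of_iff ⟨fun _ => h1, fun _ => hx⟩, sep_of_iff ⟨fun _ => h3, fun _ => hφ⟩, h2]
    exact ⟨rfl, h1⟩
  · have h2 := h.glue x (Or.inl hx) (Or.inr h1)
    have h3 : (g' (hmap φ x)).1 ∈ O' := by rw [h2]; exact h.mapO _ h1
    rw [sep_of_not (fun hh => h.disjOA _ h1 (hh.1 hx)),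
      sep_of_not (fun hh => h.disjOA' _ h3 (hh.1 hφ))]
    exact ⟨rfl, hx⟩

/-- the strands of the annulus correspond -/
lemma other_A (h : Iso T g ω B A O T' g' ω' B' A' O' φ) (hG : Glu T g) {x : Half τ} (hx : x.1 ∈ A) :
    other (mate ω') (sep A' g') (hmap φ x) = hmap φ (other (mate ω) (sep A g) x) := by
  refine other_equivariant {y : Half τ | y.1 ∈ A} (hmap φ) ?_ ?_ ?_ hx
  · intro y hy
    exact (h.sep_A hG (x := mate ω y) hy).2
  · exact h.hmap_inj.mono fun y hy => Or.inl hy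
  · intro y hy
    rw [h.mate_hmap (Or.inl hy), (h.sep_A hG (x := mate ω y) hy).1]

/-- outer boundary half edges of the annulus correspond -/
lemma outer_iff (h : Iso T g ω B A O T' g' ω' B' A' O' φ) (hG : Glu T g) {x : Half τ}
    (hx : x.1 ∈ A) : (g' (hmap φ x)).1 ∈ O' ↔ (g x).1 ∈ O := by
  have hxT : x.1 ∈ T := (h.cover _).2 (Or.inr (Or.inl hx))
  rcases (h.cover _).1 (hG.mem _ hxT) with h1 | h1 | h1
  · have h2 := h.inner x hx h1
    exact ⟨fun h3 => absurd h2 (h.disjOB' _ h3), fun h3 => absurd h1 (h.disjOB _ h3)⟩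
  · have h2 := h.glue x (Or.inl hx) (Or.inl h1)
    have h3 : (g' (hmap φ x)).1 ∈ A' := by rw [h2]; exact h.mapA _ h1
    exact ⟨fun h4 => absurd h3 (h.disjOA' _ h4), fun h4 => absurd h1 (h.disjOA _ h4)⟩
  · have h2 := h.glue x (Or.inl hx) (Or.inr h1)
    have h3 : (g' (hmap φ x)).1 ∈ O' := by rw [h2]; exact h.mapO _ h1
    exact ⟨fun _ => h1, fun _ => h3⟩

lemma oneCross (h : Iso T g ω B A O T' g' ω' B' A' O' φ) (hG : Glu T g) {a : Half τ}
    (hc : OneCross g ω A O a) : OneCross g' ω' A' O' (hmap φ a) := by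
  obtain ⟨haA, hgaO, hc⟩ := hc
  refine ⟨h.mapA _ haA, (h.outer_iff hG haA).2 hgaO, ?_⟩
  rintro ⟨s, d⟩ hs hgs hne
  obtain ⟨t, ht, rfl⟩ := h.surj s hs
  have h1 : hmap φ (t, d) = (φ t, d) := rfl
  rw [← h1] at hgs hne ⊢
  have h2 := (h.outer_iff hG (x := (t, d)) ht).1 hgs
  have h3 := hc (t, d) ht h2 (fun h4 => hne (by rw [h4]))
  rw [h.other_A hG ht, h.outer_iff hG ((conn_sep_mem (Two.conn_other _)).2 ht)]
  exact h3

lemma noCross (h : Iso T g ω B A O T' g' ω' B' A' O' φ) (hG : Glu T g)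
    (hc : NoCross g ω A O) : NoCross g' ω' A' O' := by
  rintro ⟨s, d⟩ hs hgs
  obtain ⟨t, ht, rfl⟩ := h.surj s hs
  have h1 : hmap φ (t, d) = (φ t, d) := rfl
  rw [← h1] at hgs ⊢
  have h2 := (h.outer_iff hG (x := (t, d)) ht).1 hgs
  have h3 := hc (t, d) ht h2
  rw [h.other_A hG ht, h.outer_iff hG ((conn_sep_mem (Two.conn_other _)).2 ht)]
  exact h3

/-- **local change at the interior end**: exactly one strand crosses the annulus.  The ends of the
strands correspond: `z` to `z'`, the other ends through `φ` -/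
theorem other_eq (h : Iso T g ω B A O T' g' ω' B' A' O' φ) (hG : Glu T g) (hG' : Glu T' g')
    {z : Half τ} {z' : Half σ} {a : Half τ} (hz : z.1 ∈ B) (hgz : g z = z)
    (huniq : ∀ x : Half τ, x.1 ∈ B ∪ A → g x = x → x = z) (hz' : z'.1 ∈ B') (hgz' : g' z' = z')
    (huniq' : ∀ x : Half σ, x.1 ∈ B' ∪ A' → g' x = x → x = z') (hc : OneCross g ω A O a) :
    (other (mate ω) g z).1 ∈ O ∧ other (mate ω') g' z' = hmap φ (other (mate ω) g z) := by
  classical
  have hS := h.side hG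
  have hS' := h.side' hG'
  have hzT : z.1 ∈ T := (h.cover _).2 (Or.inl hz)
  have hzBd : Bd T g z := ⟨hzT, hgz⟩
  have hzT' : z'.1 ∈ T' := (h.cover' _).2 (Or.inl hz')
  have hzBd' : Bd T' g' z' := ⟨hzT', hgz'⟩
  have h1 := hS.other_z hz hgz huniq hc
  have h1' := hS'.other_z hz' hgz' huniq' (h.oneCross hG hc)
  obtain ⟨haA, hgaO, hcr⟩ := hc
  -- the end of the strand of `z` is outside
  set e := other (mate ω) g z with he
  have heBd : Bd T g e := hG.other_bd hzBd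
  have heO : e.1 ∈ O := by
    rcases (h.cover _).1 heBd.1 with h2 | h2 | h2
    · exact absurd (huniq e (Or.inl h2) heBd.2) (hG.other_ne hzBd)
    · exact absurd (huniq e (Or.inr h2) heBd.2) (hG.other_ne hzBd)
    · exact h2
  refine ⟨heO, ?_⟩
  -- the map of the ends of the cut surfaces
  let Φ : Half τ → Half σ := fun x => if x = z then z' else hmap φ x
  have hΦz : Φ z = z' := if_pos rfl
  have hΦ : ∀ x : Half τ, x.1 ∈ A ∪ O → Φ x = hmap φ x := by
    intro x hx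
    refine if_neg ?_
    rintro rfl
    rcases hx with h2 | h2
    · exact h.disjAB _ h2 hz
    · exact h.disjOB _ h2 hz
  let P : Set (Half τ) := {x | x = z ∨ (x.1 ∈ A ∧ (g x).1 ∈ O) ∨
    (x.1 ∈ O ∧ sep (B ∪ A) g x = x)}
  have hsepz : sep (B ∪ A) g z = z := by rw [sep_of_iff (by rw [hgz]), hgz]
  have hsepz' : sep (B' ∪ A') g' z' = z' := by rw [sep_of_iff (by rw [hgz']), hgz']
  have hsepA : ∀ x : Half τ, x.1 ∈ A → (g x).1 ∈ O → sep (B ∪ A) g x = x := by
    intro x hx hgx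
    refine sep_of_not fun hh => ?_
    rcases hh.1 (Or.inr hx) with h2 | h2
    · exact h.disjOB _ hgx h2
    · exact h.disjOA _ hgx h2
  have hP : ∀ x ∈ P, sep (B ∪ A) g x = x := by
    rintro x (rfl | ⟨h2, h3⟩ | ⟨h2, h3⟩)
    · exact hsepz
    · exact hsepA x h2 h3
    · exact h3
  have hPo : ∀ x ∈ P, other (mate ω) (sep (B ∪ A) g) x ∈ P := by
    rintro x (rfl | ⟨h2, h3⟩ | ⟨h2, h3⟩)
    · rw [h1.1]; exact Or.inr (Or.inl ⟨haA, hgaO⟩)
    · by_cases hxa : x = a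
      · rw [hxa, h1.2]; exact Or.inl rfl
      · have h4 := hcr x h2 h3 hxa
        rw [hS.other_of_cross h2 h3 h4]
        exact Or.inr (Or.inl ⟨(conn_sep_mem (Two.conn_other _)).2 h2, h4⟩)
    · have hxT : x.1 ∈ T := (h.cover _).2 (Or.inr (Or.inr h2))
      have h4 := (glu_sep hG (B ∪ A)).other_bd (ω := ω) ⟨hxT, h3⟩
      have h5 : (other (mate ω) (sep (B ∪ A) g) x).1 ∉ B ∪ A := by
        intro h6
        have h7 := (conn_sep_mem (Two.conn_other x)).1 h6
        rcases h7 with h8 | h8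
        · exact h.disjOB _ h2 h8
        · exact h.disjOA _ h2 h8
      refine Or.inr (Or.inr ⟨?_, h4.2⟩)
      rcases (h.cover _).1 h4.1 with h6 | h6 | h6
      · exact absurd (Or.inl h6) h5
      · exact absurd (Or.inr h6) h5
      · exact h6
  have hPg : ∀ x ∈ P, g x ∈ P := by
    rintro x (rfl | ⟨h2, h3⟩ | ⟨h2, h3⟩)
    · rw [hgz]; exact Or.inl rfl
    · refine Or.inr (Or.inr ⟨h3, sep_of_not fun hh => ?_⟩)
      rw [hG.inv] at hh
      rcases hh.2 (Or.inr h2) with h4 | h4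
      · exact h.disjOB _ h3 h4
      · exact h.disjOA _ h3 h4
    · by_cases h4 : (g x).1 ∈ O
      · -- then `x` is an end
        have h5 : sep (B ∪ A) g x = g x := by
          refine sep_of_iff ⟨fun h6 => ?_, fun h6 => ?_⟩
          · rcases h6 with h7 | h7
            · exact absurd h7 (h.disjOB _ h2)
            · exact absurd h7 (h.disjOA _ h2)
          · rcases h6 with h7 | h7
            · exact absurd h7 (h.disjOB _ h4)
            · exact absurd h7 (h.disjOA _ h4)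
        have h6 : g x = x := by rw [← h5, h3]
        rw [h6]
        exact Or.inr (Or.inr ⟨h2, h3⟩)
      · have hxT : x.1 ∈ T := (h.cover _).2 (Or.inr (Or.inr h2))
        rcases (h.cover _).1 (hG.mem _ hxT) with h5 | h5 | h5
        · exact absurd h5 (h.outer _ h2)
        · exact Or.inr (Or.inl ⟨h5, by rw [hG.inv]; exact h2⟩)
        · exact absurd h5 h4
  have hQ : ∀ x ∈ P, sep (B' ∪ A') g' (Φ x) = Φ x := by
    rintro x (rfl | ⟨h2, h3⟩ | ⟨h2, h3⟩)
    · rw [hΦz]; exact hsepz'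
    · rw [hΦ x (Or.inl h2)]
      have h4 := (h.outer_iff hG h2).2 h3
      refine sep_of_not fun hh => ?_
      rcases hh.1 (Or.inr (h.mapA _ h2)) with h5 | h5
      · exact h.disjOB' _ h4 h5
      · exact h.disjOA' _ h4 h5
    · rw [hΦ x (Or.inr h2), (h.sep_O hG h2).1, h3]
  have ho : ∀ x ∈ P, other (mate ω') (sep (B' ∪ A') g') (Φ x) =
      Φ (other (mate ω) (sep (B ∪ A) g) x) := by
    rintro x (rfl | ⟨h2, h3⟩ | ⟨h2, h3⟩)
    · rw [hΦz, h1.1, h1'.1, hΦ a (Or.inl haA)]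
    · by_cases hxa : x = a
      · rw [hxa, h1.2, hΦz, hΦ a (Or.inl haA), h1'.2]
      · have h4 := hcr x h2 h3 hxa
        have h5 : (other (mate ω) (sep A g) x).1 ∈ A := (conn_sep_mem (Two.conn_other _)).2 h2
        rw [hS.other_of_cross h2 h3 h4, hΦ x (Or.inl h2), hΦ _ (Or.inl h5), ← h.other_A hG h2]
        refine hS'.other_of_cross (h.mapA _ h2) ((h.outer_iff hG h2).2 h3) ?_
        rw [h.other_A hG h2]
        exact (h.outer_iff hG h5).2 h4
    · have h4 := hPo x (Or.inr (Or.inr ⟨h2, h3⟩))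
      have h5 : (other (mate ω) (sep (B ∪ A) g) x).1 ∈ O := by
        have h6 : (other (mate ω) (sep (B ∪ A) g) x).1 ∉ B ∪ A := by
          intro h6
          rcases (conn_sep_mem (Two.conn_other x)).1 h6 with h8 | h8
          · exact h.disjOB _ h2 h8
          · exact h.disjOA _ h2 h8
        rcases h4 with h7 | ⟨h7, -⟩ | ⟨h7, -⟩
        · rw [h7] at h6; exact absurd (Or.inl hz) h6
        · exact absurd (Or.inr h7) h6
        · exact h7
      rw [hΦ x (Or.inr h2), hΦ _ (Or.inr h5), h.other_O hG h2]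
  have hg : ∀ x ∈ P, g' (Φ x) = Φ (g x) := by
    rintro x (rfl | ⟨h2, h3⟩ | ⟨h2, h3⟩)
    · rw [hΦz, hgz, hΦz, hgz']
    · rw [hΦ x (Or.inl h2), hΦ _ (Or.inr h3), h.glue x (Or.inl h2) (Or.inr h3)]
    · have hxT : x.1 ∈ T := (h.cover _).2 (Or.inr (Or.inr h2))
      rcases (h.cover _).1 (hG.mem _ hxT) with h5 | h5 | h5
      · exact absurd h5 (h.outer _ h2)
      · rw [hΦ x (Or.inr h2), hΦ _ (Or.inl h5), h.glue x (Or.inr h2) (Or.inl h5)]
      · rw [hΦ x (Or.inr h2), hΦ _ (Or.inr h5), h.glue x (Or.inr h2) (Or.inr h5)]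
  have hzP : z ∈ P := Or.inl rfl
  have heP : e ∈ P := by
    refine Or.inr (Or.inr ⟨heO, ?_⟩)
    rw [sep_of_iff (by rw [heBd.2]), heBd.2]
  have hconn := conn_transfer (hG.two ω) ((glu_sep hG (B ∪ A)).two ω) ((glu_sep hG (B ∪ A)).periodic ω)
    (fun x hx => sep_ext hx) (hG'.two ω') ((glu_sep hG' (B' ∪ A')).two ω')
    ((glu_sep hG' (B' ∪ A')).periodic ω') (fun x hx => sep_ext hx) P Φ hP hPo hPg hQ ho hg hzP heP
    (Two.conn_other z)
  rw [hΦz, hΦ e (Or.inr heO)] at hconn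
  have heBd' : Bd T' g' (hmap φ e) := by
    refine ⟨(h.cover' _).2 (Or.inr (Or.inr (h.mapO _ heO))), ?_⟩
    have h2 : (g e).1 ∈ A ∪ O := by rw [heBd.2]; exact Or.inr heO
    rw [h.glue e (Or.inr heO) h2, heBd.2]
  refine (hG'.other_eq_iff hzBd' heBd').2 ⟨?_, hconn⟩
  intro h2
  have h3 : (hmap φ e).1 ∈ O' := h.mapO _ heO
  rw [h2] at h3
  exact h.disjOB' _ h3 hz'

end Iso

end loc

end Full.Loc
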