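import Pool.Agent.Full.Def.Two

/-!
# The orientation of a strand

The strand which starts at the end `e` is oriented from `e` to its other end.  `o x = -1` if the strand
enters through `x`, `o x = 1` if it leaves through `x`, `o x = 0` if `x` is not on the strand.
-/

set_option autoImplicit false

namespace Full
open Function Relation

variable {α : Type*} {m g : α → α}

/-- an orientation of the strand of `e` -/
structure Orn (m g : α → α) (e : α) (o : α → ℤ) : Prop where
  om : ∀ x, o (m x) = - o x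
  og : ∀ x, g x ≠ x → o (g x) = - o x
  start : o e = -1
  fix : ∀ x, g x = x → x ≠ e → x ≠ other m g e → o x = 0
  exit : 0 ≤ o (other m g e)
  val : ∀ x, o x = 0 ∨ o x = 1 ∨ o x = -1
  conn : ∀ x, o x ≠ 0 ↔ Conn m g e x

theorem Two.exists_orn (h : Two m g) {e : α} (he : g e = e) (hp : e ∈ periodicPts (g ∘ m)) :
    ∃ o : α → ℤ, Orn m g e o := by
  classical
  have hpos := Two.period_pos hp
  have heven := h.even he hp
  set n := minimalPeriod (g ∘ m) e with hn
  set o : α → ℤ := fun x => if ∃ k, k < n / 2 ∧ x = (g ∘ m)^[k] e then -1 else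
    if ∃ k, k < n ∧ x = (g ∘ m)^[k] e then 1 else 0 with ho
  have inj : ∀ k l, k < n → l < n → (g ∘ m)^[k] e = (g ∘ m)^[l] e → k = l := by
    intro k l hk hl hkl
    exact (iterate_eq_iterate_iff_of_lt_minimalPeriod (by rw [← hn]; exact hk) (by rw [← hn]; exact hl)).1 hkl
  have o1 : ∀ k, k < n / 2 → o ((g ∘ m)^[k] e) = -1 := by
    intro k hk
    simp only [ho]
    rw [if_pos ⟨k, hk, rfl⟩]
  have o2 : ∀ k, n / 2 ≤ k → k < n → o ((g ∘ m)^[k] e) = 1 := by
    intro k hk hk'
    simp only [ho]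
    rw [if_neg, if_pos ⟨k, hk', rfl⟩]
    rintro ⟨l, hl, hkl⟩
    have := inj k l hk' (by omega) hkl
    omega
  have o3 : ∀ x, ¬ (∃ k, k < n ∧ x = (g ∘ m)^[k] e) → o x = 0 := by
    intro x hx
    simp only [ho]
    rw [if_neg, if_neg hx]
    rintro ⟨k, hk, hkx⟩
    exact hx ⟨k, by omega, hkx⟩
  have om : ∀ x, (∃ k, k < n ∧ x = (g ∘ m)^[k] e) → (∃ k, k < n ∧ m x = (g ∘ m)^[k] e) ∧ o (m x) = - o x := by
    rintro x ⟨k, hk, rfl⟩
    have h1 := h.m_iter he (k := k) (by omega)
    rw [← hn] at h1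
    rw [h1]
    refine ⟨⟨_, by omega, rfl⟩, ?_⟩
    rcases lt_or_ge k (n / 2) with h2 | h2
    · rw [o1 k h2, o2 _ (by omega) (by omega)]; norm_num
    · rw [o2 k h2 hk, o1 _ (by omega)]
  have og : ∀ x, (∃ k, k < n ∧ x = (g ∘ m)^[k] e) → (∃ k, k < n ∧ g x = (g ∘ m)^[k] e) ∧
      (g x ≠ x → o (g x) = - o x) := by
    rintro x ⟨k, hk, rfl⟩
    rcases Nat.eq_zero_or_pos k with rfl | hk0
    · refine ⟨⟨0, hpos, he⟩, fun h1 => absurd he h1⟩
    · have h1 := h.g_iter he (k := k) (by omega)
      rw [← hn] at h1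
      rw [h1]
      refine ⟨⟨_, by omega, rfl⟩, fun h3 => ?_⟩
      rcases lt_trichotomy k (n / 2) with h2 | h2 | h2
      · rw [o1 k h2, o2 _ (by omega) (by omega)]; norm_num
      · exfalso
        apply h3
        congr 2
        omega
      · rw [o2 k h2.le hk, o1 _ (by omega)]
  have hfin : other m g e = (g ∘ m)^[n / 2] e := rfl
  refine ⟨o, ?_, ?_, o1 0 (by omega), ?_, ?_, ?_, ?_⟩
  · intro x
    by_cases hx : ∃ k, k < n ∧ x = (g ∘ m)^[k] e
    · exact (om x hx).2
    · rw [o3 x hx, o3 (m x), neg_zero]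
      intro h1
      apply hx
      have := (om (m x) h1).1
      rwa [h.m_inv] at this
  · intro x hgx
    by_cases hx : ∃ k, k < n ∧ x = (g ∘ m)^[k] e
    · exact (og x hx).2 hgx
    · rw [o3 x hx, o3 (g x), neg_zero]
      intro h1
      apply hx
      have := (og (g x) h1).1
      rwa [h.g_inv] at this
  · intro x hgx hne hne'
    apply o3
    rintro ⟨k, hk, rfl⟩
    rcases h.eq_or_eq_other he hp hgx (Conn.iter k e) with h1 | h1
    · exact hne h1
    · exact hne' h1
  · rw [hfin, o2 _ le_rfl (by omega)]; norm_num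
  · intro x
    simp only [ho]
    split_ifs
    · right; right; rfl
    · right; left; rfl
    · left; rfl
  · intro x
    constructor
    · intro h1
      by_contra h2
      apply h1
      apply o3
      rintro ⟨k, hk, rfl⟩
      exact h2 (Conn.iter k e)
    · intro h1 h2
      obtain ⟨k, hk, rfl⟩ := h.exists_iter he hp h1
      rcases lt_or_ge k (n / 2) with h3 | h3
      · rw [o1 k h3] at h2; norm_num at h2
      · rw [o2 k h3 hk] at h2; norm_num at h2

end Full
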