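import Pool.Agent.Full.Def.Inst
import Pool.Agent.Full.Loc.Out

/-!
# The dislocated plane and the developing map of the complement of the strand of `z`

In the dislocated plane the upper side of the tile `(0, -1)` is left over: it is the end `z0`.  The tiles
`(i, -1)`, `i > 0`, are below the tiles `(i - 1, 0)`.
-/

set_option autoImplicit false
set_option linter.unusedSimpArgs false

namespace Full.Loc
open Relation Finset

/-- the dislocated plane -/
def disl : Surf (ℤ × ℤ) where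
  r := (Equiv.prodCongr (Equiv.addRight (1 : ℤ)) (Equiv.refl ℤ)).toPEquiv
  u :=
    { toFun := fun t => if t.2 = -1 then (if t.1 < 0 then some (t.1, 0) else if t.1 = 0 then none
        else some (t.1 - 1, 0)) else some (t.1, t.2 + 1)
      invFun := fun t => if t.2 = 0 then (if t.1 < 0 then some (t.1, -1) else some (t.1 + 1, -1))
        else some (t.1, t.2 - 1)
      inv := by
        rintro ⟨i, j⟩ ⟨i', j'⟩
        dsimp only
        split_ifs <;> simp <;> omega }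

lemma disl_E (i j : ℤ) : disl.nb .E (i, j) = some (i + 1, j) := by
  simp [Surf.nb, disl, Equiv.toPEquiv_apply]

lemma disl_N (i j : ℤ) : disl.nb .N (i, j) = if j = -1 then (if i < 0 then some (i, 0) else
    if i = 0 then none else some (i - 1, 0)) else some (i, j + 1) := rfl

/-- the box `[-R, R) × [-R, R)` -/
noncomputable def Bx (R : ℤ) : Finset (ℤ × ℤ) := Finset.Ico (-R) R ×ˢ Finset.Ico (-R) R

lemma mem_Bx {R : ℤ} {t : ℤ × ℤ} : t ∈ Bx R ↔ (-R ≤ t.1 ∧ t.1 < R) ∧ -R ≤ t.2 ∧ t.2 < R := by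
  unfold Bx
  rw [mem_product, mem_Ico, mem_Ico]

/-- the gluing of the dislocated box -/
noncomputable def gD (R : ℤ) : Half (ℤ × ℤ) → Half (ℤ × ℤ) := disl.glue (Bx R)

/-- the end in the centre -/
def z0 : Half (ℤ × ℤ) := ((0, -1), .N)

theorem glu_gD (R : ℤ) : Glu (Bx R) (gD R) := Surf.glu _ _

section glue
variable {R i j : ℤ}

lemma gD_E (h : (i, j) ∈ Bx R) (h' : (i + 1, j) ∈ Bx R) : gD R ((i, j), .E) = ((i + 1, j), .W) :=
  Surf.glue_of_mem (by rw [disl_E]; rfl) h h'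

lemma gD_N (hj : j ≠ -1) (h : (i, j) ∈ Bx R) (h' : (i, j + 1) ∈ Bx R) :
    gD R ((i, j), .N) = ((i, j + 1), .S) :=
  Surf.glue_of_mem (by rw [disl_N, if_neg hj]; rfl) h h'

lemma gD_left (hi : i < 0) (h : (i, -1) ∈ Bx R) : gD R ((i, -1), .N) = ((i, 0), .S) :=
  Surf.glue_of_mem (by rw [disl_N, if_pos rfl, if_pos hi]; rfl) h (by rw [mem_Bx] at h ⊢; simp only at h ⊢; omega)

lemma gD_right (hi : 0 < i) (h : (i, -1) ∈ Bx R) : gD R ((i, -1), .N) = ((i - 1, 0), .S) :=
  Surf.glue_of_mem (by rw [disl_N, if_pos rfl, if_neg (by omega), if_neg (by omega)]; rfl) h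
    (by rw [mem_Bx] at h ⊢; simp only at h ⊢; omega)

lemma gD_z : gD R z0 = z0 := by
  unfold gD z0 Surf.glue
  simp only
  rw [disl_N, if_pos rfl, if_neg (by omega), if_pos rfl]

/-- the glued half edges in the directions `E` and `N` -/
lemma gD_cases {x : Half (ℤ × ℤ)} (h : gD R x ≠ x) :
    (∃ i j, (i, j) ∈ Bx R ∧ (i + 1, j) ∈ Bx R ∧
      ((x = ((i, j), .E) ∧ gD R x = ((i + 1, j), .W)) ∨ (x = ((i + 1, j), .W) ∧ gD R x = ((i, j), .E)))) ∨
    (∃ i j, j ≠ -1 ∧ (i, j) ∈ Bx R ∧ (i, j + 1) ∈ Bx R ∧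
      ((x = ((i, j), .N) ∧ gD R x = ((i, j + 1), .S)) ∨ (x = ((i, j + 1), .S) ∧ gD R x = ((i, j), .N)))) ∨
    (∃ i, i < 0 ∧ (i, -1) ∈ Bx R ∧
      ((x = ((i, -1), .N) ∧ gD R x = ((i, 0), .S)) ∨ (x = ((i, 0), .S) ∧ gD R x = ((i, -1), .N)))) ∨
    (∃ i, 0 < i ∧ (i, -1) ∈ Bx R ∧
      ((x = ((i, -1), .N) ∧ gD R x = ((i - 1, 0), .S)) ∨
        (x = ((i - 1, 0), .S) ∧ gD R x = ((i, -1), .N)))) := by
  -- directions `E` and `N`
  have key : ∀ x : Half (ℤ × ℤ), gD R x ≠ x → (x.2 = .E ∨ x.2 = .N) →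
      (∃ i j, (i, j) ∈ Bx R ∧ (i + 1, j) ∈ Bx R ∧ x = ((i, j), .E) ∧ gD R x = ((i + 1, j), .W)) ∨
      (∃ i j, j ≠ -1 ∧ (i, j) ∈ Bx R ∧ (i, j + 1) ∈ Bx R ∧ x = ((i, j), .N) ∧
        gD R x = ((i, j + 1), .S)) ∨
      (∃ i, i < 0 ∧ (i, -1) ∈ Bx R ∧ x = ((i, -1), .N) ∧ gD R x = ((i, 0), .S)) ∨
      (∃ i, 0 < i ∧ (i, -1) ∈ Bx R ∧ x = ((i, -1), .N) ∧ gD R x = ((i - 1, 0), .S)) := by
    rintro ⟨⟨i, j⟩, d⟩ hx hd
    obtain ⟨t', h1, h2, h3⟩ := Surf.glue_ne_iff.1 hx
    simp only at h1 h2 h3 hd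
    rcases hd with rfl | rfl
    · left
      rw [disl_E] at h1
      have h4 : (i + 1, j) = t' := Option.some_injective _ h1
      subst h4
      exact ⟨i, j, h2, h3, rfl, gD_E h2 h3⟩
    · right
      rw [disl_N] at h1
      split_ifs at h1 with h5 h6 h7
      · subst h5
        right; left
        exact ⟨i, h6, h2, rfl, gD_left h6 h2⟩
      · exact absurd h1 (by simp)
      · subst h5
        right; right
        exact ⟨i, by omega, h2, rfl, gD_right (by omega) h2⟩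
      · left
        have h4 : (i, j + 1) = t' := Option.some_injective _ h1
        subst h4
        exact ⟨i, j, h5, h2, h3, rfl, gD_N h5 h2 h3⟩
  have hopp : (gD R x).2 = x.2.opp := Surf.straight_glue disl (Bx R) x h
  have hinv : gD R (gD R x) = x := (glu_gD R).inv x
  rcases h2 : x.2 with _ | _ | _ | _
  · rcases key x h (Or.inl h2) with ⟨i, j, a, b, c, d⟩ | ⟨i, j, a, b, c, d, e⟩ | ⟨i, a, b, c, d⟩ | ⟨i, a, b, c, d⟩
    · exact Or.inl ⟨i, j, a, b, Or.inl ⟨c, d⟩⟩
    · exact Or.inr (Or.inl ⟨i, j, a, b, c, Or.inl ⟨d, e⟩⟩)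
    · exact Or.inr (Or.inr (Or.inl ⟨i, a, b, Or.inl ⟨c, d⟩⟩))
    · exact Or.inr (Or.inr (Or.inr ⟨i, a, b, Or.inl ⟨c, d⟩⟩))
  · rcases key x h (Or.inr h2) with ⟨i, j, a, b, c, d⟩ | ⟨i, j, a, b, c, d, e⟩ | ⟨i, a, b, c, d⟩ | ⟨i, a, b, c, d⟩
    · exact Or.inl ⟨i, j, a, b, Or.inl ⟨c, d⟩⟩
    · exact Or.inr (Or.inl ⟨i, j, a, b, c, Or.inl ⟨d, e⟩⟩)
    · exact Or.inr (Or.inr (Or.inl ⟨i, a, b, Or.inl ⟨c, d⟩⟩))
    · exact Or.inr (Or.inr (Or.inr ⟨i, a, b, Or.inl ⟨c, d⟩⟩))
  all_goals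
    have h3 : gD R (gD R x) ≠ gD R x := by rw [hinv]; exact h.symm
    have h4 : (gD R x).2 = .E ∨ (gD R x).2 = .N := by
      rw [hopp, h2]
      first
        | exact Or.inl rfl
        | exact Or.inr rfl
    rcases key (gD R x) h3 h4 with ⟨i, j, a, b, c, d⟩ | ⟨i, j, a, b, c, d, e⟩ | ⟨i, a, b, c, d⟩ | ⟨i, a, b, c, d⟩
    · rw [hinv] at d
      exact Or.inl ⟨i, j, a, b, Or.inr ⟨d, c⟩⟩
    · rw [hinv] at e
      exact Or.inr (Or.inl ⟨i, j, a, b, c, Or.inr ⟨e, d⟩⟩)
    · rw [hinv] at d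
      exact Or.inr (Or.inr (Or.inl ⟨i, a, b, Or.inr ⟨d, c⟩⟩))
    · rw [hinv] at d
      exact Or.inr (Or.inr (Or.inr ⟨i, a, b, Or.inr ⟨d, c⟩⟩))

end glue

/-! ### the developing map -/

/-- the abscissa of the tail of a half edge -/
def px (x : Half (ℤ × ℤ)) : ℤ := match x.2 with
  | .S => x.1.1 | .E => x.1.1 + 1 | .N => x.1.1 + 1 | .W => x.1.1

/-- the ordinate of the tail of a half edge -/
def py (x : Half (ℤ × ℤ)) : ℤ := match x.2 with
  | .S => x.1.2 | .E => x.1.2 | .N => x.1.2 + 1 | .W => x.1.2 + 1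

/-- the vector of a side of a tile -/
def svx : Dir → ℤ
  | .S => 1 | .E => 0 | .N => -1 | .W => 0

/-- the vector of a side of a tile -/
def svy : Dir → ℤ
  | .S => 0 | .E => 1 | .N => 0 | .W => -1

/-- the potential at the lower left corner of a tile -/
noncomputable def pot (R : ℤ) (o : Half (ℤ × ℤ) → ℤ) (t : ℤ × ℤ) : ℤ :=
  -(∑ i ∈ Finset.Ico (-R) t.1, o ((i, t.2), .S)) + ∑ j ∈ Finset.Ico (-R) t.2, o ((-R, j), .W)

/-- the potential at the tail of a half edge -/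
noncomputable def shf (R : ℤ) (o : Half (ℤ × ℤ) → ℤ) (x : Half (ℤ × ℤ)) : ℤ := match x.2 with
  | .S => pot R o x.1
  | .E => pot R o x.1 - o (x.1, .S)
  | .N => pot R o x.1 + o (x.1, .W) + o (x.1, .N)
  | .W => pot R o x.1 + o (x.1, .W)

/-- the developing map at the tail of a half edge -/
noncomputable def dev (R : ℤ) (o : Half (ℤ × ℤ) → ℤ) (x : Half (ℤ × ℤ)) : ℤ × ℤ :=
  (px x + shf R o x, py x)

/-- the image of a tile -/
noncomputable def devT (R : ℤ) (o : Half (ℤ × ℤ) → ℤ) (t : ℤ × ℤ) : ℤ × ℤ := (t.1 + pot R o t, t.2)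

lemma sum_Ico_int {a i : ℤ} (h : a ≤ i) (f : ℤ → ℤ) :
    ∑ k ∈ Finset.Ico a (i + 1), f k = ∑ k ∈ Finset.Ico a i, f k + f i := by
  have e : Finset.Ico a (i + 1) = insert i (Finset.Ico a i) := by
    ext k
    simp only [mem_insert, mem_Ico]
    omega
  rw [e, sum_insert (by simp), add_comm]

section dev
variable {R : ℤ} {o : Half (ℤ × ℤ) → ℤ}

lemma pot_right {i j : ℤ} (hi : -R ≤ i) : pot R o (i + 1, j) = pot R o (i, j) - o ((i, j), .S) := by
  unfold pot
  simp only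
  rw [sum_Ico_int hi (fun i => o ((i, j), .S))]
  ring

lemma pot_left {j : ℤ} (hj : -R ≤ j) : pot R o (-R, j + 1) = pot R o (-R, j) + o ((-R, j), .W) := by
  unfold pot
  simp only [Finset.Ico_self, Finset.sum_empty]
  rw [sum_Ico_int hj (fun j => o ((-R, j), .W))]
  ring

/-- `o` is an orientation of a strand of the box -/
structure OB (R : ℤ) (ω : Finset (ℤ × ℤ)) (o : Half (ℤ × ℤ) → ℤ) : Prop where
  om : ∀ x, o (mate ω x) = - o x
  og : ∀ x, gD R x ≠ x → o (gD R x) = - o x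
  st : o z0 = -1
  val : ∀ x, o x = 0 ∨ o x = 1 ∨ o x = -1

variable {ω : Finset (ℤ × ℤ)} (h : OB R ω o)
include h

/-- no sources inside a tile -/
lemma OB.flow (t : ℤ × ℤ) : o (t, .E) + o (t, .N) + o (t, .W) + o (t, .S) = 0 := by
  have h1 := h.om (t, .W)
  have h2 := h.om (t, .E)
  unfold mate at h1 h2
  simp only at h1 h2
  cases hb : decide (t ∈ ω) <;> rw [hb] at h1 h2 <;> simp only [Dir.mt] at h1 h2 <;> omega

lemma OB.oE {i j : ℤ} (h1 : (i, j) ∈ Bx R) (h2 : (i + 1, j) ∈ Bx R) :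
    o ((i + 1, j), .W) = - o ((i, j), .E) := by
  have h3 := h.og ((i, j), .E) (by rw [gD_E h1 h2]; simp)
  rwa [gD_E h1 h2] at h3

lemma OB.oN {i j : ℤ} (hj : j ≠ -1) (h1 : (i, j) ∈ Bx R) (h2 : (i, j + 1) ∈ Bx R) :
    o ((i, j + 1), .S) = - o ((i, j), .N) := by
  have h3 := h.og ((i, j), .N) (by rw [gD_N hj h1 h2]; simp)
  rwa [gD_N hj h1 h2] at h3

lemma OB.oL {i : ℤ} (hi : i < 0) (h1 : (i, -1) ∈ Bx R) : o ((i, 0), .S) = - o ((i, -1), .N) := by
  have h3 := h.og ((i, -1), .N) (by rw [gD_left hi h1]; simp)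
  rwa [gD_left hi h1] at h3

lemma OB.oR {i : ℤ} (hi : 0 ≤ i) (h1 : (i + 1, -1) ∈ Bx R) : o ((i, 0), .S) = - o ((i + 1, -1), .N) := by
  have h3 := h.og ((i + 1, -1), .N) (by rw [gD_right (by omega) h1]; simp)
  rw [gD_right (by omega) h1, add_sub_cancel_right] at h3
  exact h3

/-- the potential at the upper left corner of a tile, seen from the right -/
lemma OB.col {i j : ℤ} (h1 : (i, j) ∈ Bx R) (h2 : (i + 1, j) ∈ Bx R) :
    pot R o (i + 1, j) + o ((i + 1, j), .W) = pot R o (i, j) + o ((i, j), .W) + o ((i, j), .N) := by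
  have h3 := h.flow (i, j)
  have h4 := h.oE h1 h2
  have h5 := (mem_Bx.1 h1).1.1
  simp only at h5
  rw [pot_right h5]
  omega

/-- the potential at a point of a horizontal line, seen from below and from above -/
lemma OB.up {j : ℤ} (hj : j ≠ -1) (n : ℕ) : (-R + (n : ℤ), j) ∈ Bx R → (-R + (n : ℤ), j + 1) ∈ Bx R →
    pot R o (-R + n, j + 1) = pot R o (-R + n, j) + o ((-R + n, j), .W) := by
  induction n with
  | zero =>
    intro h1 h2
    rw [mem_Bx] at h1
    simp only [Nat.cast_zero, add_zero]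
    exact pot_left h1.2.1
  | succ n ih =>
    intro h1 h2
    have g1 : (-R + (n : ℤ), j) ∈ Bx R := by rw [mem_Bx] at h1 ⊢; push_cast at h1 ⊢; omega
    have g2 : (-R + (n : ℤ), j + 1) ∈ Bx R := by rw [mem_Bx] at h2 ⊢; push_cast at h2 ⊢; omega
    have e : -R + ((n + 1 : ℕ) : ℤ) = (-R + n) + 1 := by push_cast; ring
    rw [e] at h1 h2 ⊢
    rw [h.col g1 h1, pot_right (by omega), ih g1 g2, h.oN hj g1 g2]
    ring

lemma OB.up0 (n : ℕ) : (-R + (n : ℤ), -1) ∈ Bx R → -R + (n : ℤ) ≤ 0 →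
    pot R o (-R + n, 0) = pot R o (-R + n, -1) + o ((-R + n, -1), .W) := by
  induction n with
  | zero =>
    intro h1 h2
    rw [mem_Bx] at h1
    simp only [Nat.cast_zero, add_zero]
    exact pot_left (j := -1) h1.2.1
  | succ n ih =>
    intro h1 h2
    have g1 : (-R + (n : ℤ), -1) ∈ Bx R := by rw [mem_Bx] at h1 ⊢; push_cast at h1 ⊢; omega
    have e : -R + ((n + 1 : ℕ) : ℤ) = (-R + n) + 1 := by push_cast; ring
    rw [e] at h1 h2 ⊢
    rw [h.col g1 h1, pot_right (by omega), ih g1 (by omega), h.oL (by omega) g1]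
    ring

/-- below and above, away from the line of `z` -/
lemma OB.vert {i j : ℤ} (hj : j ≠ -1) (h1 : (i, j) ∈ Bx R) (h2 : (i, j + 1) ∈ Bx R) :
    pot R o (i, j + 1) = pot R o (i, j) + o ((i, j), .W) := by
  have h3 := mem_Bx.1 h1
  obtain ⟨n, hn⟩ : ∃ n : ℕ, i = -R + n := ⟨(i + R).toNat, by simp only at h3; omega⟩
  subst hn
  exact h.up hj n h1 h2

/-- on the left of `z` -/
lemma OB.vertL {i : ℤ} (hi : i ≤ 0) (h1 : (i, -1) ∈ Bx R) :
    pot R o (i, 0) = pot R o (i, -1) + o ((i, -1), .W) := by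
  have h3 := mem_Bx.1 h1
  obtain ⟨n, hn⟩ : ∃ n : ℕ, i = -R + n := ⟨(i + R).toNat, by simp only at h3; omega⟩
  subst hn
  exact h.up0 n h1 hi

/-- on the right of `z` -/
lemma OB.vertR (n : ℕ) : ((n : ℤ) + 1, -1) ∈ Bx R →
    pot R o (n, 0) = pot R o (n + 1, -1) + o (((n : ℤ) + 1, -1), .W) + 1 := by
  induction n with
  | zero =>
    intro h1
    have g1 : ((0 : ℤ), (-1 : ℤ)) ∈ Bx R := by rw [mem_Bx] at h1 ⊢; push_cast at h1 ⊢; omega
    have h2 := h.vertL le_rfl g1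
    have h3 := h.st
    unfold z0 at h3
    have h4 := h.col g1 (show ((0 : ℤ) + 1, (-1 : ℤ)) ∈ Bx R by simpa using h1)
    rw [zero_add] at h4
    push_cast
    rw [h4, h2, h3]
    ring
  | succ n ih =>
    intro h1
    have g1 : ((n : ℤ) + 1, -1) ∈ Bx R := by rw [mem_Bx] at h1 ⊢; push_cast at h1 ⊢; omega
    have h3 := mem_Bx.1 g1
    push_cast at h1 ⊢
    rw [h.col g1 h1, pot_right (by simp only at h3; omega), ih g1, h.oR (by omega) g1]
    ring

/-- along a side of a tile -/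
lemma OB.shf_rho (x : Half (ℤ × ℤ)) : shf R o (rho x) = shf R o x - o x := by
  obtain ⟨t, d⟩ := x
  have := h.flow t
  cases d <;> unfold shf rho <;> simp only [Dir.ccw] <;> omega

omit h in
/-- the vector of the side of a tile -/
lemma px_rho (x : Half (ℤ × ℤ)) : px (rho x) = px x + svx x.2 ∧ py (rho x) = py x + svy x.2 := by
  obtain ⟨t, d⟩ := x
  cases d <;> simp [px, py, rho, Dir.ccw, svx, svy]

/-- **the developing map is defined on the glued corners** -/
theorem OB.dev_glue {x : Half (ℤ × ℤ)} (hx : gD R x ≠ x) : dev R o (gD R x) = dev R o (rho x) := by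
  -- the second end of the side
  have key : ∀ y : Half (ℤ × ℤ), gD R y ≠ y → (gD R y).2 = y.2.opp →
      dev R o (gD R y) = dev R o (rho y) → dev R o y = dev R o (rho (gD R y)) := by
    intro y hy hd hy2
    have h1 := h.shf_rho y
    have h2 := h.shf_rho (gD R y)
    have h3 := h.og y hy
    have h4 := px_rho y
    have h5 := px_rho (gD R y)
    rw [hd] at h5
    unfold dev at hy2 ⊢
    rw [Prod.mk.injEq] at hy2 ⊢
    rcases hyd : y.2 with _ | _ | _ | _ <;> rw [hyd] at h4 h5 <;> simp only [Dir.opp, svx, svy] at h4 h5 <;> omega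
  have hst := Surf.straight_glue disl (Bx R)
  rcases gD_cases hx with ⟨i, j, h1, h2, ⟨h3, h4⟩ | ⟨h3, h4⟩⟩ | ⟨i, j, hj, h1, h2, ⟨h3, h4⟩ | ⟨h3, h4⟩⟩ |
    ⟨i, hi, h1, ⟨h3, h4⟩ | ⟨h3, h4⟩⟩ | ⟨i, hi, h1, ⟨h3, h4⟩ | ⟨h3, h4⟩⟩
  · rw [h4, h3]
    have := h.col h1 h2
    unfold dev px py shf rho
    simp only [Dir.ccw, Prod.mk.injEq, and_true]
    omega
  · have h5 := gD_E h1 h2
    have := key ((i, j), .E) (by rw [h5]; simp) (hst _ (by show gD R _ ≠ _; rw [h5]; simp)) (by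
      rw [h5]
      have := h.col h1 h2
      unfold dev px py shf rho
      simp only [Dir.ccw, Prod.mk.injEq, and_true]
      omega)
    rw [h5] at this
    rw [h4, h3]
    exact this
  · rw [h4, h3]
    have := h.vert hj h1 h2
    unfold dev px py shf rho
    simp only [Dir.ccw, Prod.mk.injEq, and_true]
    omega
  · have h5 := gD_N hj h1 h2
    have := key ((i, j), .N) (by rw [h5]; simp) (hst _ (by show gD R _ ≠ _; rw [h5]; simp)) (by
      rw [h5]
      have := h.vert hj h1 h2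
      unfold dev px py shf rho
      simp only [Dir.ccw, Prod.mk.injEq, and_true]
      omega)
    rw [h5] at this
    rw [h4, h3]
    exact this
  · rw [h4, h3]
    have := h.vertL hi.le h1
    unfold dev px py shf rho
    simp only [Dir.ccw, Prod.mk.injEq, and_true]
    omega
  · have h5 := gD_left hi h1
    have := key ((i, -1), .N) (by rw [h5]; simp) (hst _ (by show gD R _ ≠ _; rw [h5]; simp)) (by
      rw [h5]
      have := h.vertL hi.le h1
      unfold dev px py shf rho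
      simp only [Dir.ccw, Prod.mk.injEq, and_true]
      omega)
    rw [h5] at this
    rw [h4, h3]
    exact this
  all_goals
    obtain ⟨n, hn⟩ : ∃ n : ℕ, i = n + 1 := ⟨(i - 1).toNat, by omega⟩
    subst hn
    have h6 := h.vertR n h1
  · rw [add_sub_cancel_right] at h4
    rw [h4, h3]
    unfold dev px py shf rho
    simp only [Dir.ccw, Prod.mk.injEq, and_true]
    omega
  · rw [add_sub_cancel_right] at h3
    have h5 := gD_right hi h1
    rw [add_sub_cancel_right] at h5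
    have := key (((n : ℤ) + 1, -1), .N) (by rw [h5]; simp) (hst _ (by show gD R _ ≠ _; rw [h5]; simp)) (by
      rw [h5]
      unfold dev px py shf rho
      simp only [Dir.ccw, Prod.mk.injEq, and_true]
      omega)
    rw [h5] at this
    rw [h4, h3]
    exact this

/-- along a row -/
lemma OB.row {i j : ℤ} (hi : -R ≤ i) (n : ℕ) : |pot R o (i + n, j) - pot R o (i, j)| ≤ n := by
  induction n with
  | zero => simp
  | succ n ih =>
    have e : i + ((n + 1 : ℕ) : ℤ) = (i + n) + 1 := by push_cast; ring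
    have h1 := h.val ((i + n, j), .S)
    rw [e, pot_right (by omega)]
    rw [abs_le] at ih ⊢
    push_cast
    omega

/-- **the developing map is injective on the tiles which are not visited** -/
theorem OB.inj {t t' : ℤ × ℤ} (ht : t ∈ Bx R) (ht' : t' ∈ Bx R) (h1 : ∀ d, o (t, d) = 0)
    (h2 : ∀ d, o (t', d) = 0) (he : devT R o t = devT R o t') : t = t' := by
  have key : ∀ (i i' j : ℤ), (i, j) ∈ Bx R → o ((i, j), .S) = 0 → i < i' →
      i + pot R o (i, j) < i' + pot R o (i', j) := by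
    intro i i' j hi ho hii
    rw [mem_Bx] at hi
    obtain ⟨n, hn⟩ : ∃ n : ℕ, i' = i + 1 + n := ⟨(i' - i - 1).toNat, by omega⟩
    subst hn
    have h3 := h.row (i := i + 1) (j := j) (by simp only at hi; omega) n
    have h4 := pot_right (o := o) (j := j) hi.1.1
    simp only at h4
    rw [ho] at h4
    rw [abs_le] at h3
    omega
  obtain ⟨i, j⟩ := t
  obtain ⟨i', j'⟩ := t'
  unfold devT at he
  simp only [Prod.mk.injEq] at he ⊢
  obtain ⟨he, rfl⟩ := he
  rcases lt_trichotomy i i' with h3 | h3 | h3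
  · have := key i i' j ht (h1 .S) h3
    omega
  · exact ⟨h3, rfl⟩
  · have := key i' i j ht' (h2 .S) h3
    omega

/-- the potential near the centre -/
theorem OB.centre {i j r : ℤ} (hr : r < R) (ht : (i, j) ∈ Bx r) :
    |pot R o (i, j) - pot R o (0, 0)| ≤ 2 * r + 2 := by
  have ht' := mem_Bx.1 ht
  simp only at ht'
  -- along rows
  have hrow : ∀ i i' j : ℤ, -R ≤ i → -R ≤ i' → |pot R o (i, j) - pot R o (i', j)| ≤ |i - i'| := by
    intro i i' j h1 h2
    rcases le_total i i' with h3 | h3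
    · obtain ⟨n, hn⟩ : ∃ n : ℕ, i' = i + n := ⟨(i' - i).toNat, by omega⟩
      subst hn
      have h4 := h.row (j := j) h1 n
      rw [abs_le] at h4
      rcases abs_cases (i - (i + n)) with ⟨h5, h6⟩ | ⟨h5, h6⟩ <;> rw [h5, abs_le] <;> omega
    · obtain ⟨n, hn⟩ : ∃ n : ℕ, i = i' + n := ⟨(i - i').toNat, by omega⟩
      subst hn
      have h4 := h.row (j := j) h2 n
      rw [abs_le] at h4
      rcases abs_cases (i' + n - i') with ⟨h5, h6⟩ | ⟨h5, h6⟩ <;> rw [h5, abs_le] <;> omega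
  -- the column of the tile `(0, 0)`, upwards
  have hup : ∀ n : ℕ, (n : ℤ) < R → |pot R o (0, n) - pot R o (0, 0)| ≤ n := by
    intro n
    induction n with
    | zero => intro _; simp
    | succ n ih =>
      intro hn
      push_cast at hn ⊢
      have h1 := h.vert (i := 0) (j := n) (by omega) (by rw [mem_Bx]; simp only; omega)
        (by rw [mem_Bx]; simp only; omega)
      have h2 := h.val ((0, (n : ℤ)), .W)
      have h3 := ih (by omega)
      rw [h1]
      rw [abs_le] at h3 ⊢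
      omega
  -- the column of the tile `(-1, -1)`, downwards
  have hdown : ∀ n : ℕ, (n : ℤ) < R → |pot R o (-1, -1 - n) - pot R o (-1, -1)| ≤ n := by
    intro n
    induction n with
    | zero => intro _; simp
    | succ n ih =>
      intro hn
      push_cast at hn ⊢
      have h1 := h.vert (i := -1) (j := -1 - (n + 1)) (by omega) (by rw [mem_Bx]; simp only; omega)
        (by rw [mem_Bx]; simp only; omega)
      have e : -1 - ((n : ℤ) + 1) + 1 = -1 - n := by ring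
      rw [e] at h1
      have h2 := h.val ((-1, -1 - ((n : ℤ) + 1)), .W)
      have h3 := ih (by omega)
      rw [abs_le] at h3 ⊢
      omega
  rcases le_or_gt 0 j with hj | hj
  · obtain ⟨n, hn⟩ : ∃ n : ℕ, j = n := ⟨j.toNat, by omega⟩
    subst hn
    have h1 := hrow i 0 n (by omega) (by omega)
    have h2 := hup n (by omega)
    rw [sub_zero] at h1
    have h3 : |i| ≤ r := abs_le.2 ⟨by omega, by omega⟩
    have h4 := abs_le.1 (h1.trans h3)
    rw [abs_le] at h2 ⊢
    omega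
  · obtain ⟨n, hn⟩ : ∃ n : ℕ, j = -1 - n := ⟨(-1 - j).toNat, by omega⟩
    subst hn
    have h1 := hrow i (-1) (-1 - n) (by omega) (by omega)
    have h2 := hdown n (by omega)
    have h5 := h.vertL (i := -1) (by omega) (by rw [mem_Bx]; simp only; omega)
    have h6 := h.val ((-1, -1), .W)
    have h7 := hrow (-1) 0 0 (by omega) (by omega)
    have h3 : |i - -1| ≤ r := abs_le.2 ⟨by omega, by omega⟩
    have h4 := abs_le.1 (h1.trans h3)
    have h8 : |(-1 : ℤ) - 0| ≤ 1 := by norm_num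
    have h9 := abs_le.1 (h7.trans h8)
    rw [abs_le] at h2 ⊢
    omega

end dev

end Full.Loc
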