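import Pool.Agent.Helper69.RSW.Prob

/-!
# Exploration: the bits outside of the explored set are fresh
-/

set_option autoImplicit false

namespace Full
open Pool.Agent.Helper69.RSW (P P_sum P_indep P_restrict P_congr P_mono P_true P_nonneg Dep)

variable {E : Type*} [DecidableEq E]

/-- `V ω` is an explored set: it is determined by the bits in it.  If the event `A G` uses only the bits
in `G` and has probability at most `q` for `G = T \ V ω` and every `ω`, then the event
`A (T \ V ω)` has probability at most `q`. -/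
theorem P_explore (T : Finset E) (V : Finset E → Finset E) (hV : ∀ ω ⊆ T, V ω ⊆ T)
    (hloc : ∀ ω ω', ω ⊆ T → ω' ⊆ T → ω' ∩ V ω = ω ∩ V ω → V ω' = V ω)
    (A : Finset E → Finset E → Prop) (hA : ∀ G, Dep G (A G)) {q : ℝ}
    (hq : ∀ ω ⊆ T, P (T \ V ω) (A (T \ V ω)) ≤ q) : P T (fun ω => A (T \ V ω) ω) ≤ q := by
  classical
  set D : Finset E → Finset E × Finset E := fun ω => (V ω, ω ∩ V ω) with hD
  set I := T.powerset.image D with hI
  have hmem : ∀ S ⊆ T, D S ∈ I := fun S hS =>
    Finset.mem_image_of_mem _ (Finset.mem_powerset.2 hS)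
  rw [P_sum T D I _ (fun S hS _ => hmem S hS)]
  have h1 : ∀ i ∈ I, P T (fun S => D S = i ∧ A (T \ V S) S) ≤ q * P T (fun S => D S = i ∧ True) := by
    intro i hi
    obtain ⟨ω, hω, rfl⟩ := Finset.mem_image.1 hi
    rw [Finset.mem_powerset] at hω
    have e1 : P T (fun S => D S = D ω ∧ A (T \ V S) S) =
        P T (fun S => S ∩ V ω = ω ∩ V ω ∧ A (T \ V ω) S) := by
      apply P_congr
      intro S hS
      constructor
      · rintro ⟨h1, h2⟩
        have h3 : V S = V ω := congrArg Prod.fst h1
        have h4 : S ∩ V S = ω ∩ V ω := congrArg Prod.snd h1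
        rw [h3] at h4 h2
        exact ⟨h4, h2⟩
      · rintro ⟨h1, h2⟩
        have h3 := hloc ω S hω hS h1
        refine ⟨?_, ?_⟩
        · simp only [hD]
          rw [h3, h1]
        · rw [h3]; exact h2
    have e2 : P T (fun S => D S = D ω ∧ True) = P T (fun S => S ∩ V ω = ω ∩ V ω) := by
      apply P_congr
      intro S hS
      constructor
      · rintro ⟨h1, -⟩
        have h3 : V S = V ω := congrArg Prod.fst h1
        have h4 : S ∩ V S = ω ∩ V ω := congrArg Prod.snd h1
        rw [h3] at h4
        exact h4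
      · intro h1
        refine ⟨?_, trivial⟩
        simp only [hD]
        rw [hloc ω S hω hS h1, h1]
    have hdep : Dep (V ω) (fun S => S ∩ V ω = ω ∩ V ω) := by
      intro S
      show S ∩ V ω = ω ∩ V ω ↔ S ∩ V ω ∩ V ω = ω ∩ V ω
      rw [Finset.inter_assoc, Finset.inter_self]
    rw [e1, e2, P_indep (hV ω hω) Finset.sdiff_subset Finset.disjoint_sdiff hdep (hA _),
      P_restrict Finset.sdiff_subset (hA _), mul_comm]
    exact mul_le_mul_of_nonneg_right (hq ω hω) (P_nonneg _ _)
  refine (Finset.sum_le_sum h1).trans ?_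
  rw [← Finset.mul_sum, ← P_sum T D I (fun _ => True) (fun S hS _ => hmem S hS), P_true, mul_one]

end Full
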