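import Pool.Agent.Full.Loc.Disl
import Pool.Agent.Full.Loc.ArmZ
import Pool.Agent.Full.Loc.Fresh

/-!
# One arm in the dislocated box, through the tiles which are not visited by the strand of the centre
-/

set_option autoImplicit false

namespace Full.Loc
open Relation Finset
open Pool.Agent.Helper69.RSW (P P_congr P_mono P_restrict P_le_one P_nonneg Dep P_map)

section cstep
variable {τ : Type*}

/-- a step between half edges: around the tail, or along a drawn diagonal of a tile in `K` -/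
def CStep (g : Half τ → Half τ) (ω : Finset τ) (K : τ → Prop) (x y : Half τ) : Prop :=
  (g x ≠ x ∧ y = rot g x) ∨ (g y ≠ y ∧ x = rot g y) ∨
    (K x.1 ∧ (x.1 ∈ ω ↔ (x.2 = .S ∨ x.2 = .N)) ∧ y = (x.1, x.2.opp))

lemma CStep.symm {g : Half τ → Half τ} {ω : Finset τ} {K : τ → Prop} {x y : Half τ}
    (h : CStep g ω K x y) : CStep g ω K y x := by
  rcases h with h | h | ⟨h1, h2, h3⟩
  · exact Or.inr (Or.inl h)
  · exact Or.inl h
  · right; right
    subst h3
    refine ⟨h1, ?_, ?_⟩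
    · simp only
      rw [h2]
      cases x.2 <;> simp [Dir.opp]
    · simp only [Dir.opp_opp]

lemma CStep.mono {g : Half τ → Half τ} {ω : Finset τ} {K K' : τ → Prop} (hK : ∀ t, K t → K' t)
    {x y : Half τ} (h : CStep g ω K x y) : CStep g ω K' x y := by
  rcases h with h | h | ⟨h1, h2, h3⟩
  · exact Or.inl h
  · exact Or.inr (Or.inl h)
  · exact Or.inr (Or.inr ⟨hK _ h1, h2, h3⟩)

lemma CStep.congr {g : Half τ → Half τ} {ω ω' : Finset τ} {K : τ → Prop}
    (hK : ∀ t, K t → (t ∈ ω ↔ t ∈ ω')) {x y : Half τ} (h : CStep g ω K x y) : CStep g ω' K x y := by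
  rcases h with h | h | ⟨h1, h2, h3⟩
  · exact Or.inl h
  · exact Or.inr (Or.inl h)
  · exact Or.inr (Or.inr ⟨h1, by rw [← hK _ h1]; exact h2, h3⟩)

lemma CStep.mem {T : Finset τ} {g : Half τ → Half τ} (hG : Glu T g) {ω : Finset τ} {K : τ → Prop}
    {x y : Half τ} (h : CStep g ω K x y) (hx : x.1 ∈ T) : y.1 ∈ T := by
  rcases h with ⟨_, rfl⟩ | ⟨_, rfl⟩ | ⟨h1, h2, rfl⟩
  · exact hG.mem _ hx
  · exact hG.mem_iff.1 hx
  · exact hx

lemma CStep.path_mem {T : Finset τ} {g : Half τ → Half τ} (hG : Glu T g) {ω : Finset τ} {K : τ → Prop}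
    {x y : Half τ} (h : ReflTransGen (CStep g ω K) x y) (hx : x.1 ∈ T) : y.1 ∈ T := by
  induction h with
  | refl => exact hx
  | tail _ h2 ih => exact h2.mem hG ih

end cstep

/-! ### the developing map along a path -/

/-- the tile is below the line of `z` -/
def low (x : Half (ℤ × ℤ)) : ℤ := if x.1.2 < 0 then 1 else 0

lemma rot_cases {R : ℤ} {x y : Half (ℤ × ℤ)} (hx : gD R x ≠ x) (hy : y = rot (gD R) x) :
    (px y = px x ∧ low y = low x) ∨ (px y = px x ∧ px x ≤ 0) ∨
    (px x = px y + 1 ∧ 1 ≤ px y ∧ low x = 1 ∧ low y = 0) ∨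
    (px y = px x + 1 ∧ 0 ≤ px x ∧ low x = 0 ∧ low y = 1) := by
  subst hy
  unfold rot
  rcases gD_cases hx with ⟨i, j, h1, h2, ⟨h3, h4⟩ | ⟨h3, h4⟩⟩ | ⟨i, j, hj, h1, h2, ⟨h3, h4⟩ | ⟨h3, h4⟩⟩ |
    ⟨i, hi, h1, ⟨h3, h4⟩ | ⟨h3, h4⟩⟩ | ⟨i, hi, h1, ⟨h3, h4⟩ | ⟨h3, h4⟩⟩ <;> rw [h4, h3] <;>
    simp only [px, low, rho, Dir.ccw]
  · left; exact ⟨trivial, rfl⟩
  · left; exact ⟨trivial, rfl⟩
  · left
    refine ⟨trivial, ?_⟩
    split_ifs <;> omega
  · left
    refine ⟨trivial, ?_⟩
    split_ifs <;> omega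
  · right; left; exact ⟨trivial, by omega⟩
  · right; left; exact ⟨trivial, by omega⟩
  · right; right; left
    refine ⟨by ring, by omega, by norm_num, by norm_num⟩
  · right; right; right
    refine ⟨by ring, by omega, by norm_num, by norm_num⟩

section path
variable {R : ℤ} {ω0 : Finset (ℤ × ℤ)} {o : Half (ℤ × ℤ) → ℤ} (h : OB R ω0 o)
  {G ω : Finset (ℤ × ℤ)} (hG : ∀ t ∈ G, t ∈ Bx R ∧ ∀ d, o (t, d) = 0)
include h

lemma OB.dev_rot {x : Half (ℤ × ℤ)} (hx : gD R x ≠ x) : dev R o (rot (gD R) x) = dev R o x := by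
  have h1 := (glu_gD R).inv x
  have h2 : gD R (gD R x) ≠ gD R x := by rw [h1]; exact hx.symm
  have h3 := h.dev_glue h2
  rw [h1] at h3
  exact h3.symm

omit h in
lemma shf_of_unvisited {t : ℤ × ℤ} (ht : ∀ d, o (t, d) = 0) (d : Dir) : shf R o (t, d) = pot R o t := by
  have h1 := ht .S
  have h2 := ht .W
  have h3 := ht .N
  cases d <;> simp [shf, h1, h2, h3]

include hG

/-- a step of a path is a step of a path in the plane -/
theorem OB.step (hω : ω ⊆ G) {x y : Half (ℤ × ℤ)} (hs : CStep (gD R) ω (· ∈ G) x y) :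
    dev R o y = dev R o x ∨ ZStep (G.image (devT R o)) (ω.image (devT R o)) (dev R o x) (dev R o y) := by
  rcases hs with ⟨h1, rfl⟩ | ⟨h1, rfl⟩ | ⟨h1, h2, rfl⟩
  · left; exact h.dev_rot h1
  · left; exact (h.dev_rot h1).symm
  · right
    obtain ⟨t, d⟩ := x
    simp only at h1 h2
    have h3 := hG t h1
    refine ⟨devT R o t, mem_image_of_mem _ h1, ?_⟩
    have hmem : devT R o t ∈ ω.image (devT R o) ↔ t ∈ ω := by
      rw [mem_image]
      constructor
      · rintro ⟨t', h4, h5⟩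
        have h6 := hG t' (hω h4)
        rwa [← h.inj h6.1 h3.1 h6.2 h3.2 h5]
      · intro h4
        exact ⟨t, h4, rfl⟩
    unfold Drawn
    rw [hmem, h2]
    have e := fun d => shf_of_unvisited (R := R) h3.2 d
    obtain ⟨i, j⟩ := t
    cases d <;> simp only [dev, devT, e, px, py, Dir.opp, Prod.mk.injEq] <;> simp <;> omega

theorem OB.path (hω : ω ⊆ G) {x y : Half (ℤ × ℤ)} (hs : ReflTransGen (CStep (gD R) ω (· ∈ G)) x y) :
    ReflTransGen (ZStep (G.image (devT R o)) (ω.image (devT R o))) (dev R o x) (dev R o y) := by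
  induction hs with
  | refl => exact ReflTransGen.refl
  | tail _ h2 ih =>
    rcases h.step hG hω h2 with h3 | h3
    · rw [h3]; exact ih
    · exact ih.tail h3

omit hG in
lemma OB.start {r : ℤ} (hr : r < R) {x : Half (ℤ × ℤ)} (hx : x.1 ∈ Bx r) :
    |shf R o x - pot R o (0, 0)| ≤ 2 * r + 4 ∧ |px x| ≤ r ∧ |py x| ≤ r := by
  obtain ⟨⟨i, j⟩, d⟩ := x
  simp only at hx
  have h1 := h.centre hr hx
  have h2 := mem_Bx.1 hx
  have h3 := h.val ((i, j), .S)
  have h4 := h.val ((i, j), .W)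
  have h5 := h.val ((i, j), .N)
  rw [abs_le] at h1
  simp only at h2
  refine ⟨?_, ?_, ?_⟩
  · rw [abs_le]
    cases d <;> simp only [shf] <;> omega
  · rw [abs_le]
    cases d <;> simp only [px] <;> omega
  · rw [abs_le]
    cases d <;> simp only [py] <;> omega

/-- **spread**: a path whose image stays near the centre stays near the centre -/
theorem OB.spread {r L : ℤ} (hr1 : 0 ≤ r) (hr : r < R) {x0 x : Half (ℤ × ℤ)} (hx0 : x0.1 ∈ Bx r)
    (hs : ReflTransGen (CStep (gD R) ω (· ∈ G)) x0 x) :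
    (∃ y, ReflTransGen (CStep (gD R) ω (· ∈ G)) x0 y ∧
      (L ≤ |(dev R o y).1 - pot R o (0, 0)| ∨ L ≤ |(dev R o y).2 - 0|)) ∨
    (|px x + shf R o x - pot R o (0, 0)| < L ∧ |py x| < L ∧
      (px x < 0 → |shf R o x - pot R o (0, 0)| ≤ L + 2 * r + 6) ∧
      (0 < px x → |shf R o x + low x - pot R o (0, 0)| ≤ L + 2 * r + 6)) := by
  have hlow : ∀ x, 0 ≤ low x ∧ low x ≤ 1 := by
    intro x
    unfold low
    split_ifs <;> omega
  induction hs with
  | refl =>
    by_cases hfar : L ≤ |(dev R o x0).1 - pot R o (0, 0)| ∨ L ≤ |(dev R o x0).2 - 0|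
    · exact Or.inl ⟨x0, ReflTransGen.refl, hfar⟩
    · right
      push Not at hfar
      obtain ⟨h1, h2⟩ := hfar
      obtain ⟨h3, h4, h5⟩ := h.start hr hx0
      have h6 := hlow x0
      have h7 : 0 < L := lt_of_le_of_lt (abs_nonneg _) h1
      unfold dev at h1 h2
      simp only [sub_zero] at h1 h2
      refine ⟨h1, h2, fun _ => ?_, fun _ => ?_⟩
      · rw [abs_le] at h3 ⊢; omega
      · rw [abs_le] at h3 ⊢; omega
  | @tail x y hxx hxy ih =>
    rcases ih with ih | ⟨i1, i2, i3, i4⟩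
    · exact Or.inl ih
    · by_cases hfar : L ≤ |(dev R o y).1 - pot R o (0, 0)| ∨ L ≤ |(dev R o y).2 - 0|
      · exact Or.inl ⟨y, hxx.tail hxy, hfar⟩
      · right
        push Not at hfar
        obtain ⟨h1, h2⟩ := hfar
        have h6 := hlow x
        have h6' := hlow y
        have h7 : 0 < L := lt_of_le_of_lt (abs_nonneg _) h1
        unfold dev at h1 h2
        simp only [sub_zero] at h1 h2
        refine ⟨h1, h2, ?_⟩
        rw [abs_lt] at h1 i1
        rcases hxy with ⟨h3, h4⟩ | ⟨h3, h4⟩ | ⟨h3, h4, h5⟩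
        · have h8 := h.dev_rot h3
          rw [← h4] at h8
          have h9 : px y + shf R o y = px x + shf R o x := congrArg Prod.fst h8
          rw [abs_le, abs_le] at *
          rcases rot_cases h3 h4 with h10 | h10 | h10 | h10 <;> constructor <;> intro h11 <;> omega
        · have h8 := h.dev_rot h3
          rw [← h4] at h8
          have h9 : px x + shf R o x = px y + shf R o y := congrArg Prod.fst h8
          rw [abs_le, abs_le] at *
          rcases rot_cases h3 h4 with h10 | h10 | h10 | h10 <;> constructor <;> intro h11 <;> omega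
        · obtain ⟨t, d⟩ := x
          simp only at h3 h4 h5
          subst h5
          have h8 := (hG t h3).2
          have e := fun d => shf_of_unvisited (R := R) h8 d
          rw [e] at h1 i1 i3 i4
          rw [e]
          have hl : low (t, d.opp) = low (t, d) := rfl
          rw [hl] at h6' ⊢
          have hp : px (t, d.opp) = px (t, d) + 1 ∨ px (t, d.opp) = px (t, d) - 1 := by
            cases d <;> simp [px, Dir.opp]
          rw [abs_le, abs_le] at *
          constructor <;> intro h11 <;> omega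

end path

/-! ### the visited tiles -/

section visited
variable {τ : Type*} [DecidableEq τ]

/-- the tiles of `T` visited by the strand of `z` -/
noncomputable def vis (T : Finset τ) (g : Half τ → Half τ) (z : Half τ) (ω : Finset τ) : Finset τ := by
  classical
  exact T.filter (fun t => ∃ d, Conn (mate ω) g z (t, d))

lemma mem_vis {T : Finset τ} {g : Half τ → Half τ} {z : Half τ} {ω : Finset τ} {t : τ} :
    t ∈ vis T g z ω ↔ t ∈ T ∧ ∃ d, Conn (mate ω) g z (t, d) := by
  classical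
  unfold vis
  rw [mem_filter]

/-- the strand is determined by the bits of the visited tiles -/
theorem conn_of_agree {T : Finset τ} {g : Half τ → Half τ} (hG : Glu T g) {z : Half τ} (hz : z.1 ∈ T)
    {ω ω' : Finset τ} (h : ω' ∩ vis T g z ω = ω ∩ vis T g z ω) (x : Half τ) :
    Conn (mate ω') g z x ↔ Conn (mate ω) g z x := by
  have hm : ∀ x : Half τ, Conn (mate ω) g z x → mate ω' x = mate ω x := by
    intro x hx
    have h1 : x.1 ∈ vis T g z ω := mem_vis.2 ⟨hG.conn_mem hx hz, x.2, hx⟩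
    apply mate_congr
    have h2 : x.1 ∈ ω' ∩ vis T g z ω ↔ x.1 ∈ ω ∩ vis T g z ω := by rw [h]
    rw [mem_inter, mem_inter] at h2
    tauto
  constructor
  · intro hc
    induction hc with
    | refl => exact Conn.refl _
    | @tail b c _ h2 ih =>
      rcases h2 with rfl | rfl
      · rw [hm b ih]; exact ih.trans (Conn.m_step b)
      · exact ih.trans (Conn.g_step b)
  · intro hc
    induction hc with
    | refl => exact Conn.refl _
    | @tail b c hb h2 ih =>
      rcases h2 with rfl | rfl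
      · rw [← hm b hb]; exact ih.trans (Conn.m_step b)
      · exact ih.trans (Conn.g_step b)

theorem vis_loc {T : Finset τ} {g : Half τ → Half τ} (hG : Glu T g) {z : Half τ} (hz : z.1 ∈ T)
    {ω ω' : Finset τ} (h : ω' ∩ vis T g z ω = ω ∩ vis T g z ω) : vis T g z ω' = vis T g z ω := by
  ext t
  rw [mem_vis, mem_vis]
  simp only [conn_of_agree hG hz h]

end visited

/-- the orientation of the strand of the centre -/
lemma exists_OB {R : ℤ} (ω : Finset (ℤ × ℤ)) : ∃ o : Half (ℤ × ℤ) → ℤ, OB R ω o ∧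
    ∀ x, o x ≠ 0 ↔ Conn (mate ω) (gD R) z0 x := by
  obtain ⟨o, ho⟩ := ((glu_gD R).two ω).exists_orn gD_z ((glu_gD R).periodic ω z0)
  exact ⟨o, ⟨ho.om, ho.og, ho.start, ho.val⟩, ho.conn⟩

/-- a path from the box of size `r` to the boundary of the box of size `R`, through tiles of `G` -/
def ArmD (R r : ℤ) (G ω : Finset (ℤ × ℤ)) : Prop :=
  ∃ x y : Half (ℤ × ℤ), x.1 ∈ Bx r ∧ y.1 ∉ Bx (R - 1) ∧ ReflTransGen (CStep (gD R) ω (· ∈ G)) x y

lemma dep_ArmD (R r : ℤ) (G : Finset (ℤ × ℤ)) : Dep G (ArmD R r G) := by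
  have key : ∀ ω ω' : Finset (ℤ × ℤ), (∀ t ∈ G, t ∈ ω ↔ t ∈ ω') → ArmD R r G ω → ArmD R r G ω' := by
    rintro ω ω' h ⟨x, y, h1, h2, h3⟩
    exact ⟨x, y, h1, h2, h3.lift id (fun a b hab => CStep.congr h hab)⟩
  intro ω
  constructor
  · exact key _ _ fun t ht => by rw [mem_inter]; tauto
  · exact key _ _ fun t ht => by rw [mem_inter]; tauto

/-- relabelling by a map which is injective on the set of tiles -/
lemma P_image_inj {E E' : Type*} [DecidableEq E] [DecidableEq E'] {G : Finset E} {f : E → E'}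
    (hf : Set.InjOn f G) (A : Finset E' → Prop) : P (G.image f) A = P G (fun S => A (S.image f)) := by
  classical
  set φ : {x // x ∈ G} ↪ E := Function.Embedding.subtype _ with hφ
  set ψ : {x // x ∈ G} ↪ E' := ⟨fun x => f x, fun x y h => Subtype.ext (hf x.2 y.2 h)⟩ with hψ
  have h1 : G.attach.map φ = G := Finset.attach_map_val
  have h2 : G.attach.map ψ = G.image f := by
    ext y
    simp only [Finset.mem_map, Finset.mem_attach, true_and, Subtype.exists, Finset.mem_image]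
    constructor
    · rintro ⟨x, hx, rfl⟩; exact ⟨x, hx, rfl⟩
    · rintro ⟨x, hx, rfl⟩; exact ⟨x, hx, rfl⟩
  have h3 := P_map G.attach ψ A
  have h4 := P_map G.attach φ (fun S => A (S.image f))
  rw [h2] at h3
  rw [h1] at h4
  rw [h3, h4]
  apply P_congr
  intro S _
  have : (S.map φ).image f = S.map ψ := by
    ext y
    simp only [Finset.mem_map, Finset.mem_image]
    constructor
    · rintro ⟨x, ⟨x', hx', rfl⟩, rfl⟩; exact ⟨x', hx', rfl⟩
    · rintro ⟨x', hx', rfl⟩; exact ⟨_, ⟨x', hx', rfl⟩, rfl⟩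
  rw [this]

lemma Bx_mono {r R : ℤ} (h : r ≤ R) : Bx r ⊆ Bx R := by
  intro t
  rw [mem_Bx, mem_Bx]
  omega

lemma arith1 {a s b r : ℤ} (hr : 1 ≤ r) (h1 : |s - b| ≤ 2 * r + 4) (h2 : |a| ≤ r) : |a + s - b| ≤ 7 * r := by
  rw [abs_le] at h1 h2 ⊢
  omega

lemma arith2 {a s b l L r : ℤ} (hl : 0 ≤ l ∧ l ≤ 1) (hr : 1 ≤ r) (h1 : |a + s - b| < L)
    (h2 : a < 0 → |s - b| ≤ L + 2 * r + 6) (h3 : 0 < a → |s + l - b| ≤ L + 2 * r + 6) :
    |a| ≤ 2 * L + 2 * r + 6 := by
  rw [abs_lt] at h1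
  rw [abs_le] at h2 h3 ⊢
  rcases lt_trichotomy a 0 with h8 | h8 | h8
  · have := h2 h8
    omega
  · omega
  · have := h3 h8
    omega

/-- the arm for a fixed visited set -/
theorem arm_fixed {R r L : ℤ} (hr : 1 ≤ r) (hL : 2 * L + 2 * r + 8 ≤ R) {ω0 : Finset (ℤ × ℤ)} {q : ℝ}
    (hq : ∀ (F : Finset (ℤ × ℤ)) (b : ℤ × ℤ), P F (fun ω => ZArm F ω b (7 * r) L) ≤ q) (hL0 : 0 ≤ L) :
    P (Bx R \ vis (Bx R) (gD R) z0 ω0) (ArmD R r (Bx R \ vis (Bx R) (gD R) z0 ω0)) ≤ q := by
  obtain ⟨o, ho, hconn⟩ := exists_OB (R := R) ω0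
  set G := Bx R \ vis (Bx R) (gD R) z0 ω0 with hGdef
  have hG : ∀ t ∈ G, t ∈ Bx R ∧ ∀ d, o (t, d) = 0 := by
    intro t ht
    rw [hGdef, mem_sdiff, mem_vis] at ht
    refine ⟨ht.1, fun d => ?_⟩
    by_contra h
    exact ht.2 ⟨ht.1, d, (hconn _).1 h⟩
  have hinj : Set.InjOn (devT R o) G := by
    intro t ht t' ht' he
    have h1 := hG t ht
    have h2 := hG t' ht'
    exact ho.inj h1.1 h2.1 h1.2 h2.2 he
  have e := P_image_inj hinj (fun ω => ZArm (G.image (devT R o)) ω (pot R o (0, 0), 0) (7 * r) L)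
  calc P G (ArmD R r G) ≤ P G (fun ω => ZArm (G.image (devT R o)) (ω.image (devT R o))
        (pot R o (0, 0), 0) (7 * r) L) := by
        apply P_mono
        rintro ω hω ⟨x, y, h1, h2, h3⟩
        have hyR : y.1 ∈ Bx R := CStep.path_mem (glu_gD R) h3 (Bx_mono (by omega) h1)
        rcases ho.spread hG (L := L) (by omega) (by omega) h1 h3 with ⟨y', h4, h5⟩ | ⟨h4, h5, h6, h7⟩
        · obtain ⟨s1, s2, s3⟩ := ho.start (r := r) (by omega) h1
          refine ⟨dev R o x, dev R o y', ⟨?_, ?_⟩, h5, ho.path hG hω h4⟩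
          · exact arith1 hr s1 s2
          · unfold dev
            simp only [sub_zero]
            exact s3.trans (by linarith)
        · exfalso
          have hl : 0 ≤ low y ∧ low y ≤ 1 := by
            unfold low
            split_ifs <;> norm_num
          have hx := arith2 hl hr h4 h6 h7
          clear h4 h6 h7 h3 hq hinj hG h1 hω
          have hp : px y = y.1.1 ∨ px y = y.1.1 + 1 := by
            obtain ⟨t, d⟩ := y
            cases d <;> simp [px]
          have hp' : py y = y.1.2 ∨ py y = y.1.2 + 1 := by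
            obtain ⟨t, d⟩ := y
            cases d <;> simp [py]
          rw [mem_Bx] at h2 hyR
          rw [abs_le] at hx
          rw [abs_lt] at h5
          omega
    _ = P (G.image (devT R o)) (fun ω => ZArm (G.image (devT R o)) ω (pot R o (0, 0), 0) (7 * r) L) :=
        e.symm
    _ ≤ q := hq _ _

/-- **(EQ)**: one arm in the dislocated box, through the tiles which are not visited by the strand of
the centre -/
theorem arm_dislocated : ∃ C c : ℝ, 1 ≤ C ∧ 0 < c ∧ ∀ R r : ℤ, 1 ≤ r → 1 ≤ R →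
    P (Bx R) (fun ω => ArmD R r (Bx R \ vis (Bx R) (gD R) z0 ω) ω) ≤ C * ((r : ℝ) / R) ^ c := by
  obtain ⟨C, c, hC, hc, hz⟩ := zarm_pow
  have h56 : (1 : ℝ) ≤ 56 ^ c := Real.one_le_rpow (by norm_num) hc.le
  refine ⟨C * 56 ^ c, c, by nlinarith, hc, fun R r hr hR => ?_⟩
  have hr' : (1 : ℝ) ≤ r := by exact_mod_cast hr
  have hR' : (1 : ℝ) ≤ R := by exact_mod_cast hR
  have hscale : C * 56 ^ c * ((r : ℝ) / R) ^ c = C * ((56 * r : ℝ) / R) ^ c := by
    rw [mul_assoc, ← Real.mul_rpow (by norm_num) (by positivity), mul_div_assoc]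
  rw [hscale]
  by_cases hbig : 56 * r ≤ R
  · set L : ℤ := R / 4 with hL
    have hL1 : 1 ≤ L := by omega
    have h1 := P_explore (Bx R) (vis (Bx R) (gD R) z0)
      (fun ω _ t ht => (mem_vis.1 ht).1)
      (fun ω ω' _ _ h => vis_loc (glu_gD R) (by unfold z0; rw [mem_Bx]; simp only; omega) h)
      (ArmD R r) (dep_ArmD R r) (q := C * (((7 * r : ℤ) : ℝ) / L) ^ c)
      (fun ω _ => arm_fixed hr (L := L) (by omega)
        (fun F b => hz F b (7 * r) L (by omega) hL1) (by omega))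
    refine h1.trans ?_
    have hL' : (R : ℝ) / 8 ≤ L := by
      have : (R : ℝ) ≤ 8 * L := by exact_mod_cast (by omega : R ≤ 8 * L)
      linarith
    have hLpos : (0 : ℝ) < L := by exact_mod_cast (by omega : 0 < L)
    apply mul_le_mul_of_nonneg_left _ (by linarith)
    apply Real.rpow_le_rpow (by positivity) _ hc.le
    rw [div_le_div_iff₀ hLpos (by linarith)]
    push_cast
    nlinarith
  · have h2 : (1 : ℝ) ≤ (56 * r : ℝ) / R := by
      rw [le_div_iff₀ (by linarith)]
      have : (R : ℝ) ≤ 56 * r := by exact_mod_cast (by omega : R ≤ 56 * r)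
      linarith
    have h3 : (1 : ℝ) ≤ ((56 * r : ℝ) / R) ^ c := Real.one_le_rpow h2 hc.le
    have h4 := P_le_one (Bx R) (fun ω => ArmD R r (Bx R \ vis (Bx R) (gD R) z0 ω) ω)
    nlinarith

end Full.Loc
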